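import Pool.Agent.Lib.MP_d46fce_co.DI.St3

/-!
Discrete Borsuk-Ulam, thinning and alteration.
-/

namespace Pool.Agent.DI

open Pool.Agent.Lib.MP_d46fce_co

theorem alt_anti {g : Finset ℕ → ℝ} (hg : Lip g) {P Q : Finset ℕ} (h : P ⊆ Q) : g Q ≤ g P := by
  have key : ∀ S : Finset ℕ, g (P ∪ S) ≤ g P := by
    intro S
    induction S using Finset.induction_on with
    | empty => simp
    | insert x S _ ih => rw [Finset.union_insert]; exact (hg x _).2.trans ih
  have := key Q
  rwa [Finset.union_eq_right.2 h] at this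

theorem alt_lip {g : Finset ℕ → ℝ} (hg : Lip g) (R : Finset ℕ) :
    Lip (fun P => (g (P ∩ R) - g (R \ P)) / 2) := by
  intro x P
  by_cases h : x ∈ R ∧ x ∉ P
  · have e1 : insert x P ∩ R = insert x (P ∩ R) := Finset.insert_inter_of_mem h.1
    have e2 : R \ P = insert x (R \ insert x P) := by
      ext z
      simp only [Finset.mem_sdiff, Finset.mem_insert]
      constructor
      · intro hz
        by_cases e : z = x
        · exact Or.inl e
        · exact Or.inr ⟨hz.1, fun h' => h'.elim e hz.2⟩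
      · rintro (rfl | hz)
        · exact h
        · exact ⟨hz.1, fun h' => hz.2 (Or.inr h')⟩
    have a1 := hg x (P ∩ R)
    have a2 := hg x (R \ insert x P)
    simp only
    rw [e1, e2]
    constructor <;> linarith [a1.1, a1.2, a2.1, a2.2]
  · have e1 : insert x P ∩ R = P ∩ R := by
      ext z
      simp only [Finset.mem_inter, Finset.mem_insert]
      constructor
      · rintro ⟨rfl | hz, hz'⟩
        · exact ⟨by_contra fun h' => h ⟨hz', h'⟩, hz'⟩
        · exact ⟨hz, hz'⟩
      · exact fun hz => ⟨Or.inr hz.1, hz.2⟩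
    have e2 : R \ insert x P = R \ P := by
      ext z
      simp only [Finset.mem_sdiff, Finset.mem_insert]
      constructor
      · exact fun hz => ⟨hz.1, fun h' => hz.2 (Or.inr h')⟩
      · refine fun hz => ⟨hz.1, ?_⟩
        rintro (rfl | h')
        · exact h hz
        · exact hz.2 h'
    simp only
    rw [e1, e2]
    constructor <;> linarith

/-- deleting few points kills all colours -/
theorem alt_kill (N n M E : ℕ) (g : ℕ → Finset ℕ → ℝ) (hg : ∀ i, Lip (g i))
    (hk : ∀ i P, g i P ≤ 0 → ∃ K : Finset ℕ,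
      (K.card : ℝ) ≤ g i (Finset.range N \ P) ∧ 0 < g i (P \ K))
    (hcov : ∀ P ⊆ Finset.range N, n ≤ P.card → ∀ B : Finset ℕ, B.card ≤ E →
      Few N B P → ∃ i < M, g i P ≤ 0)
    (P B : Finset ℕ) (hP : P ⊆ Finset.range N) (hB : Few N B P) (w : ℕ → ℝ)
    (w0 : ∀ i, 0 ≤ w i) (w1 : ∀ i, g i P ≤ 0 → g i (Finset.range N \ P) ≤ w i)
    (hE : (B.card : ℝ) + ∑ i ∈ Finset.range M, w i ≤ E) :
    (P.card : ℝ) + 1 ≤ n + ∑ i ∈ Finset.range M, w i := by
  classical
  have hex : ∀ i, ∃ K : Finset ℕ, (K.card : ℝ) ≤ w i ∧ (g i P ≤ 0 → 0 < g i (P \ K)) := by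
    intro i
    by_cases h : g i P ≤ 0
    · obtain ⟨K, h1, h2⟩ := hk i P h
      exact ⟨K, h1.trans (w1 i h), fun _ => h2⟩
    · exact ⟨∅, by simpa using w0 i, fun h' => absurd h' h⟩
  choose K K1 K2 using hex
  set U := (Finset.range M).biUnion K with hU
  have U1 : (U.card : ℝ) ≤ ∑ i ∈ Finset.range M, w i := by
    have h1 : U.card ≤ ∑ i ∈ Finset.range M, (K i).card := Finset.card_biUnion_le
    have h2 : (U.card : ℝ) ≤ ∑ i ∈ Finset.range M, ((K i).card : ℝ) := by exact_mod_cast h1
    exact h2.trans (Finset.sum_le_sum fun i _ => K1 i)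
  have U2 : (P \ U).card + 1 ≤ n := by
    by_contra hc
    have hBU : (B ∪ U).card ≤ E := by
      have h1 : (((B ∪ U).card : ℕ) : ℝ) ≤ B.card + U.card := by
        exact_mod_cast Finset.card_union_le B U
      have h2 : (((B ∪ U).card : ℕ) : ℝ) ≤ E := by linarith
      exact_mod_cast h2
    obtain ⟨i, hi, h⟩ := hcov (P \ U) (Finset.sdiff_subset.trans hP) (by omega) (B ∪ U) hBU (by
      intro j hj a b
      rw [Finset.mem_union, not_or] at a b
      have := hB j hj a.1 b.1
      simp only [Finset.mem_sdiff]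
      tauto)
    have h1 : g i P ≤ g i (P \ U) := alt_anti (hg i) Finset.sdiff_subset
    have h2 : g i (P \ K i) ≤ g i (P \ U) := alt_anti (hg i) (Finset.sdiff_subset_sdiff
      (Finset.Subset.refl _) (Finset.subset_biUnion_of_mem K (Finset.mem_range.2 hi)))
    have h3 := K2 i (h1.trans h)
    linarith
  have U3 : P.card ≤ (P \ U).card + U.card := Finset.card_le_card_sdiff_add_card
  have U4 : (P.card : ℝ) + 1 ≤ n + U.card := by exact_mod_cast (show P.card + 1 ≤ n + U.card by omega)
  linarith

theorem alt_thm : AltStmt := by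
  classical
  intro n k M t g hn hM ht1 hkD hMt hg ht hkill hcov
  set N := 2 * n + k with hN
  set R := Finset.range N with hR
  set G : ℕ → Finset ℕ → ℝ := fun i P => (g i (P ∩ R) - g i (R \ P)) / 2 with hG
  have G1 : ∀ i, Lip (G i) := fun i => alt_lip (hg i) R
  have G2 : ∀ i P Q, Disjoint P Q → (0 : ℝ) ≤ G i P + G i Q := by
    intro i P Q h
    have h1 : g i (R \ Q) ≤ g i (P ∩ R) := alt_anti (hg i) fun x hx => by
      rw [Finset.mem_inter] at hx
      exact Finset.mem_sdiff.2 ⟨hx.2, Finset.disjoint_left.1 h hx.1⟩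
    have h2 : g i (R \ P) ≤ g i (Q ∩ R) := alt_anti (hg i) fun x hx => by
      rw [Finset.mem_inter] at hx
      exact Finset.mem_sdiff.2 ⟨hx.2, Finset.disjoint_right.1 h hx.1⟩
    simp only [hG]
    linarith
  obtain ⟨y, B, u, y1, B1, B2, y2, y3, y4⟩ := balance N M (by omega) hM 0 G G1 G2
  set L := List.range N with hL
  have hBD : (B.card : ℝ) ≤ M := by exact_mod_cast B1
  have hk0 : (0 : ℝ) ≤ k := by positivity
  have hD0 : (0 : ℝ) < M := by linarith
  set τ : ℝ := t / 2 - 1 / 4 with hτ
  have τ0 : 0 < τ := by linarith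
  set p : ℝ := (k + 2) / (2 * M) with hp
  set s : ℝ := τ / (2 * M) with hs
  have p0 : 0 ≤ p := by positivity
  have s0 : 0 ≤ s := by positivity
  have ps : p + s ≤ 1 := by
    rw [hp, hs, ← add_div, div_le_one (by positivity)]; linarith
  have pt : 2 ≤ (p + s) * t := by
    have : 2 ≤ p * t := by
      rw [hp, div_mul_eq_mul_div, le_div_iff₀ (by positivity)]; linarith
    nlinarith
  set θ : ℕ → ℝ := fun x => if x ∈ B then 1 - p else 1 with hθ
  have θ1 : ∀ x, 0 ≤ θ x ∧ θ x ≤ 1 := fun x => by
    simp only [hθ]; split_ifs <;> constructor <;> linarith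
  set ψ : ℕ → ℝ := fun x => if x ∈ B then (p + s) * s else 0 with hψ
  have ψs : (L.map ψ).sum ≤ (p + s) * (τ / 2) := by
    rw [hL, list_range_sum, hψ]
    simp only [Finset.sum_ite_mem, Finset.sum_const, nsmul_eq_mul]
    have h1 : ((Finset.range N ∩ B).card : ℝ) ≤ M :=
      le_trans (by exact_mod_cast Finset.card_le_card Finset.inter_subset_right) hBD
    have h2 : (M : ℝ) * s = τ / 2 := by rw [hs]; field_simp
    calc _ ≤ (M : ℝ) * ((p + s) * s) := mul_le_mul_of_nonneg_right h1 (by positivity)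
      _ = (p + s) * (M * s) := by ring
      _ = _ := by rw [h2]
  set c : ℝ := t * Real.exp (-((p + s) * (t / 2))) with hc
  have c0 : 0 ≤ c := by positivity
  have hexp : ∀ z : ℕ → ℝ, (∀ x, 0 ≤ z x ∧ z x ≤ 1) → (∀ x < N, x ∉ B → z x = 0 ∨ z x = 1) →
      ∀ i, 0 / 2 - 1 / 4 ≤ Ex z L (G i) →
        Ex (fun x => θ x * z x) L (fun P => c * Real.exp (-((p + s) * G i P))) ≤
        t * Real.exp (-((p + s) * (τ / 2))) := by
    intro z z1 z2 i hi
    rw [Ex_mul, hc, mul_assoc]
    refine mul_le_mul_of_nonneg_left ?_ (by linarith)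
    refine (mul_le_mul_of_nonneg_left
      (Ex_exp (fun x => θ x * z x) z ψ (p + s) L (fun x => ?_) z1 ?_ (G i) (G1 i))
      (Real.exp_pos _).le).trans ?_
    · have := θ1 x
      have := z1 x
      constructor <;> nlinarith
    · intro x hx δ h0 h1
      simp only [hθ, hψ]
      split_ifs with hxB
      · exact two_point p s (z x) δ p0 s0 ps (z1 x).1 (z1 x).2 h0 h1
      · rcases z2 x (List.mem_range.1 hx) hxB with h | h <;> simp [h]
    · rw [← Real.exp_add]
      refine Real.exp_le_exp.2 ?_
      have h1 : (p + s) * (0 / 2 - 1 / 4) ≤ (p + s) * Ex z L (G i) :=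
        mul_le_mul_of_nonneg_left hi (by positivity)
      have h2 : (p + s) * (t / 2) = (p + s) * τ + (p + s) * (1 / 4) := by rw [hτ]; ring
      linarith
  have y1' : ∀ x, 0 ≤ 1 - y x ∧ 1 - y x ≤ 1 := fun x => by
    have := y1 x
    constructor <;> linarith
  set f : Finset ℕ → ℝ := fun P => ∑ i ∈ Finset.range M, c * Real.exp (-((p + s) * G i P)) +
    (-1) * (P.card : ℝ) with hf
  have key := Ex_couple (fun x => θ x * y x) (fun x => θ x * (1 - y x)) L List.nodup_range
    (fun x => mul_nonneg (θ1 x).1 (y1 x).1) (fun x => mul_nonneg (θ1 x).1 (y1' x).1)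
    (fun x => by have := (θ1 x).2; linarith) (2 - 2 * n) f f (by
      intro P Q hr
      have hP : P ⊆ Finset.range N := fun x hx => Finset.mem_range.2 (List.mem_range.1 (hr.1 x hx).1)
      have hQ : Q ⊆ Finset.range N :=
        fun x hx => Finset.mem_range.2 (List.mem_range.1 (hr.2.1 x hx).1)
      have hPQ : P.card + Q.card ≤ N := by
        rw [← Finset.card_union_of_disjoint hr.2.2.1]
        exact (Finset.card_le_card (Finset.union_subset hP hQ)).trans (Finset.card_range _).le
      have hu : ∀ x < N, x ∉ B → (x ∈ P ↔ u x) ∧ (x ∈ Q ↔ ¬ u x) := by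
        intro x hx hxB
        have h1 := hr.2.2.2 x (List.mem_range.2 hx) (by simp [hθ, hxB])
        have h2 : x ∈ P → u x := fun h => by
          by_contra h3
          exact (hr.1 x h).2 (by simp [(y2 x hx hxB).2 h3])
        have h3 : x ∈ Q → ¬ u x := fun h h3 => (hr.2.1 x h).2 (by simp [(y2 x hx hxB).1 h3])
        tauto
      have pos : ∀ S : Finset ℕ, 0 ≤ ∑ i ∈ Finset.range M, c * Real.exp (-((p + s) * G i S)) :=
        fun S => Finset.sum_nonneg fun i _ => mul_nonneg c0 (Real.exp_pos _).le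
      have one : ∀ S ⊆ Finset.range N, Few N B S →
          ∑ i ∈ Finset.range M, c * Real.exp (-((p + s) * G i S)) ≤ k + 2 →
          (S.card : ℝ) + 1 ≤ n + ∑ i ∈ Finset.range M, c * Real.exp (-((p + s) * G i S)) := by
        intro S h1 h3 h4
        refine alt_kill N n M (3 * M) g hg hkill hcov S B h1 h3 _
          (fun i => mul_nonneg c0 (Real.exp_pos _).le) (fun i hi => ?_) (by push_cast; linarith)
        have a1 := ht i S (R \ S) Finset.disjoint_sdiff
        simp only [hG]
        rw [Finset.inter_eq_left.2 h1, hc, mul_assoc, ← Real.exp_add]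
        have a2 := Real.add_one_le_exp
          (-((p + s) * (t / 2)) + -((p + s) * ((g i S - g i (R \ S)) / 2)))
        refine le_trans ?_ (mul_le_mul_of_nonneg_left a2 (by linarith))
        have a3 : 0 ≤ ((p + s) * t - 2) * (g i (R \ S) - t) :=
          mul_nonneg (by linarith) (by linarith)
        have a4 : 0 ≤ ((p + s) * t) * (-g i S) := mul_nonneg (by linarith) (by linarith)
        rw [← hR]
        nlinarith
      have hPQ' : (P.card : ℝ) + Q.card ≤ 2 * n + k := by exact_mod_cast hPQ
      simp only [hf]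
      rcases le_total (∑ i ∈ Finset.range M, c * Real.exp (-((p + s) * G i P))) (k + 2) with a | a
      · rcases le_total (∑ i ∈ Finset.range M, c * Real.exp (-((p + s) * G i Q))) (k + 2) with b | b
        · have h1 := one P hP (fun x hx a b => by
            rw [(hu x (by omega) a).1, (hu _ hx b).1]; exact y3 x hx a b) a
          have h2 := one Q hQ (fun x hx a b => by
            rw [(hu x (by omega) a).2, (hu _ hx b).2, y3 x hx a b]) b
          linarith
        · linarith [pos P]
      · linarith [pos Q])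
  simp only [hf] at key
  rw [Ex_add, Ex_add, Ex_sum, Ex_sum, Ex_mul _ _ (-1), Ex_mul _ _ (-1),
    Ex_card _ _ List.nodup_range, Ex_card _ _ List.nodup_range, list_range_sum,
    list_range_sum] at key
  have s1 : ∑ i ∈ Finset.range M, Ex (fun x => θ x * y x) L
      (fun P => c * Real.exp (-((p + s) * G i P))) ≤
        M * (t * Real.exp (-((p + s) * (τ / 2)))) := by
    refine (Finset.sum_le_sum fun i hi => hexp y y1 (fun x hx h => ?_) i
      (y4 i (Finset.mem_range.1 hi)).1).trans (by simp)
    have := y2 x hx h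
    tauto
  have s2 : ∑ i ∈ Finset.range M, Ex (fun x => θ x * (1 - y x)) L
      (fun P => c * Real.exp (-((p + s) * G i P))) ≤
        M * (t * Real.exp (-((p + s) * (τ / 2)))) := by
    refine (Finset.sum_le_sum fun i hi => hexp (fun x => 1 - y x) y1' (fun x hx h => ?_) i
      (y4 i (Finset.mem_range.1 hi)).2).trans (by simp)
    have := y2 x hx h
    by_cases hux : u x
    · left; rw [this.1 hux]; ring
    · right; rw [this.2 hux]; ring
  have s3 : (N : ℝ) - (k + 2) / 2 ≤ ∑ x ∈ Finset.range N, θ x * y x +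
      ∑ x ∈ Finset.range N, θ x * (1 - y x) := by
    rw [← Finset.sum_add_distrib]
    have e : ∀ x, θ x * y x + θ x * (1 - y x) = 1 - (if x ∈ B then p else 0) := fun x => by
      simp only [hθ]; split_ifs <;> ring
    simp only [e, Finset.sum_sub_distrib, Finset.sum_ite_mem, Finset.sum_const, nsmul_eq_mul,
      Finset.card_range, mul_one]
    have h1 : ((Finset.range N ∩ B).card : ℝ) ≤ M :=
      le_trans (by exact_mod_cast Finset.card_le_card Finset.inter_subset_right) hBD
    have h2 : (M : ℝ) * p = (k + 2) / 2 := by rw [hp]; field_simp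
    have := mul_le_mul_of_nonneg_right h1 p0
    linarith
  have hN' : (N : ℝ) = 2 * n + k := by rw [hN]; push_cast; ring
  have e0 := Real.exp_pos (-((p + s) * (τ / 2)))
  have s4 : (k : ℝ) + 2 ≤ 4 * M * (t * Real.exp (-((p + s) * (τ / 2)))) := by linarith
  have s5 : 1 ≤ t ^ 2 * Real.exp (-((p + s) * (τ / 2))) := by
    have h1 := mul_le_mul_of_nonneg_right hMt
      (show 0 ≤ t * Real.exp (-((p + s) * (τ / 2))) by positivity)
    refine le_of_mul_le_mul_left (a := (k : ℝ) + 2) ?_ (by linarith)
    nlinarith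
  have s6 : (p + s) * (τ / 2) ≤ 2 * Real.log t := by
    have := Real.log_nonneg s5
    rw [Real.log_mul (by positivity) e0.ne', Real.log_exp, Real.log_pow] at this
    push_cast at this
    linarith
  have s7 : (p + s) * (τ / 2) * (16 * M) = 4 * ((k + 2 + τ) * τ) := by
    rw [hp, hs]; field_simp; ring
  have s8 := mul_le_mul_of_nonneg_right s6 (show (0 : ℝ) ≤ 16 * M by positivity)
  have s9 : t * (k + t) ≤ 4 * ((k + 2 + τ) * τ) := by
    rw [hτ]; nlinarith
  linarith

end Pool.Agent.DI
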