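import Pool.Agent.Lib.MP_d46fce_co.DI.St

/-!
Pull-back of the thick Tucker lemma on the torus to sets with few jumps.
-/

namespace Pool.Agent.DI

/-- the first index in `A` (if there is one) lies in `S` -/
def First {d : ℕ} (A S : Fin d → Prop) : Prop :=
  ∀ j, A j → (∀ j', j' < j → ¬ A j') → S j

theorem first_congr {d : ℕ} {A A' S S' : Fin d → Prop} (hA : ∀ j, A j ↔ A' j)
    (hS : ∀ j, A j → (S j ↔ S' j)) : First A S ↔ First A' S' := by
  constructor
  · intro h j hj hl
    have hj' := (hA j).2 hj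
    exact (hS j hj').1 (h j hj' (fun j' hlt ha => hl j' hlt ((hA j').1 ha)))
  · intro h j hj hl
    exact (hS j hj).2 (h j ((hA j).1 hj) (fun j' hlt ha => hl j' hlt ((hA j').2 ha)))

theorem first_not {d : ℕ} {A S : Fin d → Prop} (hne : ∃ j, A j) :
    First A (fun j => ¬ S j) ↔ ¬ First A S := by
  obtain ⟨j0, hj0, hmin⟩ := WellFounded.has_min (wellFounded_lt (α := Fin d)) {j | A j} hne
  have hl : ∀ j', j' < j0 → ¬ A j' := fun j' hlt ha => hmin j' ha hlt
  constructor
  · intro h h'
    exact h j0 hj0 hl (h' j0 hj0 hl)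
  · intro h j hj hlj hs
    apply h
    intro j1 hj1 hl1
    have e : j1 = j := by
      rcases lt_trichotomy j1 j with h1 | h1 | h1
      · exact absurd hj1 (hlj j1 h1)
      · exact h1
      · exact absurd hj (hl1 j h1)
    rw [e]
    exact hs

theorem val_succ {r : ℕ} (y : ZMod (4 * r + 4)) :
    (y + 1).val = (y.val + 1) % (4 * r + 4) := by
  rw [ZMod.val_add, ZMod.val_one_eq_one_mod]
  simp [Nat.add_mod]

theorem val_succ_cases {r : ℕ} (y : ZMod (4 * r + 4)) :
    ((y + 1).val = y.val + 1 ∧ y.val + 1 < 4 * r + 4) ∨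
      ((y + 1).val = 0 ∧ y.val + 1 = 4 * r + 4) := by
  have h := ZMod.val_lt y
  rw [val_succ]
  rcases Nat.lt_or_ge (y.val + 1) (4 * r + 4) with h1 | h1
  · left
    exact ⟨Nat.mod_eq_of_lt h1, h1⟩
  · right
    have e : y.val + 1 = 4 * r + 4 := by omega
    rw [e]
    exact ⟨Nat.mod_self _, rfl⟩

theorem val_neg_cases {r : ℕ} (y : ZMod (4 * r + 4)) :
    ((-y).val = 0 ∧ y.val = 0) ∨ ((-y).val + y.val = 4 * r + 4 ∧ 0 < y.val) := by
  by_cases h : y = 0
  · left
    subst h
    simp
  · right
    have h0 : y.val ≠ 0 := fun e => h ((ZMod.val_eq_zero y).1 e)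
    have hl := ZMod.val_lt y
    rw [ZMod.neg_val, if_neg h]
    omega

theorem ht_succ {r : ℕ} (y : ZMod (4 * r + 4)) :
    ht (y + 1) ≤ ht y + 1 ∧ ht y ≤ ht (y + 1) + 1 := by
  have := val_succ_cases y
  unfold ht ab
  omega

theorem half_succ {r : ℕ} (y : ZMod (4 * r + 4)) (h : 0 < ht y) (h' : 0 < ht (y + 1)) :
    y.val < 2 * r + 2 ↔ (y + 1).val < 2 * r + 2 := by
  have := val_succ_cases y
  unfold ht ab at h h'
  omega

theorem ht_neg {r : ℕ} (y : ZMod (4 * r + 4)) : ht (-y) = ht y := by
  have := val_neg_cases y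
  unfold ht ab
  omega

theorem half_neg {r : ℕ} (y : ZMod (4 * r + 4)) (h : 0 < ht y) :
    (-y).val < 2 * r + 2 ↔ ¬ y.val < 2 * r + 2 := by
  have := val_neg_cases y
  unfold ht ab at h
  omega

/-- the bit number `b` attached to a point of the torus -/
def Bit {d r : ℕ} (c : Tor d r) (b : ℕ) : Prop :=
  First (fun j => b < ht (c j)) (fun j => (c j).val < 2 * r + 2)

open Classical in
/-- the set attached to a point of the torus -/
noncomputable def pset {d r : ℕ} (N : ℕ) (c : Tor d r) : Finset ℕ :=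
  (Finset.range N).filter (fun b => Bit c b)

theorem mem_pset {d r : ℕ} (N : ℕ) (c : Tor d r) (b : ℕ) :
    b ∈ pset N c ↔ b < N ∧ Bit c b := by
  unfold pset
  simp only [Finset.mem_filter, Finset.mem_range]

theorem pset_sub {d r : ℕ} (N : ℕ) (c : Tor d r) : pset N c ⊆ Finset.range N := by
  intro b hb
  exact Finset.mem_range.2 ((mem_pset N c b).1 hb).1

theorem bit_step {d r : ℕ} (c : Tor d r) (j0 : Fin d) (b : ℕ)
    (hb : b ≠ min (ht (c j0)) (ht (c j0 + 1))) :
    Bit c b ↔ Bit (c + Pi.single j0 1 : Tor d r) b := by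
  have hs := ht_succ (c j0)
  have e0 : (c + Pi.single j0 1 : Tor d r) j0 = c j0 + 1 := by simp
  have e1 : ∀ j, j ≠ j0 → (c + Pi.single j0 1 : Tor d r) j = c j := by
    intro j hj
    simp [Pi.single_eq_of_ne hj]
  have hA : ∀ j, b < ht (c j) ↔ b < ht ((c + Pi.single j0 1 : Tor d r) j) := by
    intro j
    by_cases hj : j = j0
    · subst hj
      rw [e0]
      omega
    · rw [e1 j hj]
  apply first_congr hA
  intro j hj
  have hj' := (hA j).1 hj
  by_cases h : j = j0
  · subst h
    rw [e0] at hj' ⊢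
    exact half_succ _ (by omega) (by omega)
  · rw [e1 j h]

theorem bit_neg {d r : ℕ} (c : Tor d r) (b : ℕ) (h : ∃ j, b < ht (c j)) :
    Bit (-c) b ↔ ¬ Bit c b := by
  unfold Bit
  rw [← first_not h]
  symm
  apply first_congr
  · intro j
    rw [Pi.neg_apply, ht_neg]
  · intro j hj
    rw [Pi.neg_apply, half_neg _ (by omega)]

theorem bit_succ {d r : ℕ} (c : Tor d r) (b : ℕ) (h : ∀ j, ht (c j) ≠ b + 1) :
    Bit c b ↔ Bit c (b + 1) := by
  apply first_congr
  · intro j
    have := h j
    omega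
  · intro j _
    rfl

theorem jumps_pset {d r : ℕ} (N : ℕ) (c : Tor d r) : (jumps N (pset N c)).card ≤ d := by
  have hsub : jumps N (pset N c) ⊆ Finset.univ.image (fun j : Fin d => ht (c j) - 1) := by
    intro b hb
    unfold jumps at hb
    rw [Finset.mem_filter] at hb
    obtain ⟨_, h1, h2⟩ := hb
    by_contra hn
    apply h2
    have hne : ∀ j, ht (c j) ≠ b + 1 := by
      intro j e
      apply hn
      exact Finset.mem_image.2 ⟨j, Finset.mem_univ _, by omega⟩
    rw [mem_pset, mem_pset, bit_succ c b hne]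
    constructor
    · intro h
      exact ⟨h1, h.2⟩
    · intro h
      exact ⟨by omega, h.2⟩
  calc (jumps N (pset N c)).card ≤ _ := Finset.card_le_card hsub
    _ ≤ (Finset.univ : Finset (Fin d)).card := Finset.card_image_le
    _ = d := by simp

theorem pset_neg {d r : ℕ} (N : ℕ) (c : Tor d r) (h : ∃ j, N ≤ ht (c j)) :
    pset N (-c) = Finset.range N \ pset N c := by
  ext b
  rw [Finset.mem_sdiff, mem_pset, mem_pset, Finset.mem_range]
  obtain ⟨j, hj⟩ := h
  by_cases hb : b < N
  · rw [bit_neg c b ⟨j, by omega⟩]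
    simp [hb]
  · simp [hb]

theorem lip_of_one (f : Finset ℕ → ℕ)
    (hf : ∀ x P, f (insert x P) ≤ f P + 1 ∧ f P ≤ f (insert x P) + 1)
    (P P' : Finset ℕ) (x : ℕ) (h : ∀ b, b ≠ x → (b ∈ P ↔ b ∈ P')) :
    f P' ≤ f P + 1 ∧ f P ≤ f P' + 1 := by
  by_cases h1 : x ∈ P <;> by_cases h2 : x ∈ P'
  · have e : P = P' := by
      ext b
      by_cases hb : b = x
      · subst hb
        exact ⟨fun _ => h2, fun _ => h1⟩
      · exact h b hb
    rw [e]
    omega
  · have e : P = insert x P' := by
      ext b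
      rw [Finset.mem_insert]
      by_cases hb : b = x
      · subst hb
        exact ⟨fun _ => Or.inl rfl, fun _ => h1⟩
      · rw [h b hb]
        simp [hb]
    have := hf x P'
    rw [e]
    omega
  · have e : P' = insert x P := by
      ext b
      rw [Finset.mem_insert]
      by_cases hb : b = x
      · subst hb
        exact ⟨fun _ => Or.inl rfl, fun _ => h2⟩
      · rw [← h b hb]
        simp [hb]
    have := hf x P
    rw [e]
    omega
  · have e : P = P' := by
      ext b
      by_cases hb : b = x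
      · subst hb
        exact ⟨fun a => absurd a h1, fun a => absurd a h2⟩
      · exact h b hb
    rw [e]
    omega

theorem cube_of (H : ThickStmt) : CubeStmt := by
  intro N M t g hlip hsum hzero
  obtain ⟨r, hr⟩ := H M N t
  refine hr (fun k s c => if s then g k (pset N c) else g k (Finset.range N \ pset N c))
    ?_ ?_ ?_ ?_
  · intro k s c j
    have hb : ∀ b, b ≠ min (ht (c j)) (ht (c j + 1)) →
        (b ∈ pset N c ↔ b ∈ pset N (c + Pi.single j 1 : Tor M r)) := by
      intro b hb
      rw [mem_pset, mem_pset, bit_step c j b hb]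
    cases s
    · simp only [Bool.false_eq_true, if_false]
      apply lip_of_one (g k) (hlip k) _ _ (min (ht (c j)) (ht (c j + 1)))
      intro b h
      rw [Finset.mem_sdiff, Finset.mem_sdiff, hb b h]
    · simp only [if_true]
      exact lip_of_one (g k) (hlip k) _ _ _ hb
  · intro k c
    simp only [Bool.false_eq_true, if_false, if_true]
    exact hsum k _ (pset_sub N c)
  · intro c
    obtain ⟨i, hi, h⟩ := hzero _ (pset_sub N c) (jumps_pset N c)
    rcases h with h | h
    · exact ⟨⟨i, hi⟩, true, by simpa using h⟩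
    · exact ⟨⟨i, hi⟩, false, by simpa using h⟩
  · intro c hc k s
    cases s
    · simp only [Bool.false_eq_true, if_false, Bool.not_false, if_true]
      rw [pset_neg N c hc, Finset.sdiff_sdiff_eq_self (pset_sub N c)]
    · simp only [Bool.false_eq_true, if_false, Bool.not_true, if_true]
      rw [pset_neg N c hc]

end Pool.Agent.DI
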