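import Pool.Agent.Lib.MP_d46fce_co.DI.St2
import Pool.Agent.Lib.MP_d46fce_co.Geo

/-!
Assembly of the log-free estimates of `h_m(n; k, l)`.
-/

namespace Pool.Agent.DI

open Pool.Agent.Lib.MP_d46fce_co

theorem upper_fin2 (hU : KUStmt) : ∃ C : ℝ, 1 ≤ C ∧ ∀ (m n k l : ℕ), l < n → 1 ≤ m →
    m ≤ (2 * n + k).choose n → ∀ T Λ a : ℝ, T = (l + 1) * (k + l + 1) →
    Λ = (2 * n + k : ℝ) / n * Real.log (1 + m / ((2 * n + k : ℝ) / n)) →
    a = min (l * Real.log (1 + (k + l + 1) / n))
      (((k + l + 1 : ℝ) / (2 * n + k)) ^ 2 * Real.log m) →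
    (hm m n k l : ℝ) ≤ C * Real.exp (14400000000 * a) *
      min T (1 + Λ / Real.log (2 + n / (min (l + 1 : ℝ) (Real.sqrt (1 + Λ)) * (k + l + 1)))) := by
  obtain ⟨C, y₀, C0, hU⟩ := hU
  set D : ℝ := 2 * (|y₀| + 2) with hD
  have y₀0 := abs_nonneg y₀
  have e1 : 1 ≤ Real.exp 100 := Real.one_le_exp (by norm_num)
  have D1 : 1 ≤ D := by rw [hD]; linarith
  have D2 : 6000 ≤ 6000 * Real.exp 100 * D := by nlinarith
  refine ⟨C + 6000 * Real.exp 100 * D, by linarith, fun m n k l hl h1 h2 T Λ a hT hΛ ha => ?_⟩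
  have m1 : (1 : ℝ) ≤ m := by exact_mod_cast h1
  have n1 : (1 : ℝ) ≤ n := by exact_mod_cast (show 1 ≤ n by omega)
  have k0 : (0 : ℝ) ≤ k := by positivity
  have l0 : (0 : ℝ) ≤ l := by positivity
  have L0 : 0 ≤ Real.log (1 + m) := Real.log_nonneg (by linarith)
  have L1 := Real.log_nonneg m1
  have T1 : 1 ≤ T := by rw [hT]; nlinarith
  have Λ1 : Real.log (1 + m) ≤ Λ := hΛ ▸ log_le_flog (by linarith)
    (by rw [le_div_iff₀ (by linarith)]; linarith)
  have g0 : 0 ≤ Real.log (1 + (k + l + 1) / n) :=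
    Real.log_nonneg (by rw [le_add_iff_nonneg_right]; positivity)
  have a0 : 0 ≤ a := ha ▸ le_min (by positivity) (by positivity)
  have E1 : 1 ≤ Real.exp (14400000000 * a) := Real.one_le_exp (by linarith)
  have x0 : 0 ≤ n / T := by positivity
  have ℓ0 : Real.log 2 ≤ Real.log (2 + n / T) := Real.log_le_log (by norm_num) (by linarith)
  have ℓ1 := Real.log_two_gt_d9
  have Λ0 : 0 ≤ Λ / Real.log (2 + n / T) := div_nonneg (by linarith) (by linarith)
  have main := upper_main hl h1 h2 T Λ a hT hΛ ha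
  rw [Real.exp_add, ← mul_assoc] at main
  generalize Real.exp (14400000000 * a) = E at main E1
  have hE : 6000 * Real.exp 100 * E ≤ (C + 6000 * Real.exp 100 * D) * E :=
    mul_le_mul_of_nonneg_right (by nlinarith) (by linarith)
  have hE0 : 0 ≤ 6000 * Real.exp 100 * E := by positivity
  rcases le_or_gt (l + 1 : ℝ) (Real.sqrt (1 + Λ)) with hc | hc
  · rw [min_eq_left hc, ← hT]
    exact main.trans (mul_le_mul_of_nonneg_right hE (le_min (by linarith) (by linarith)))
  rw [min_eq_right hc.le, mul_comm (Real.sqrt (1 + Λ))]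
  set y : ℝ := n / ((k + l + 1) * Real.sqrt (1 + Λ)) with hy
  have y0 : 0 ≤ y := div_nonneg (by linarith) (mul_nonneg (by linarith) (Real.sqrt_nonneg _))
  have g4 : 0 < Real.log (2 + y) := Real.log_pos (by linarith)
  have g5 : 0 ≤ Λ / Real.log (2 + y) := div_nonneg (by linarith) g4.le
  rcases min_choice T (1 + Λ / Real.log (2 + y)) with h | h <;> rw [h]
  · exact main.trans (mul_le_mul hE (min_le_left _ _)
      (le_min (by linarith) (by linarith)) (by linarith))
  rcases le_total y₀ y with hy1 | hy1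
  · refine (hU m n k l Λ y hl h1 h2 Λ1 hy hy1).trans
      (mul_le_mul_of_nonneg_right ?_ (by linarith))
    nlinarith
  · have c1 := Real.log_le_sub_one_of_pos (show 0 < 2 + y by linarith)
    have c0 : Real.log (2 + y) ≤ |y₀| + 2 := by linarith [le_abs_self y₀]
    have c2 : Λ / Real.log (2 + n / T) ≤ D * (Λ / Real.log (2 + y)) := by
      rw [← mul_div_assoc, div_le_div_iff₀ (by linarith) g4]
      have Λ2 : 0 ≤ Λ := by linarith
      calc Λ * Real.log (2 + y) ≤ Λ * (|y₀| + 2) := mul_le_mul_of_nonneg_left c0 Λ2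
        _ = D * Λ * (1 / 2) := by rw [hD]; ring
        _ ≤ _ := mul_le_mul_of_nonneg_left (by linarith) (mul_nonneg (by linarith) Λ2)
    have c3 : min T (1 + Λ / Real.log (2 + n / T)) ≤ D * (1 + Λ / Real.log (2 + y)) :=
      (min_le_right _ _).trans (by linarith)
    refine main.trans ((mul_le_mul_of_nonneg_left c3 hE0).trans ?_)
    rw [← mul_assoc]
    refine mul_le_mul_of_nonneg_right ?_ (by linarith)
    nlinarith

theorem final_of (hL : KLowStmt) (hU : KUStmt) :
    ∃ C : ℝ, 0 < C ∧ ∀ m n k l : ℕ, l < n → 1 ≤ m → m ≤ (2 * n + k).choose n →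
    ∀ N u T L P : ℝ, N = 2 * n + k → u = k + l + 1 → T = (l + 1) * u →
      L = N / n * Real.log (1 + m / (N / n)) →
      P = min ((1 + u / n) ^ l) ((m : ℝ) ^ ((u / N) ^ 2)) →
      max (max (min (T / min (l + 1 : ℝ) (Real.log (2 * T))) (1 + L / Real.log (2 + n / u)))
            (min ((l + 1 : ℝ) ^ 2) (1 + Real.log m / Real.log (2 + N /
              (min (l + 1 : ℝ) (Real.sqrt (1 + Real.log m)) * (l + 1))))))
          (max ((m : ℝ) ^ (T / (C * n * N))) (P ^ (1 / (C * Real.log (2 * N) ^ 5)))) / C ≤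
        hm m n k l ∧
      (hm m n k l : ℝ) ≤
        C * P ^ C * min T (1 + L / Real.log (2 + n / (min (l + 1 : ℝ) (Real.sqrt (1 + L)) * u))) := by
  obtain ⟨C₁, C10, hL⟩ := hL
  obtain ⟨C₂, C21, hU⟩ := upper_fin2 hU
  set C : ℝ := 14400000000 + C₁ + C₂ with hC
  have C1 : 14400000000 ≤ C := by rw [hC]; linarith
  refine ⟨C, by linarith, fun m n k l hl h1 h2 N u T L P hN hu hT hΛ hP => ?_⟩
  subst hN hu hP
  have hone : (1 : ℝ) ≤ hm m n k l := by exact_mod_cast one_le_hm h1 h2
  have m1 : (1 : ℝ) ≤ m := by exact_mod_cast h1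
  have n1 : (1 : ℝ) ≤ n := by exact_mod_cast (show 1 ≤ n by omega)
  have L1 := Real.log_nonneg m1
  have T0 : 0 ≤ T := by rw [hT]; positivity
  have p1 : (0 : ℝ) < 1 + (k + l + 1) / n := by positivity
  have g0 : 0 ≤ Real.log (1 + (k + l + 1) / n) :=
    Real.log_nonneg (by rw [le_add_iff_nonneg_right]; positivity)
  have e2 : min ((1 + (k + l + 1 : ℝ) / n) ^ l) ((m : ℝ) ^ (((k + l + 1 : ℝ) / (2 * n + k)) ^ 2)) =
      Real.exp (min (l * Real.log (1 + (k + l + 1) / n))
        (((k + l + 1 : ℝ) / (2 * n + k)) ^ 2 * Real.log m)) := by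
    rw [Real.exp_monotone.map_min, Real.exp_nat_mul, Real.exp_log p1,
      Real.rpow_def_of_pos (by linarith), mul_comm (Real.log m)]
  have a0 : 0 ≤ min (l * Real.log (1 + (k + l + 1) / n))
      (((k + l + 1 : ℝ) / (2 * n + k)) ^ 2 * Real.log m) := le_min (by positivity) (by positivity)
  constructor
  · rw [div_le_iff₀' (by linarith)]
    refine max_le (max_le ((lower_main hl h1 h2 T L hT hΛ).trans (by gcongr; linarith)) ?_)
      (max_le ?_ ?_)
    · rw [mul_comm (min _ _)]
      exact (hL m n k l hl h1 h2).trans (by gcongr; linarith)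
    · refine le_trans ?_ ((pow_lower hl h1 h2).trans (by gcongr; linarith))
      rw [Real.rpow_def_of_pos (by linarith), ← hT, mul_comm T, mul_div_assoc]
      refine Real.exp_le_exp.2 (mul_le_mul_of_nonneg_left ?_ L1)
      exact div_le_div_of_nonneg_left T0 (by positivity) (by gcongr; linarith)
    · refine le_trans ?_ ((geo_final hl h1 h2).trans (by gcongr; linarith))
      rw [e2, ← Real.exp_mul, mul_one_div]
      have Λ0 : 0 < Real.log (2 * (2 * n + k)) :=
        Real.log_pos (by linarith [show (0 : ℝ) ≤ k by positivity])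
      exact Real.exp_le_exp.2 (div_le_div_of_nonneg_left a0 (by positivity) (by gcongr; linarith))
  · refine (hU m n k l hl h1 h2 T L _ hT hΛ rfl).trans ?_
    rw [e2, ← Real.exp_mul]
    generalize min (l * Real.log (1 + (k + l + 1) / n))
        (((k + l + 1 : ℝ) / (2 * n + k)) ^ 2 * Real.log m) = a at a0
    have L0 : 0 ≤ L := by
      rw [hΛ]
      exact mul_nonneg (by positivity)
        (Real.log_nonneg (by rw [le_add_iff_nonneg_right]; positivity))
    have M0 : 0 ≤ min (l + 1 : ℝ) (Real.sqrt (1 + L)) * (k + l + 1) :=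
      mul_nonneg (le_min (by positivity) (Real.sqrt_nonneg _)) (by positivity)
    have l0 : 0 < Real.log (2 + n / (min (l + 1 : ℝ) (Real.sqrt (1 + L)) * (k + l + 1))) :=
      Real.log_pos (by linarith [div_nonneg (show (0 : ℝ) ≤ n by linarith) M0])
    refine mul_le_mul_of_nonneg_right ?_ (le_min T0 (by positivity))
    exact mul_le_mul (by rw [hC]; linarith) (Real.exp_le_exp.2 (by nlinarith))
      (Real.exp_pos _).le (by linarith)

end Pool.Agent.DI
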