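import Pool.Agent.Lib.MP_d46fce_co.All

/-!
Statements of the alteration bound `T / log (2 l + 2)`.
-/

namespace Pool.Agent.DI

open Pool.Agent.Lib.MP_d46fce_co

/-- discrete Borsuk-Ulam, thinning and alteration -/
def AltStmt : Prop :=
  ∀ (n k M : ℕ) (t : ℝ) (g : ℕ → Finset ℕ → ℝ), 1 ≤ n → 1 ≤ M → 1 ≤ t →
    (k : ℝ) + 2 + t / 2 ≤ 2 * M → 4 * (M : ℝ) ≤ (k + 2) * t →
    (∀ i, Lip (g i)) → (∀ i P Q, Disjoint P Q → t ≤ g i P + g i Q) →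
    (∀ i P, g i P ≤ 0 → ∃ K : Finset ℕ,
      (K.card : ℝ) ≤ g i (Finset.range (2 * n + k) \ P) ∧ 0 < g i (P \ K)) →
    (∀ P ⊆ Finset.range (2 * n + k), n ≤ P.card → ∀ B : Finset ℕ, B.card ≤ 3 * M →
      Few (2 * n + k) B P → ∃ i < M, g i P ≤ 0) →
    t * (k + t) ≤ 32 * M * Real.log t

/-- the alteration bound for generalized Kneser graphs -/
def KAStmt : Prop :=
  ∀ m n k l M : ℕ, l < n → 1 ≤ M → (k : ℝ) + 2 + (l + 1) / 2 ≤ 2 * M →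
    4 * M ≤ (k + 2) * (l + 1) → 32 * M * Real.log (l + 1) < ((l : ℝ) + 1) * (k + (l + 1)) →
    (2 * (3 * (((2 * n + k : ℕ) : ℝ) / (6 * M : ℕ) + 1)) ^ (6 * M) ≤ m ∨
      m = (2 * n + k).choose n) → m ≤ (2 * n + k).choose n → M + 1 ≤ hm m n k l

/-- its closed form -/
def KCStmt : Prop :=
  ∃ C : ℝ, 0 < C ∧ ∀ (m n k l : ℕ) (x : ℝ), l < n → 1 ≤ m → m ≤ (2 * n + k).choose n →
    x ≤ (l + 1) * (k + l + 1) / Real.log (2 * (l + 1)) →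
    (x ≤ 1 + Real.log m / Real.log (2 + n / (k + l + 1)) ∨ m = (2 * n + k).choose n) →
    x ≤ C * hm m n k l

/-- joins of generalized Kneser graphs on disjoint ground sets -/
def KJStmt : Prop :=
  ∀ m m' n k k' l j : ℕ, 1 ≤ n → j * (2 * n + k') ≤ 2 * n + k → j * m' ≤ m →
    m ≤ (2 * n + k).choose n → m' ≤ (2 * n + k').choose n → j * hm m' n k' l ≤ hm m n k l

/-- the final form -/
def KMStmt : Prop :=
  ∃ C : ℝ, 0 < C ∧ ∀ (m n k l : ℕ) (T Λ : ℝ), l < n → 1 ≤ m → m ≤ (2 * n + k).choose n →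
    T = (l + 1) * (k + l + 1) →
    Λ = (2 * n + k : ℝ) / n * Real.log (1 + m / ((2 * n + k : ℝ) / n)) →
    min (T / Real.log (2 * (l + 1))) (1 + Λ / Real.log (2 + n / (k + l + 1))) ≤ C * hm m n k l

end Pool.Agent.DI
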