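import Pool.Agent.Lib.MP_d46fce_co.DI.Fin
import Pool.Agent.Lib.MP_d46fce_co.DI.St3

/-!
Assembly of the estimates of `h_m(n; k, l)`, with the alteration bound.
-/

namespace Pool.Agent.DI

open Pool.Agent.Lib.MP_d46fce_co

theorem final2_of (hM : KMStmt) (hL : KLowStmt) (hU : KUStmt) :
    ∃ C : ℝ, 0 < C ∧ ∀ m n k l : ℕ, l < n → 1 ≤ m → m ≤ (2 * n + k).choose n →
    ∀ N u T L P : ℝ, N = 2 * n + k → u = k + l + 1 → T = (l + 1) * u →
      L = N / n * Real.log (1 + m / (N / n)) →
      P = min ((1 + u / n) ^ l) ((m : ℝ) ^ ((u / N) ^ 2)) →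
      max (max (min (T / Real.log (2 * (l + 1))) (1 + L / Real.log (2 + n / u)))
            (min ((l + 1 : ℝ) ^ 2) (1 + Real.log m / Real.log (2 + N /
              (min (l + 1 : ℝ) (Real.sqrt (1 + Real.log m)) * (l + 1))))))
          (max ((m : ℝ) ^ (T / (C * n * N))) (P ^ (1 / (C * Real.log (2 * N) ^ 5)))) / C ≤
        hm m n k l ∧
      (hm m n k l : ℝ) ≤
        C * P ^ C * min T (1 + L / Real.log (2 + n / (min (l + 1 : ℝ) (Real.sqrt (1 + L)) * u))) := by
  obtain ⟨C₀, C00, hM⟩ := hM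
  obtain ⟨C₁, C10, hL⟩ := hL
  obtain ⟨C₂, C21, hU⟩ := upper_fin2 hU
  set C : ℝ := 14400000000 + C₀ + C₁ + C₂ with hC
  have C1 : 14400000000 ≤ C := by rw [hC]; linarith
  refine ⟨C, by linarith, fun m n k l hl h1 h2 N u T L P hN hu hT hΛ hP => ?_⟩
  subst hN hu hP
  have hone : (1 : ℝ) ≤ hm m n k l := by exact_mod_cast one_le_hm h1 h2
  have m1 : (1 : ℝ) ≤ m := by exact_mod_cast h1
  have n1 : (1 : ℝ) ≤ n := by exact_mod_cast (show 1 ≤ n by omega)
  have L1 := Real.log_nonneg m1
  have T0 : 0 ≤ T := by rw [hT]; positivity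
  have p1 : (0 : ℝ) < 1 + (k + l + 1) / n := by positivity
  have g0 : 0 ≤ Real.log (1 + (k + l + 1) / n) :=
    Real.log_nonneg (by rw [le_add_iff_nonneg_right]; positivity)
  have e2 : min ((1 + (k + l + 1 : ℝ) / n) ^ l) ((m : ℝ) ^ (((k + l + 1 : ℝ) / (2 * n + k)) ^ 2)) =
      Real.exp (min (l * Real.log (1 + (k + l + 1) / n))
        (((k + l + 1 : ℝ) / (2 * n + k)) ^ 2 * Real.log m)) := by
    rw [Real.exp_monotone.map_min, Real.exp_nat_mul, Real.exp_log p1,
      Real.rpow_def_of_pos (by linarith), mul_comm (Real.log m)]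
  have a0 : 0 ≤ min (l * Real.log (1 + (k + l + 1) / n))
      (((k + l + 1 : ℝ) / (2 * n + k)) ^ 2 * Real.log m) := le_min (by positivity) (by positivity)
  constructor
  · rw [div_le_iff₀' (by linarith)]
    refine max_le (max_le ((hM m n k l T L hl h1 h2 hT hΛ).trans (by gcongr; linarith)) ?_)
      (max_le ?_ ?_)
    · rw [mul_comm (min _ _)]
      exact (hL m n k l hl h1 h2).trans (by gcongr; linarith)
    · refine le_trans ?_ ((pow_lower hl h1 h2).trans (by gcongr; linarith))
      rw [Real.rpow_def_of_pos (by linarith), ← hT, mul_comm T, mul_div_assoc]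
      refine Real.exp_le_exp.2 (mul_le_mul_of_nonneg_left ?_ L1)
      exact div_le_div_of_nonneg_left T0 (by positivity) (by gcongr; linarith)
    · refine le_trans ?_ ((geo_final hl h1 h2).trans (by gcongr; linarith))
      rw [e2, ← Real.exp_mul, mul_one_div]
      have Λ0 : 0 < Real.log (2 * (2 * n + k)) :=
        Real.log_pos (by linarith [show (0 : ℝ) ≤ k by positivity])
      exact Real.exp_le_exp.2 (div_le_div_of_nonneg_left a0 (by positivity) (by gcongr; linarith))
  · refine (hU m n k l hl h1 h2 T L _ hT hΛ rfl).trans ?_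
    rw [e2, ← Real.exp_mul]
    generalize min (l * Real.log (1 + (k + l + 1) / n))
        (((k + l + 1 : ℝ) / (2 * n + k)) ^ 2 * Real.log m) = a at a0
    have L0 : 0 ≤ L := by
      rw [hΛ]
      exact mul_nonneg (by positivity)
        (Real.log_nonneg (by rw [le_add_iff_nonneg_right]; positivity))
    have M0 : 0 ≤ min (l + 1 : ℝ) (Real.sqrt (1 + L)) * (k + l + 1) :=
      mul_nonneg (le_min (by positivity) (Real.sqrt_nonneg _)) (by positivity)
    have l0 : 0 < Real.log (2 + n / (min (l + 1 : ℝ) (Real.sqrt (1 + L)) * (k + l + 1))) :=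
      Real.log_pos (by linarith [div_nonneg (show (0 : ℝ) ≤ n by linarith) M0])
    refine mul_le_mul_of_nonneg_right ?_ (le_min T0 (by positivity))
    exact mul_le_mul (by rw [hC]; linarith) (Real.exp_le_exp.2 (by nlinarith))
      (Real.exp_pos _).le (by linarith)

end Pool.Agent.DI
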