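import Mathlib

/-!
Statements of the four blocks of the proof of the non-additive Spencer theorem by a lattice Dirac
operator.
-/

namespace Pool.Agent.DI

open Matrix
open scoped Matrix.Norms.L2Operator

/-- the gap estimate for `A = ∑ T_m w_m` -/
def GapStmt : Prop :=
  ∀ (V ι : Type) [Fintype V] [DecidableEq V] [Fintype ι] [DecidableEq ι]
    (T : ι → Bool → Matrix V V ℝ) (b : V → ℕ) (g : ι → Bool → V → ℕ) (t : ℕ),
    (∀ k s, (T k s)ᵀ = T k s) → (∀ k s, T k s * T k s = 1) →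
    (∀ k k' s s', k ≠ k' → T k s * T k' s' = -(T k' s' * T k s)) →
    (∀ k s c c', T k s c c' ≠ 0 → (b c + b c') % 2 = 1 ∧
      ∀ k' s', g k' s' c ≤ g k' s' c' + 1 ∧ g k' s' c' ≤ g k' s' c + 1) →
    (∀ k c, t ≤ g k true c + g k false c) → (∀ c, ∃ k s, g k s c = 0) →
    250000 * Fintype.card ι ≤ t ^ 2 → 0 < t →
    ∃ v : V → ℕ, (∀ c c', (∀ k s, g k s c' = g k (!s) c) → v c' = v c) ∧
      ∀ A : Matrix V V ℝ,
        A = ∑ k, ∑ s, T k s * diagonal (fun c => 40 / ((v c : ℝ) + g k s c)) →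
        ‖1 - A * A‖ ≤ 1 / 2 ∧ ‖A‖ ≤ 2

/-- the parity obstruction -/
def ParStmt : Prop :=
  ∀ (V : Type) [Fintype V] [DecidableEq V] [AddCommGroup V] (ρ : V → ℕ) (Γ : V → ℝ)
    (A : Matrix V V ℝ) (r n : ℕ),
    (∀ c, ρ (-c) = ρ c) → (∀ a b, ρ (a + b) ≤ ρ a + ρ b) → ρ 0 = 0 →
    (∀ c, Γ c = 1 ∨ Γ c = -1) → (∀ c, Γ (-c) = Γ c) → Γ 0 = 1 →
    (∀ c c', A c c' ≠ 0 → Γ c' = -Γ c ∧ ρ (c - c') ≤ 1) →
    (∀ c c', r ≤ ρ c' + (2 * n + 2) → ρ c' ≤ r + (2 * n + 2) → A (-c) (-c') = A c c') →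
    (∀ c, r ≤ ρ c + (2 * n + 2) → ρ c ≤ r + (2 * n + 2) → 2 * n + 2 < ρ (c + c)) →
    (∀ c, ρ c ≤ r → c + c = 0 → c = 0) →
    ‖1 - A * A‖ ≤ 1 / 2 → ‖A‖ ≤ 2 → 200 * (Fintype.card V : ℝ) ^ 2 < 2 ^ n → False

instance (r : ℕ) : NeZero (4 * r + 4) := ⟨by omega⟩

/-- the discrete torus -/
abbrev Tor (d r : ℕ) : Type := Fin d → ZMod (4 * r + 4)

/-- distance to `0` on the circle -/
def ab {r : ℕ} (y : ZMod (4 * r + 4)) : ℕ := min y.val (4 * r + 4 - y.val)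

/-- distance to the two fixed points of `y ↦ -y` -/
def ht {r : ℕ} (y : ZMod (4 * r + 4)) : ℕ := min (ab y) (2 * r + 2 - ab y)

/-- thick Tucker lemma on the torus -/
def ThickStmt : Prop :=
  ∀ d N t : ℕ, ∃ r : ℕ, ∀ g : Fin d → Bool → Tor d r → ℕ,
    (∀ k s c j, g k s (c + Pi.single j 1) ≤ g k s c + 1 ∧
      g k s c ≤ g k s (c + Pi.single j 1) + 1) →
    (∀ k c, t ≤ g k true c + g k false c) → (∀ c, ∃ k s, g k s c = 0) →
    (∀ c : Tor d r, (∃ j, N ≤ ht (c j)) → ∀ k s, g k s (-c) = g k (!s) c) →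
    t ^ 2 ≤ 250000 * d

/-- the places where `P` changes along `0, 1, …, N - 1` -/
def jumps (N : ℕ) (P : Finset ℕ) : Finset ℕ :=
  (Finset.range N).filter (fun j => j + 1 < N ∧ ¬ (j ∈ P ↔ j + 1 ∈ P))

/-- the non-additive Spencer theorem, for sets with few jumps -/
def CubeStmt : Prop :=
  ∀ (N M t : ℕ) (g : ℕ → Finset ℕ → ℕ),
    (∀ i x P, g i (insert x P) ≤ g i P + 1 ∧ g i P ≤ g i (insert x P) + 1) →
    (∀ i, ∀ P ⊆ Finset.range N, t ≤ g i P + g i (Finset.range N \ P)) →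
    (∀ P ⊆ Finset.range N, (jumps N P).card ≤ M →
      ∃ i < M, g i P = 0 ∨ g i (Finset.range N \ P) = 0) →
    t ^ 2 ≤ 250000 * M

end Pool.Agent.DI
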