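import Pool.Agent.Lib.MP_d46fce_co.DI.Nrm
import Pool.Agent.Lib.MP_d46fce_co.DI.St

/-!
The gap estimate for the lattice Dirac operator.
-/

namespace Pool.Agent.DI

open Matrix
open scoped Matrix.Norms.L2Operator

variable {V : Type} [Fintype V] [DecidableEq V]

theorem com_inv (G : V → ℝ) (hG : ∀ c, G c ≠ 0) (X : Matrix V V ℝ) :
    diagonal (fun c => 40 / G c) * X = X * diagonal (fun c => 40 / G c) -
      (1 / 40 : ℝ) • (diagonal (fun c => 40 / G c) * com G X * diagonal (fun c => 40 / G c)) := by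
  ext c c'
  simp only [Matrix.sub_apply, Matrix.smul_apply, diagonal_mul, mul_diagonal, com_apply,
    smul_eq_mul]
  have := hG c
  have := hG c'
  field_simp
  ring

theorem sum_anti {ι : Type} [Fintype ι] [DecidableEq ι] (H : ι → ι → Matrix V V ℝ)
    (h : ∀ k k', k ≠ k' → H k k' + H k' k = 0) : ∑ k, ∑ k', H k k' = ∑ k, H k k := by
  have h1 : ∑ k, ∑ k', H k k' + ∑ k, ∑ k', H k k' = ∑ k, H k k + ∑ k, H k k := by
    nth_rewrite 2 [Finset.sum_comm]
    rw [← Finset.sum_add_distrib, ← Finset.sum_add_distrib]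
    refine Finset.sum_congr rfl fun k _ => ?_
    rw [← Finset.sum_add_distrib, Finset.sum_eq_single k (fun k' _ hk => h k k' hk.symm)
      (fun hk => absurd (Finset.mem_univ k) hk)]
  ext c c'
  have := congrFun (congrFun h1 c) c'
  simp only [Matrix.add_apply] at this
  linarith

theorem gap_core {ι : Type} [Fintype ι] [DecidableEq ι] (T : ι → Bool → Matrix V V ℝ)
    (G : ι → Bool → V → ℝ) (t : ℝ) (ht0 : 0 < t)
    (Tsym : ∀ k s, (T k s)ᵀ = T k s) (Tsq : ∀ k s, T k s * T k s = 1)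
    (Tanti : ∀ k k' s s', k ≠ k' → T k s * T k' s' = -(T k' s' * T k s))
    (hG : ∀ k s c, 40 ≤ G k s c) (hsum : ∀ k c, t ≤ G k true c + G k false c)
    (hS1 : ∀ c, ∑ k, ∑ s, (40 / G k s c) ^ 2 ≤ 1)
    (hS2 : ∀ c, (39 / 40 : ℝ) ^ 2 ≤ ∑ k, ∑ s, (40 / G k s c) ^ 2)
    (ht : 250000 * (Fintype.card ι : ℝ) ≤ t ^ 2) (A : Matrix V V ℝ)
    (hA : A = ∑ k, ∑ s, T k s * diagonal (fun c => 40 / G k s c))
    (cT : ∀ k s, ‖com (G k s) (T k s)‖ ≤ 2 * ‖T k s‖) (cA : ∀ k s, ‖com (G k s) A‖ ≤ 2 * ‖A‖) :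
    ‖1 - A * A‖ ≤ 1 / 2 ∧ ‖A‖ ≤ 2 := by
  set w : ι → Bool → V → ℝ := fun k s c => 40 / G k s c with hw
  set D : ι → Bool → Matrix V V ℝ := fun k s => diagonal (w k s) with hD
  have G0 : ∀ k s c, 0 < G k s c := fun k s c => by linarith [hG k s c]
  have w1 : ∀ k s c, |w k s c| ≤ 1 := fun k s c => by
    rw [abs_of_pos (div_pos (by norm_num) (G0 k s c)), div_le_one (G0 k s c)]
    exact hG k s c
  have D1 : ∀ k s, ‖D k s‖ ≤ 1 := fun k s => dg_le _ 1 zero_le_one (w1 k s)
  have T1 : ∀ k s, ‖T k s‖ ≤ 1 := fun k s => by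
    have h := norm_tr (T k s)
    rw [Tsym, Tsq] at h
    have := norm_one_le (V := V)
    nlinarith [norm_nonneg (T k s)]
  have hc : ∀ k s X, D k s * X = X * D k s - (1 / 40 : ℝ) • (D k s * com (G k s) X * D k s) :=
    fun k s X => com_inv (G k s) (fun c => (G0 k s c).ne') X
  have hS : ∀ c, ∑ m : ι × Bool, w m.1 m.2 c ^ 2 ≤ 1 ^ 2 := fun c => by
    rw [Fintype.sum_prod_type, one_pow]; exact hS1 c
  have hA' : A = ∑ m : ι × Bool, T m.1 m.2 * D m.1 m.2 := by
    rw [Fintype.sum_prod_type]; exact hA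
  -- the three error terms
  set K : ι × Bool → Matrix V V ℝ := fun m =>
    T m.1 m.2 + (1 / 40 : ℝ) • (com (G m.1 m.2) (T m.1 m.2) * D m.1 m.2) with hK
  have K1 : ∀ m, ‖K m‖ ≤ 21 / 20 := fun m => by
    have h1 := norm_add_le (T m.1 m.2) ((1 / 40 : ℝ) • (com (G m.1 m.2) (T m.1 m.2) * D m.1 m.2))
    rw [norm_smul, Real.norm_eq_abs, abs_of_pos (by norm_num : (0 : ℝ) < 1 / 40)] at h1
    have h2 := norm_mul_le (com (G m.1 m.2) (T m.1 m.2)) (D m.1 m.2)
    have h3 := cT m.1 m.2
    have h4 := T1 m.1 m.2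
    have h5 := mul_le_mul_of_nonneg_left (D1 m.1 m.2) (norm_nonneg (com (G m.1 m.2) (T m.1 m.2)))
    simp only [hK]
    linarith
  have TD : ∀ m : ι × Bool, T m.1 m.2 * D m.1 m.2 = D m.1 m.2 * K m := fun m => by
    simp only [hK]
    rw [Matrix.mul_add, hc m.1 m.2 (T m.1 m.2), Matrix.mul_smul, Matrix.mul_assoc]
    abel
  set R : Matrix V V ℝ := ∑ m : ι × Bool,
    diagonal (w m.1 m.2) * (K m * com (G m.1 m.2) A) * diagonal (w m.1 m.2) with hR
  have nR : ‖R‖ ≤ 1 * (21 / 20 * (2 * ‖A‖)) * 1 :=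
    cs _ _ _ 1 1 _ one_pos zero_le_one (by positivity) hS hS fun m =>
      (norm_mul_le _ _).trans (mul_le_mul (K1 m) (cA m.1 m.2) (norm_nonneg _) (by norm_num))
  set Δ : Matrix V V ℝ := ∑ m : ι × Bool,
    diagonal (w m.1 m.2) * com (G m.1 m.2) (T m.1 m.2) * diagonal (w m.1 m.2) with hΔ
  have nΔ : ‖Δ‖ ≤ 1 * 2 * 1 :=
    cs _ _ _ 1 1 _ one_pos zero_le_one (by norm_num) hS hS fun m => by
      linarith [cT m.1 m.2, T1 m.1 m.2]
  set z : ι → V → ℝ := fun k c => 40 / (G k true c + G k false c) with hz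
  set St : Matrix V V ℝ := ∑ m : ι × Bool, diagonal (fun _ => (1 : ℝ)) *
    ((T m.1 true * T m.1 false + T m.1 false * T m.1 true) * diagonal (z m.1)) *
      diagonal (w m.1 m.2) with hSt
  have nSt : ‖St‖ ≤ t / 320 * (2 * (40 / t)) * 1 := by
    refine cs (fun _ _ => (1 : ℝ)) _ _ (t / 320) 1 _ (by positivity) zero_le_one (by positivity)
      (fun c => ?_) hS fun m => ?_
    · simp only [one_pow, Finset.sum_const, Finset.card_univ, Fintype.card_prod,
        Fintype.card_bool, nsmul_eq_mul, mul_one]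
      push_cast
      have : (0 : ℝ) ≤ Fintype.card ι := by positivity
      nlinarith
    · have h1 := norm_add_le (T m.1 true * T m.1 false) (T m.1 false * T m.1 true)
      have h2 := (norm_mul_le (T m.1 true) (T m.1 false)).trans
        (mul_le_mul (T1 _ _) (T1 _ _) (norm_nonneg _) zero_le_one)
      have h3 := (norm_mul_le (T m.1 false) (T m.1 true)).trans
        (mul_le_mul (T1 _ _) (T1 _ _) (norm_nonneg _) zero_le_one)
      refine (norm_mul_le _ _).trans (mul_le_mul (by linarith) ?_ (norm_nonneg _) (by norm_num))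
      refine dg_le _ _ (by positivity) fun c => ?_
      have h4 : 0 < G m.1 true c + G m.1 false c := add_pos (G0 _ _ _) (G0 _ _ _)
      rw [abs_of_pos (div_pos (by norm_num) h4)]
      exact div_le_div_of_nonneg_left (by norm_num) ht0 (hsum _ _)
  have nSt' : ‖St‖ ≤ 1 / 4 := nSt.trans (le_of_eq (by field_simp; norm_num))
  set S : Matrix V V ℝ := diagonal (fun c => ∑ k, ∑ s, w k s c ^ 2) with hSd
  have nS : ‖S‖ ≤ 1 := dg_le _ 1 zero_le_one fun c => by
    rw [abs_of_nonneg (Finset.sum_nonneg fun _ _ => Finset.sum_nonneg fun _ _ => sq_nonneg _)]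
    exact hS1 c
  have nS' : ‖1 - S‖ ≤ 1 / 20 := by
    rw [hSd, ← diagonal_one, diagonal_sub]
    refine dg_le _ _ (by norm_num) fun c => ?_
    have h1 := hS1 c
    have h2 := hS2 c
    rw [abs_le]
    constructor <;> simp only [hw] <;> linarith
  have eT : Aᵀ = A - (1 / 40 : ℝ) • Δ := by
    rw [hΔ, Finset.smul_sum]
    nth_rewrite 1 [hA']
    nth_rewrite 1 [hA']
    rw [transpose_sum, ← Finset.sum_sub_distrib]
    refine Finset.sum_congr rfl fun m _ => ?_
    rw [transpose_mul, Tsym, ← hc m.1 m.2 (T m.1 m.2)]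
    simp only [hD, diagonal_transpose]
  have DD : ∀ k s k' s', D k s * D k' s' = D k' s' * D k s := fun k s k' s' => by
    simp only [hD, diagonal_mul_diagonal, mul_comm]
  have e1 : ∑ m : ι × Bool, T m.1 m.2 * A * D m.1 m.2 = S + St := by
    have h1 : ∑ m : ι × Bool, T m.1 m.2 * A * D m.1 m.2 =
        ∑ k, ∑ k', ∑ s, ∑ s', T k s * T k' s' * (D k' s' * D k s) := by
      rw [Fintype.sum_prod_type]
      refine Finset.sum_congr rfl fun k _ => ?_
      rw [Finset.sum_comm]
      refine Finset.sum_congr rfl fun s _ => ?_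
      rw [hA, Finset.mul_sum, Finset.sum_mul]
      refine Finset.sum_congr rfl fun k' _ => ?_
      rw [Finset.mul_sum, Finset.sum_mul]
      refine Finset.sum_congr rfl fun s' _ => ?_
      simp only [hD, hw, Matrix.mul_assoc]
    rw [h1, sum_anti]
    · have h2 : S = ∑ k, ∑ s, D k s * D k s := by
        ext c c'
        simp only [hSd, hD, diagonal_mul_diagonal, Matrix.sum_apply, diagonal_apply]
        split_ifs
        · simp only [sq]
        · simp
      rw [h2, hSt, Fintype.sum_prod_type, ← Finset.sum_add_distrib]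
      refine Finset.sum_congr rfl fun k _ => ?_
      have h3 : diagonal (z k) * diagonal (w k true) + diagonal (z k) * diagonal (w k false) =
          D k true * D k false := by
        simp only [hD, diagonal_mul_diagonal, diagonal_add]
        congr 1
        ext c
        have := G0 k true c
        have := G0 k false c
        simp only [hz, hw]
        field_simp
        ring
      simp only [Fintype.sum_bool, Tsq, diagonal_one, Matrix.one_mul]
      rw [Matrix.mul_assoc _ (diagonal (z k)), Matrix.mul_assoc _ (diagonal (z k)),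
        ← Matrix.mul_add (T k true * T k false + T k false * T k true), h3, DD k false k true,
        Matrix.add_mul]
      abel
    · intro k k' hk
      rw [Finset.sum_comm (f := fun s s' => T k' s * T k s' * (D k s' * D k' s)),
        ← Finset.sum_add_distrib]
      refine Finset.sum_eq_zero fun s _ => ?_
      rw [← Finset.sum_add_distrib]
      refine Finset.sum_eq_zero fun s' _ => ?_
      rw [Tanti k k' s s' hk, DD k' s' k s, Matrix.neg_mul, neg_add_cancel]
  have e2 : A * A = S + St - (1 / 40 : ℝ) • R := by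
    rw [← e1, hR, Finset.smul_sum, ← Finset.sum_sub_distrib]
    nth_rewrite 1 [hA']
    rw [Finset.sum_mul]
    refine Finset.sum_congr rfl fun m _ => ?_
    rw [Matrix.mul_assoc, hc m.1 m.2 A, Matrix.mul_sub, Matrix.mul_smul, ← Matrix.mul_assoc,
      ← Matrix.mul_assoc, ← Matrix.mul_assoc, TD m]
    simp only [hD, Matrix.mul_assoc]
  have nR' : ‖(1 / 40 : ℝ) • R‖ ≤ 21 / 400 * ‖A‖ := by
    rw [norm_smul, Real.norm_eq_abs, abs_of_pos (by norm_num : (0 : ℝ) < 1 / 40)]
    linarith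
  have nΔ' : ‖(1 / 40 : ℝ) • Δ‖ ≤ 1 / 20 := by
    rw [norm_smul, Real.norm_eq_abs, abs_of_pos (by norm_num : (0 : ℝ) < 1 / 40)]
    linarith
  have hρ : ‖A‖ ≤ 2 := by
    have h1 := norm_tr A
    rw [eT, Matrix.sub_mul] at h1
    have h2 := norm_sub_le (A * A) ((1 / 40 : ℝ) • Δ * A)
    have h3 := (norm_mul_le ((1 / 40 : ℝ) • Δ) A).trans
      (mul_le_mul_of_nonneg_right nΔ' (norm_nonneg A))
    have h4 : ‖A * A‖ ≤ ‖S‖ + ‖St‖ + ‖(1 / 40 : ℝ) • R‖ := by
      rw [e2]
      exact (norm_sub_le _ _).trans (add_le_add (norm_add_le _ _) le_rfl)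
    by_contra h
    nlinarith [norm_nonneg A]
  refine ⟨?_, hρ⟩
  have e3 : 1 - A * A = (1 - S) - St + (1 / 40 : ℝ) • R := by rw [e2]; abel
  rw [e3]
  have := (norm_add_le ((1 - S) - St) ((1 / 40 : ℝ) • R)).trans
    (add_le_add (norm_sub_le _ _) le_rfl)
  linarith

theorem gap_thm : GapStmt := by
  intro V ι _ _ _ _ T b g t Tsym Tsq Tanti adj hsum hcov ht ht0
  classical
  have hex : ∀ c, ∃ v : ℕ, 1 ≤ v ∧ ∑ k, ∑ s, (40 / ((v : ℝ) + g k s c)) ^ 2 ≤ 1 := by
    intro c
    refine ⟨40 * (2 * Fintype.card ι + 1), by omega, ?_⟩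
    have d0 : (0 : ℝ) ≤ Fintype.card ι := by positivity
    have h1 : ∀ k s, (40 / (((40 * (2 * Fintype.card ι + 1) : ℕ) : ℝ) + g k s c)) ^ 2 ≤
        1 / (2 * (Fintype.card ι : ℝ) + 1) := fun k s => by
      have h2 : 40 / (((40 * (2 * Fintype.card ι + 1) : ℕ) : ℝ) + g k s c) ≤
          1 / (2 * (Fintype.card ι : ℝ) + 1) := by
        rw [div_le_div_iff₀ (by positivity) (by positivity)]
        push_cast
        have : (0 : ℝ) ≤ g k s c := by positivity
        linarith
      have h3 : 1 / (2 * (Fintype.card ι : ℝ) + 1) ≤ 1 := by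
        rw [div_le_one (by positivity)]; linarith
      have h4 : 0 ≤ 40 / (((40 * (2 * Fintype.card ι + 1) : ℕ) : ℝ) + g k s c) := by positivity
      nlinarith
    refine (Finset.sum_le_sum fun k _ => Finset.sum_le_sum fun s _ => h1 k s).trans ?_
    simp only [Finset.sum_const, Finset.card_univ, Fintype.card_bool, nsmul_eq_mul]
    push_cast
    rw [← mul_assoc, mul_one_div, div_le_one (by positivity)]
    linarith
  set v : V → ℕ := fun c => Nat.find (hex c) with hv
  have v1 : ∀ c, 1 ≤ v c := fun c => (Nat.find_spec (hex c)).1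
  have v2 : ∀ c, ∑ k, ∑ s, (40 / ((v c : ℝ) + g k s c)) ^ 2 ≤ 1 :=
    fun c => (Nat.find_spec (hex c)).2
  have G0 : ∀ k s c, (0 : ℝ) < (v c : ℝ) + g k s c := fun k s c => by
    have : (1 : ℝ) ≤ v c := by exact_mod_cast v1 c
    positivity
  have G40 : ∀ k s c, (40 : ℝ) ≤ (v c : ℝ) + g k s c := fun k s c => by
    have h1 : (40 / ((v c : ℝ) + g k s c)) ^ 2 ≤ 1 :=
      ((Finset.single_le_sum (f := fun s => (40 / ((v c : ℝ) + g k s c)) ^ 2)
        (fun _ _ => sq_nonneg _) (Finset.mem_univ s)).trans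
        (Finset.single_le_sum (f := fun k => ∑ s, (40 / ((v c : ℝ) + g k s c)) ^ 2)
          (fun _ _ => Finset.sum_nonneg fun _ _ => sq_nonneg _) (Finset.mem_univ k))).trans (v2 c)
    have h2 : 40 / ((v c : ℝ) + g k s c) ≤ 1 := by
      by_contra h
      nlinarith
    exact (div_le_one (G0 k s c)).1 h2
  have vlip : ∀ c c', (∀ k s, g k s c ≤ g k s c' + 1) → v c' ≤ v c + 1 := fun c c' h => by
    refine Nat.find_min' (hex c') ⟨by omega, le_trans ?_ (v2 c)⟩
    refine Finset.sum_le_sum fun k _ => Finset.sum_le_sum fun s _ => ?_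
    have h1 : (g k s c : ℝ) ≤ g k s c' + 1 := by exact_mod_cast h k s
    refine pow_le_pow_left₀ (by positivity) ?_ 2
    refine div_le_div_of_nonneg_left (by norm_num) (G0 k s c) ?_
    push_cast
    linarith
  have v3 : ∀ c, (39 / 40 : ℝ) ^ 2 ≤ ∑ k, ∑ s, (40 / ((v c : ℝ) + g k s c)) ^ 2 := fun c => by
    obtain ⟨k0, s0, h0⟩ := hcov c
    have h1 : 40 ≤ v c := by
      have := G40 k0 s0 c
      rw [h0] at this
      exact_mod_cast this
    have h2 := Nat.find_min (hex c) (m := v c - 1) (by change v c - 1 < v c; omega)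
    rw [not_and, not_le] at h2
    have h3 := h2 (by omega)
    have h4 : ∑ k, ∑ s, (40 / (((v c - 1 : ℕ) : ℝ) + g k s c)) ^ 2 ≤
        (40 / 39 : ℝ) ^ 2 * ∑ k, ∑ s, (40 / ((v c : ℝ) + g k s c)) ^ 2 := by
      rw [Finset.mul_sum]
      refine Finset.sum_le_sum fun k _ => ?_
      rw [Finset.mul_sum]
      refine Finset.sum_le_sum fun s _ => ?_
      rw [← mul_pow]
      refine pow_le_pow_left₀ (by positivity) ?_ 2
      have h5 := G40 k s c
      rw [Nat.cast_sub (v1 c), ← mul_div_assoc, div_le_div_iff₀ (by push_cast; linarith) (G0 k s c)]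
      push_cast
      linarith
    nlinarith
  refine ⟨v, fun c c' h => ?_, fun A hA => ?_⟩
  · have e : ∀ x : ℕ, ∑ k, ∑ s, (40 / ((x : ℝ) + g k s c')) ^ 2 =
        ∑ k, ∑ s, (40 / ((x : ℝ) + g k s c)) ^ 2 := fun x => by
      refine Finset.sum_congr rfl fun k _ => ?_
      simp only [Fintype.sum_bool, h, Bool.not_true, Bool.not_false]
      ring
    refine le_antisymm (Nat.find_min' (hex c') ⟨v1 c, ?_⟩) (Nat.find_min' (hex c) ⟨v1 c', ?_⟩)
    · rw [e]; exact v2 c
    · rw [← e]; exact v2 c'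
  · have two : ∀ X : Matrix V V ℝ, (∀ c c', X c c' ≠ 0 → ∃ k s, T k s c c' ≠ 0) → ∀ k s,
        ‖com (fun c => (v c : ℝ) + g k s c) X‖ ≤ 2 * ‖X‖ := by
      intro X hX k s
      have h1 := gauge b v X fun c c' h0 => by
        obtain ⟨k', s', h⟩ := hX c c' h0
        have := adj k' s' c c' h
        exact ⟨this.1, vlip c' c fun k s => (this.2 k s).2, vlip c c' fun k s => (this.2 k s).1⟩
      have h2 := gauge b (g k s) X fun c c' h0 => by
        obtain ⟨k', s', h⟩ := hX c c' h0
        have := adj k' s' c c' h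
        exact ⟨this.1, this.2 k s⟩
      have e : com (fun c => (v c : ℝ) + g k s c) X =
          com (fun c => (v c : ℝ)) X + com (fun c => (g k s c : ℝ)) X := by
        ext c c'
        simp only [com_apply, Matrix.add_apply]
        ring
      rw [e]
      linarith [norm_add_le (com (fun c => (v c : ℝ)) X) (com (fun c => (g k s c : ℝ)) X)]
    refine gap_core T (fun k s c => (v c : ℝ) + g k s c) t (by exact_mod_cast ht0) Tsym Tsq Tanti
      G40 (fun k c => ?_) v2 v3 (by exact_mod_cast ht) A hA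
      (fun k s => two _ (fun c c' h => ⟨k, s, h⟩) k s) (two A fun c c' h => ?_)
    · have h1 : (t : ℝ) ≤ g k true c + g k false c := by exact_mod_cast hsum k c
      have h2 : (0 : ℝ) ≤ v c := by positivity
      linarith
    · by_contra h1
      simp only [not_exists, not_not] at h1
      apply h
      rw [hA]
      simp [Matrix.sum_apply, mul_diagonal, h1]

end Pool.Agent.DI
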