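import Pool.Agent.Lib.MP_d46fce_co.DI.St3

/-!
The alteration bound for generalized Kneser graphs and its closed form.
-/

set_option autoImplicit false

namespace Pool.Agent.DI

open Pool.Agent.Lib.MP_d46fce_co

theorem exists_dist2 {N t : ℕ} (ht : 1 ≤ t) (A : Finset (Finset (Fin N)))
    (hA : ∀ u ∈ A, ∀ v ∈ A, t ≤ (u ∩ v).card) :
    ∃ g : Finset ℕ → ℝ, Lip g ∧ (∀ P Q, Disjoint P Q → (t : ℝ) ≤ g P + g Q) ∧
      (∀ P, g P ≤ 0 → ∃ K : Finset ℕ,
        (K.card : ℝ) ≤ g (Finset.range N \ P) ∧ 0 < g (P \ K)) ∧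
      ∀ P, ∀ u ∈ A, u ⊆ toF N P → g P ≤ 0 := by
  classical
  have t1 : (1 : ℝ) ≤ t := by exact_mod_cast ht
  rcases A.eq_empty_or_nonempty with hE | hE
  · refine ⟨fun _ => t, fun x P => ⟨by simp, le_rfl⟩, fun P Q _ => by linarith,
      fun P h => absurd h (by simp only [not_le]; linarith), fun P u hu => ?_⟩
    rw [hE] at hu
    exact absurd hu (Finset.notMem_empty _)
  set G : Finset ℕ → ℕ := fun P => (A.image fun u => (u \ toF N P).card).min' (hE.image _) with hG
  have G2 : ∀ P, ∀ u ∈ A, G P ≤ (u \ toF N P).card := fun P u hu =>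
    Finset.min'_le _ _ (Finset.mem_image_of_mem _ hu)
  have G3 : ∀ P, ∃ u ∈ A, (u \ toF N P).card = G P := fun P =>
    Finset.mem_image.1 (Finset.min'_mem (A.image fun u => (u \ toF N P).card) (hE.image _))
  clear_value G
  refine ⟨fun P => G P, fun x P => ⟨?_, ?_⟩, fun P Q hd => ?_, fun P _ => ?_,
    fun P u hu h => ?_⟩
  · have : G P ≤ G (insert x P) + 1 := by
      obtain ⟨u, hu, h⟩ := G3 (insert x P)
      have h1 : u \ toF N P ⊆ (u \ toF N (insert x P)) ∪ toF N {x} := by
        intro z hz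
        simp only [toF, Finset.mem_sdiff, Finset.mem_filter, Finset.mem_univ, true_and,
          Finset.mem_union, Finset.mem_insert, Finset.mem_singleton] at hz ⊢
        tauto
      have h2 : (toF N {x}).card ≤ 1 := Finset.card_le_one.2 fun a ha b hb => by
        simp only [toF, Finset.mem_filter, Finset.mem_univ, true_and,
          Finset.mem_singleton] at ha hb
        exact Fin.ext (ha.trans hb.symm)
      have h3 := Finset.card_le_card h1
      have h4 := Finset.card_union_le (u \ toF N (insert x P)) (toF N {x})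
      have h5 := G2 P u hu
      omega
    have h : (G P : ℝ) ≤ G (insert x P) + 1 := by exact_mod_cast this
    simp only
    linarith
  · have : G (insert x P) ≤ G P := by
      obtain ⟨u, hu, h⟩ := G3 P
      have h1 : u \ toF N (insert x P) ⊆ u \ toF N P := by
        intro z hz
        simp only [toF, Finset.mem_sdiff, Finset.mem_filter, Finset.mem_univ, true_and,
          Finset.mem_insert] at hz ⊢
        tauto
      have h3 := Finset.card_le_card h1
      have h5 := G2 (insert x P) u hu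
      omega
    simp only
    exact_mod_cast this
  · have : t ≤ G P + G Q := by
      obtain ⟨u, hu, h⟩ := G3 P
      obtain ⟨v, hv, h'⟩ := G3 Q
      have h1 : u ∩ v ⊆ (u \ toF N P) ∪ (v \ toF N Q) := by
        intro z hz
        have : z.val ∈ P → z.val ∉ Q := fun h => Finset.disjoint_left.1 hd h
        simp only [toF, Finset.mem_sdiff, Finset.mem_filter, Finset.mem_univ, true_and,
          Finset.mem_union, Finset.mem_inter] at hz ⊢
        tauto
      have h3 := Finset.card_le_card h1
      have h4 := Finset.card_union_le (u \ toF N P) (v \ toF N Q)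
      have h5 := hA u hu v hv
      omega
    simp only
    exact_mod_cast this
  · obtain ⟨v, hv, h⟩ := G3 (Finset.range N \ P)
    refine ⟨(v \ toF N (Finset.range N \ P)).image Fin.val, ?_, ?_⟩
    · have : ((v \ toF N (Finset.range N \ P)).image Fin.val).card ≤ G (Finset.range N \ P) :=
        h ▸ Finset.card_image_le
      simp only
      exact_mod_cast this
    · obtain ⟨u, hu, h'⟩ := G3 (P \ (v \ toF N (Finset.range N \ P)).image Fin.val)
      obtain ⟨z, hz⟩ := Finset.card_pos.1 (lt_of_lt_of_le ht (hA u hu v hv))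
      have : 0 < G (P \ (v \ toF N (Finset.range N \ P)).image Fin.val) := by
        rw [← h']
        refine Finset.card_pos.2 ⟨z, Finset.mem_sdiff.2 ⟨(Finset.mem_inter.1 hz).1, fun h3 => ?_⟩⟩
        have h4 := Finset.mem_sdiff.1 (Finset.mem_filter.1 h3).2
        refine h4.2 (Finset.mem_image_of_mem _ (Finset.mem_sdiff.2
          ⟨(Finset.mem_inter.1 hz).2, fun h5 => ?_⟩))
        exact (Finset.mem_sdiff.1 (Finset.mem_filter.1 h5).2).2 h4.1
      simp only
      exact_mod_cast this
  · have h1 := G2 P u hu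
    rw [Finset.sdiff_eq_empty_iff_subset.2 h, Finset.card_empty] at h1
    have : G P = 0 := by omega
    simp [this]

theorem ka_of (hA : AltStmt) : KAStmt := by
  intro m n k l M hl hM hk h4 hT hm1 hm2
  classical
  set N := 2 * n + k with hN
  obtain ⟨v0⟩ : Nonempty (Vtx n k) := by
    rw [← Fintype.card_pos_iff, card_vtx]; exact Nat.choose_pos (by omega)
  have hex : ∀ P : Finset ℕ, ∃ v : Vtx n k, P ⊆ Finset.range N → n ≤ P.card → v.1 ⊆ toF N P := by
    intro P
    by_cases h : P ⊆ Finset.range N ∧ n ≤ P.card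
    · obtain ⟨S, h1, h2⟩ := Finset.exists_subset_card_eq (s := toF N P) (n := n)
        (by rw [card_toF h.1]; exact h.2)
      exact ⟨⟨S, h2⟩, fun _ _ => h1⟩
    · exact ⟨v0, fun h1 h2 => absurd ⟨h1, h2⟩ h⟩
  choose φ hφ using hex
  set W := ((Finset.range N).powerset.filter (fun P => (chg N P).card ≤ 6 * M)).image φ with hW
  refine le_hm W ?_ hm2 ?_
  · rcases hm1 with hm1 | hm1
    · have h1 := card_few N (6 * M)
      have h2 := card_small N (6 * M) (by omega)
      have h3 : W.card ≤ _ := Finset.card_image_le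
      have h4 : (W.card : ℝ) ≤ 2 * ((((Finset.range N).powerset.filter
          (fun S => S.card ≤ 6 * M)).card : ℕ) : ℝ) := by exact_mod_cast h3.trans h1
      have h5 : (W.card : ℝ) ≤ m := by linarith
      exact_mod_cast h5
    · rw [hm1, ← card_vtx]
      exact Finset.card_le_univ _
  · intro c hc
    by_contra hlt
    set S := W.image c with hS
    have rk : ∀ x y, x ∈ S → x < y → (S.filter (· < x)).card < (S.filter (· < y)).card := by
      intro x y hx hxy
      refine Finset.card_lt_card ⟨fun z hz => ?_, fun h => ?_⟩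
      · rw [Finset.mem_filter] at hz ⊢
        exact ⟨hz.1, hz.2.trans hxy⟩
      · have := h (Finset.mem_filter.2 ⟨hx, hxy⟩)
        simp at this
    have hg : ∀ i : ℕ, ∃ g : Finset ℕ → ℝ, Lip g ∧
        (∀ P Q, Disjoint P Q → ((l + 1 : ℕ) : ℝ) ≤ g P + g Q) ∧
        (∀ P, g P ≤ 0 → ∃ K : Finset ℕ,
          (K.card : ℝ) ≤ g (Finset.range N \ P) ∧ 0 < g (P \ K)) ∧
        ∀ P, ∀ u ∈ (W.filter (fun v => (S.filter (· < c v)).card = i)).image Subtype.val,
          u ⊆ toF N P → g P ≤ 0 := by
      intro i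
      refine exists_dist2 (by omega) _ fun u' hu' v' hv' => ?_
      obtain ⟨u, hu, rfl⟩ := Finset.mem_image.1 hu'
      obtain ⟨v, hv, rfl⟩ := Finset.mem_image.1 hv'
      rw [Finset.mem_filter] at hu hv
      by_contra h
      have hadj : (genKneser n k l).Adj u v := by
        refine ⟨fun e => ?_, by omega⟩
        rw [← e, Finset.inter_self, u.2] at h
        omega
      rcases lt_or_gt_of_ne (hc u hu.1 v hv.1 hadj) with h1 | h1
      · have := rk _ _ (Finset.mem_image_of_mem c hu.1) h1
        omega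
      · have := rk _ _ (Finset.mem_image_of_mem c hv.1) h1
        omega
    choose g g1 g2 g4 g3 using hg
    have hl0 : (0 : ℝ) ≤ l := by positivity
    have := hA n k M ((l : ℝ) + 1) g (by omega) hM (by linarith) hk (by exact_mod_cast h4) g1
      (fun i P Q h => by have := g2 i P Q h; push_cast at this; exact this) g4 (by
        intro P h1 h2 B h3 h4
        have hP : φ P ∈ W := Finset.mem_image_of_mem φ (Finset.mem_filter.2
          ⟨Finset.mem_powerset.2 h1, (chg_card h4).trans (by omega)⟩)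
        refine ⟨(S.filter (· < c (φ P))).card, ?_, g3 _ P _ (Finset.mem_image_of_mem _
          (Finset.mem_filter.2 ⟨hP, rfl⟩)) (hφ P h1 h2)⟩
        have : (S.filter (· < c (φ P))).card < S.card := by
          refine Finset.card_lt_card ⟨Finset.filter_subset _ _, fun h => ?_⟩
          have := h (Finset.mem_image_of_mem c hP)
          simp at this
        omega)
    linarith

theorem kc_small {m n k l : ℕ} {x : ℝ} (hl : l < n) (h1 : 1 ≤ m) (h2 : m ≤ (2 * n + k).choose n)
    (hx : x ≤ (l + 1) * (k + l + 1) / Real.log (2 * (l + 1)))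
    (hm' : x ≤ 1 + Real.log m / Real.log (2 + n / (k + l + 1)) ∨ m = (2 * n + k).choose n)
    (hk : k < l + 1) : x ≤ 64 * hm m n k l := by
  have hone : (1 : ℝ) ≤ hm m n k l := by exact_mod_cast one_le_hm h1 h2
  have k0 : (0 : ℝ) ≤ k := by positivity
  have l0 : (0 : ℝ) ≤ l := by positivity
  have k1 : (k : ℝ) ≤ l + 1 := by exact_mod_cast hk.le
  obtain ⟨T, hT⟩ : ∃ T : ℝ, T = (l + 1) * (k + l + 1) := ⟨_, rfl⟩
  rw [← hT] at hx
  have T1 : 1 ≤ T := by rw [hT]; nlinarith
  have T2 : T ≤ 2 * (l + 1) ^ 2 := by rw [hT]; nlinarith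
  have c4 : 0.69 ≤ Real.log (2 * (l + 1)) :=
    log_two_ge.trans (Real.log_le_log (by norm_num) (by linarith))
  rw [le_div_iff₀ (by linarith)] at hx
  rcases le_total x 0 with x0 | x0
  · linarith
  rcases hm' with hm' | hm'
  · have a1 := lower_closed hl h1 h2 T hT
    have a2 : Real.log (2 * T) ≤ 2 * Real.log (2 * (l + 1)) := by
      have := Real.log_le_log (show 0 < 2 * T by linarith)
        (show 2 * T ≤ (2 * ((l : ℝ) + 1)) ^ 2 by linarith [mul_pow (2 : ℝ) (l + 1) 2])
      rwa [Real.log_pow] at this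
    have a3 : x / 2 ≤ T / Real.log (2 * T) := by
      rw [le_div_iff₀ (Real.log_pos (by linarith))]
      have := mul_le_mul_of_nonneg_left a2 x0
      linarith
    have a4 : x / 2 ≤ min (max ((k : ℝ) + l + 1) (T / Real.log (2 * T)))
        (1 + Real.log m / Real.log (2 + n / (k + l + 1))) :=
      le_min (le_max_of_le_right a3) (by linarith)
    linarith
  · have a1 := top_closed (k := k) hl (hm m n k l) (by rw [hm'])
    rw [← hT] at a1
    have a2 : ((min (hm m n k l) (2 * n + k) : ℕ) : ℝ) ≤ hm m n k l := by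
      exact_mod_cast min_le_left _ _
    generalize (hm m n k l : ℝ) = h at a1 a2 hone ⊢
    rcases le_total T h with a3 | a3
    · have := mul_le_mul_of_nonneg_left c4 x0
      linarith
    · have a4 : Real.log (4 * h) ≤ 3 * Real.log (2 * (l + 1)) := by
        have e : (2 * ((l : ℝ) + 1)) ^ 3 = 8 * (l + 1) ^ 2 + 8 * ((l + 1) ^ 2 * l) := by ring
        have e0 : 0 ≤ ((l : ℝ) + 1) ^ 2 * l := by positivity
        have := Real.log_le_log (show 0 < 4 * h by linarith)
          (show 4 * h ≤ (2 * ((l : ℝ) + 1)) ^ 3 by linarith)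
        rwa [Real.log_pow] at this
      have a5 : 0 ≤ Real.log (4 * h) := Real.log_nonneg (by linarith)
      have a6 : T ≤ 16 * h * (3 * Real.log (2 * (l + 1))) :=
        a1.trans (mul_le_mul (by linarith) a4 a5 (by linarith))
      have a7 : x * Real.log (2 * (l + 1)) ≤ (48 * h) * Real.log (2 * (l + 1)) := by linarith
      have := le_of_mul_le_mul_right a7 (by linarith)
      linarith

theorem kc_of (hK : KAStmt) : KCStmt := by
  refine ⟨64, by norm_num, fun m n k l x hl h1 h2 hx hm' => ?_⟩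
  rcases Nat.lt_or_ge k (l + 1) with hk | hk
  · exact kc_small hl h1 h2 hx hm' hk
  have k0 : (0 : ℝ) ≤ k := by positivity
  have l0 : (0 : ℝ) ≤ l := by positivity
  have k1 : (l : ℝ) + 1 ≤ k := by exact_mod_cast hk
  have m1 : (1 : ℝ) ≤ m := by exact_mod_cast h1
  obtain ⟨ρ, hρ⟩ : ∃ ρ : ℝ, ρ = n / (k + l + 1) := ⟨_, rfl⟩
  rw [← hρ] at hm'
  have ρ0 : 0 ≤ ρ := by rw [hρ]; positivity
  have ℓ0 : 0 < Real.log (2 + ρ) := Real.log_pos (by linarith)
  obtain ⟨M, hM⟩ : ∃ M : ℕ, M = ⌊x / 64⌋₊ := ⟨_, rfl⟩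
  have M2 : x / 64 < M + 1 := hM ▸ Nat.lt_floor_add_one _
  suffices h : M + 1 ≤ hm m n k l by
    have : ((M + 1 : ℕ) : ℝ) ≤ hm m n k l := by exact_mod_cast h
    push_cast at this
    linarith
  rcases Nat.eq_zero_or_pos M with h0 | h0
  · rw [h0]; exact one_le_hm h1 h2
  have M1 : (M : ℝ) ≤ x / 64 := by
    rw [hM] at h0 ⊢
    exact Nat.floor_le (by linarith [Nat.floor_pos.1 h0])
  have hpow : x ≤ 1 + Real.log m / Real.log (2 + ρ) →
      ∀ e : ℕ, e + 1 ≤ 64 * M → (2 + ρ) ^ e ≤ m := by
    intro a1 e he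
    have a2 : ((e + 1 : ℕ) : ℝ) ≤ ((64 * M : ℕ) : ℝ) := by exact_mod_cast he
    push_cast at a2
    have a3 : (e : ℝ) ≤ Real.log m / Real.log (2 + ρ) := by linarith
    rw [le_div_iff₀ ℓ0, ← Real.log_pow] at a3
    exact (Real.log_le_log_iff (by positivity) (by positivity)).1 a3
  by_cases hc : M ≤ k + l + 1
  · obtain ⟨r, hr⟩ : ∃ r, M = r + 1 := ⟨M - 1, by omega⟩
    rw [hr]
    rcases hm' with hm' | hm'
    · refine thr_lower hl (by omega) (le_trans ?_ (hpow hm' (4 * r + 1) (by omega))) h2
      have b1 : ((n - l : ℕ) : ℝ) / ((k + l : ℕ) + 1) ≤ ρ := by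
        rw [hρ]; push_cast
        refine div_le_div_of_nonneg_right ?_ (by positivity)
        exact_mod_cast Nat.sub_le n l
      have b2 : 36 * ρ + 9 ≤ (2 + ρ) ^ 4 := by
        nlinarith [sq_nonneg (ρ - 1), sq_nonneg ρ, pow_nonneg ρ0 3, pow_nonneg ρ0 4]
      rw [pow_succ, pow_mul, mul_comm]
      gcongr
      · linarith
      · linarith
    · rw [hm']
      exact top_lower hl (by omega)
  · have c1 : ((k + l + 2 : ℕ) : ℝ) ≤ M := by exact_mod_cast (show k + l + 2 ≤ M by omega)
    push_cast at c1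
    have c4 : 0.69 ≤ Real.log (2 * (l + 1)) :=
      log_two_ge.trans (Real.log_le_log (by norm_num) (by linarith))
    have c5 : Real.log (l + 1) ≤ Real.log (2 * (l + 1)) :=
      Real.log_le_log (by linarith) (by linarith)
    have c3 : 64 * (M : ℝ) * Real.log (2 * (l + 1)) ≤ (l + 1) * (k + l + 1) := by
      rw [← le_div_iff₀ (by linarith)]
      linarith
    have c6 := mul_le_mul_of_nonneg_left c4 (show 0 ≤ 64 * (M : ℝ) by positivity)
    have c7 := mul_le_mul_of_nonneg_left c5 (show 0 ≤ 64 * (M : ℝ) by positivity)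
    have c8 : ((l : ℝ) + 1) * (k + l + 1) ≤ 2 * ((k + 2) * (l + 1)) := by nlinarith
    refine hK m n k l M hl h0 (by linarith) ?_ ?_ (hm'.imp_left fun hm' =>
      le_trans ?_ (hpow hm' (3 * (6 * M) + 1) (by omega))) h2
    · have : 4 * (M : ℝ) ≤ (k + 2) * (l + 1) := by linarith
      exact_mod_cast this
    · rw [← add_assoc]
      linarith
    · have d1 : ((2 * n + k : ℕ) : ℝ) / (6 * M : ℕ) ≤ ρ + 1 / 2 := by
        push_cast
        rw [div_le_iff₀ (by linarith)]
        have e : (n : ℝ) = ρ * (k + l + 1) := by rw [hρ]; field_simp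
        have := mul_le_mul_of_nonneg_left (show (k : ℝ) + l + 1 ≤ M by linarith) ρ0
        have := mul_nonneg ρ0 (show (0 : ℝ) ≤ M by positivity)
        linarith
      have d2 : 3 * (ρ + 1 / 2 + 1) ≤ (2 + ρ) ^ 3 := by nlinarith [sq_nonneg ρ, pow_nonneg ρ0 3]
      rw [pow_succ, pow_mul (2 + ρ), mul_comm]
      gcongr
      · linarith
      · linarith

end Pool.Agent.DI
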