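import Pool.Agent.Lib.MP_d46fce_co.DI.St3

/-!
Joins of generalized Kneser graphs on disjoint ground sets.
-/

namespace Pool.Agent.DI

open Pool.Agent.Lib.MP_d46fce_co Finset

theorem kj_opt {m n k l : ℕ} (h : m ≤ (2 * n + k).choose n) :
    ∃ W : Finset (Vtx n k), W.card = m ∧ ∀ c : Vtx n k → ℕ,
      (∀ u ∈ W, ∀ v ∈ W, (genKneser n k l).Adj u v → c u ≠ c v) →
        hm m n k l ≤ (W.image c).card := by
  classical
  rcases Nat.eq_zero_or_pos (hm m n k l) with h0 | h0
  · obtain ⟨W, -, hW⟩ := Finset.exists_subset_card_eq (s := (univ : Finset (Vtx n k))) (n := m)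
      (by rwa [Finset.card_univ, card_vtx])
    exact ⟨W, hW, fun c _ => by omega⟩
  by_contra hn
  have h1 : hm m n k l ≤ hm m n k l - 1 := by
    refine hm_le fun W hW => ?_
    have h2 : ∃ c : Vtx n k → ℕ, (∀ u ∈ W, ∀ v ∈ W, (genKneser n k l).Adj u v → c u ≠ c v) ∧
        (W.image c).card < hm m n k l := by
      by_contra h3
      refine hn ⟨W, hW, fun c hc => ?_⟩
      by_contra h4
      exact h3 ⟨c, hc, by omega⟩
    obtain ⟨c, hc, hlt⟩ := h2
    refine ⟨fun v => if hv : v ∈ W then
      ((W.image c).equivFin ⟨c v, Finset.mem_image_of_mem c hv⟩).val else 0, fun v hv => ?_,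
      fun u hu v hv huv e => hc u hu v hv huv ?_⟩
    · have := ((W.image c).equivFin ⟨c v, Finset.mem_image_of_mem c hv⟩).isLt
      simp only [dif_pos hv]
      omega
    · simp only [dif_pos hu, dif_pos hv] at e
      exact congrArg Subtype.val ((W.image c).equivFin.injective (Fin.ext e))
  omega

theorem kj_thm : KJStmt := by
  classical
  intro m m' n k k' l j hn hN hm1 hm2 hm3
  obtain ⟨W, hW, hopt⟩ := kj_opt (l := l) hm3
  obtain ⟨ι⟩ : Nonempty ((Fin j × Fin (2 * n + k')) ↪ Fin (2 * n + k)) :=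
    Function.Embedding.nonempty_of_card_le (by simpa using hN)
  set e : Fin j → Fin (2 * n + k') ↪ Fin (2 * n + k) := fun β =>
    ⟨fun x => ι (β, x), fun x y h => by simpa using ι.injective h⟩ with he
  set ψ : Fin j → Vtx n k' → Vtx n k := fun β A => ⟨A.1.map (e β), by simp [A.2]⟩ with hψ
  have hadj : ∀ β A B, (genKneser n k' l).Adj A B → (genKneser n k l).Adj (ψ β A) (ψ β B) := by
    intro β A B h
    refine ⟨fun h1 => h.1 (Subtype.ext (Finset.map_injective (e β) (congrArg Subtype.val h1))), ?_⟩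
    simp only [hψ]
    rw [← Finset.map_inter, Finset.card_map]
    exact h.2
  have hadj' : ∀ β β' A B, β ≠ β' → (genKneser n k l).Adj (ψ β A) (ψ β' B) := by
    intro β β' A B h
    have h1 : (ψ β A).1 ∩ (ψ β' B).1 = ∅ := by
      refine Finset.eq_empty_of_forall_notMem fun x hx => ?_
      obtain ⟨a, b⟩ := Finset.mem_inter.1 hx
      obtain ⟨y, -, rfl⟩ := Finset.mem_map.1 a
      obtain ⟨z, -, h2⟩ := Finset.mem_map.1 b
      exact h (congrArg Prod.fst (ι.injective h2)).symm
    refine ⟨fun h2 => ?_, by rw [h1]; simp⟩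
    rw [← h2, Finset.inter_self] at h1
    have := (ψ β A).2
    rw [h1, Finset.card_empty] at this
    omega
  refine le_hm ((univ ×ˢ W).image (fun p : Fin j × Vtx n k' => ψ p.1 p.2)) ?_ hm2 fun c hc => ?_
  · refine Finset.card_image_le.trans (le_trans ?_ hm1)
    rw [Finset.card_product, Finset.card_univ, Fintype.card_fin, hW]
  · have hmem : ∀ β, ∀ A ∈ W, ψ β A ∈
        (univ ×ˢ W).image (fun p : Fin j × Vtx n k' => ψ p.1 p.2) :=
      fun β A hA => Finset.mem_image.2 ⟨(β, A), by simp [hA], rfl⟩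
    have h1 : ∀ β, hm m' n k' l ≤ (W.image (fun A => c (ψ β A))).card := fun β =>
      hopt _ fun A hA B hB h => hc _ (hmem β A hA) _ (hmem β B hB) (hadj β A B h)
    have h2 : (univ.biUnion (fun β => W.image (fun A => c (ψ β A)))).card =
        ∑ β, (W.image (fun A => c (ψ β A))).card := by
      refine Finset.card_biUnion fun β _ β' _ hne => ?_
      refine Finset.disjoint_left.2 fun x h1 h2 => ?_
      obtain ⟨A, hA, rfl⟩ := Finset.mem_image.1 h1
      obtain ⟨B, hB, h3⟩ := Finset.mem_image.1 h2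
      exact hc _ (hmem β A hA) _ (hmem β' B hB) (hadj' β β' A B hne) h3.symm
    calc j * hm m' n k' l = ∑ _β : Fin j, hm m' n k' l := by simp
      _ ≤ ∑ β, (W.image (fun A => c (ψ β A))).card := Finset.sum_le_sum fun β _ => h1 β
      _ = _ := h2.symm
      _ ≤ _ := by
        refine Finset.card_le_card fun x hx => ?_
        obtain ⟨β, -, hx⟩ := Finset.mem_biUnion.1 hx
        obtain ⟨A, hA, rfl⟩ := Finset.mem_image.1 hx
        exact Finset.mem_image_of_mem c (hmem β A hA)

end Pool.Agent.DI
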