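import Pool.Agent.Lib.MP_d46fce_co.DI.St2

/-!
From the non-additive Spencer theorem to lower bounds for subgraphs of generalized Kneser graphs.
-/

set_option autoImplicit false

namespace Pool.Agent.DI

open Pool.Agent.Lib.MP_d46fce_co

theorem lip_union {g : Finset ℕ → ℝ} (h : Lip g) (P S : Finset ℕ) :
    g P - S.card ≤ g (P ∪ S) ∧ g (P ∪ S) ≤ g P := by
  induction S using Finset.induction_on with
  | empty => simp
  | insert x S hx ih =>
    rw [Finset.union_insert, Finset.card_insert_of_notMem hx]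
    have := h x (P ∪ S)
    push_cast
    constructor <;> linarith [this.1, this.2, ih.1, ih.2]

/-- the points whose block lies in `P` -/
def blw (N q : ℕ) (P : Finset ℕ) : Finset ℕ := (Finset.range N).filter (fun x => x / q ∈ P)

theorem blw_insert (N q x : ℕ) (P : Finset ℕ) :
    blw N q (insert x P) = blw N q P ∪ blw N q {x} := by
  ext y
  simp only [blw, Finset.mem_filter, Finset.mem_union, Finset.mem_insert, Finset.mem_singleton]
  tauto

theorem blw_card (N q x : ℕ) (hq : 1 ≤ q) : (blw N q {x}).card ≤ q := by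
  have : blw N q {x} ⊆ Finset.Ico (x * q) (x * q + q) := by
    intro y hy
    simp only [blw, Finset.mem_filter, Finset.mem_singleton] at hy
    rw [Finset.mem_Ico, ← hy.2]
    exact ⟨Nat.div_mul_le_self y q, Nat.lt_div_mul_add hq⟩
  simpa using Finset.card_le_card this

theorem blw_compl (N q : ℕ) (P : Finset ℕ) :
    blw N q (Finset.range (N / q + 1) \ P) = Finset.range N \ blw N q P := by
  ext y
  simp only [blw, Finset.mem_filter, Finset.mem_sdiff, Finset.mem_range]
  constructor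
  · rintro ⟨h1, -, h2⟩
    exact ⟨h1, fun h => h2 h.2⟩
  · rintro ⟨h1, h2⟩
    exact ⟨h1, Nat.lt_succ_of_le (Nat.div_le_div_right h1.le), fun h => h2 ⟨h1, h⟩⟩

theorem chg_compl (N : ℕ) (P : Finset ℕ) : chg N (Finset.range N \ P) = chg N P := by
  ext j
  simp only [chg, Finset.mem_filter, Finset.mem_sdiff, Finset.mem_range]
  constructor
  · rintro ⟨h1, h2, h3⟩
    exact ⟨h1, h2, by tauto⟩
  · rintro ⟨h1, h2, h3⟩
    exact ⟨h1, h2, by tauto⟩

theorem floor_step {a b : ℝ} (h : a ≤ b + 1) : ⌊a⌋₊ ≤ ⌊b⌋₊ + 1 := by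
  have h1 := Nat.lt_floor_add_one b
  have h2 : a < ((⌊b⌋₊ + 2 : ℕ) : ℝ) := by push_cast; linarith
  have := (Nat.floor_lt' (by omega)).2 h2
  omega

theorem kl_of (hC : CubeStmt) : KLStmt := by
  intro m n k l M q hl hM hq hT hm1 hm2
  classical
  set N := 2 * n + k with hN
  set N2 := N / q + 1 with hN2
  obtain ⟨v0⟩ : Nonempty (Vtx n k) := by
    rw [← Fintype.card_pos_iff, card_vtx]; exact Nat.choose_pos (by omega)
  have hex : ∀ P : Finset ℕ, ∃ v : Vtx n k, P ⊆ Finset.range N → n ≤ P.card → v.1 ⊆ toF N P := by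
    intro P
    by_cases h : P ⊆ Finset.range N ∧ n ≤ P.card
    · obtain ⟨S, h1, h2⟩ := Finset.exists_subset_card_eq (s := toF N P) (n := n)
        (by rw [card_toF h.1]; exact h.2)
      exact ⟨⟨S, h2⟩, fun _ _ => h1⟩
    · exact ⟨v0, fun h1 h2 => absurd ⟨h1, h2⟩ h⟩
  choose φ hφ using hex
  set W := ((Finset.range N2).powerset.filter (fun P => (chg N2 P).card ≤ M)).image
    (fun P => φ (blw N q P)) with hW
  refine le_hm W ?_ hm2 ?_
  · rcases hm1 with hm1 | hm1
    · have h1 := card_few N2 M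
      have h2 := card_small N2 M hM
      have h3 : W.card ≤ _ := Finset.card_image_le
      have h4 : (W.card : ℝ) ≤ 2 * ((((Finset.range N2).powerset.filter
          (fun S => S.card ≤ M)).card : ℕ) : ℝ) := by exact_mod_cast h3.trans h1
      have h5 : (W.card : ℝ) ≤ m := by linarith
      exact_mod_cast h5
    · rw [hm1, ← card_vtx]
      exact Finset.card_le_univ _
  · intro c hc
    by_contra hlt
    set S := W.image c with hS
    have rk : ∀ x y, x ∈ S → x < y → (S.filter (· < x)).card < (S.filter (· < y)).card := by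
      intro x y hx hxy
      refine Finset.card_lt_card ⟨fun z hz => ?_, fun h => ?_⟩
      · rw [Finset.mem_filter] at hz ⊢
        exact ⟨hz.1, hz.2.trans hxy⟩
      · have := h (Finset.mem_filter.2 ⟨hx, hxy⟩)
        simp at this
    have hg : ∀ i : ℕ, ∃ g : Finset ℕ → ℝ, Lip g ∧
        (∀ P Q, Disjoint P Q → ((l + 1 : ℕ) : ℝ) ≤ g P + g Q) ∧
        ∀ P, ∀ u ∈ (W.filter (fun v => (S.filter (· < c v)).card = i)).image Subtype.val,
          u ⊆ toF N P → g P ≤ 0 := by
      intro i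
      refine exists_dist _ fun u' hu' v' hv' => ?_
      obtain ⟨u, hu, rfl⟩ := Finset.mem_image.1 hu'
      obtain ⟨v, hv, rfl⟩ := Finset.mem_image.1 hv'
      rw [Finset.mem_filter] at hu hv
      by_contra h
      have hadj : (genKneser n k l).Adj u v := by
        refine ⟨fun e => ?_, by omega⟩
        rw [← e, Finset.inter_self, u.2] at h
        omega
      rcases lt_or_gt_of_ne (hc u hu.1 v hv.1 hadj) with h1 | h1
      · have := rk _ _ (Finset.mem_image_of_mem c hu.1) h1
        omega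
      · have := rk _ _ (Finset.mem_image_of_mem c hv.1) h1
        omega
    choose g g1 g2 g3 using hg
    have q0 : (0 : ℝ) < q := by exact_mod_cast hq
    have zero : ∀ P, P ⊆ Finset.range N2 → (chg N2 P).card ≤ M → n ≤ (blw N q P).card →
        ∃ i < M, ⌊g i (blw N q P) / q⌋₊ = 0 := by
      intro P h1 h2 h3
      have hP : φ (blw N q P) ∈ W := Finset.mem_image_of_mem (fun P => φ (blw N q P))
        (Finset.mem_filter.2 ⟨Finset.mem_powerset.2 h1, h2⟩)
      refine ⟨(S.filter (· < c (φ (blw N q P)))).card, ?_, ?_⟩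
      · have : (S.filter (· < c (φ (blw N q P)))).card < S.card := by
          refine Finset.card_lt_card ⟨Finset.filter_subset _ _, fun h => ?_⟩
          have := h (Finset.mem_image_of_mem c hP)
          simp at this
        omega
      · refine Nat.floor_of_nonpos (div_nonpos_of_nonpos_of_nonneg ?_ q0.le)
        exact g3 _ _ _ (Finset.mem_image_of_mem _ (Finset.mem_filter.2 ⟨hP, rfl⟩))
          (hφ _ (Finset.filter_subset _ _) h3)
    have := hC N2 M ((l + 1) / q - 1) (fun i P => ⌊g i (blw N q P) / q⌋₊) (fun i x P => ?_)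
      (fun i P _ => ?_) (fun P h1 h2 => ?_)
    · omega
    · have h1 := lip_union (g1 i) (blw N q P) (blw N q {x})
      have h2 : ((blw N q {x}).card : ℝ) ≤ q := by exact_mod_cast blw_card N q x hq
      rw [blw_insert]
      constructor
      · refine floor_step ?_
        have := div_le_div_of_nonneg_right h1.2 q0.le
        linarith
      · refine floor_step ?_
        rw [div_add_one q0.ne']
        exact div_le_div_of_nonneg_right (by linarith [h1.1]) q0.le
    · have h1 := g2 i (blw N q P) (blw N q (Finset.range N2 \ P))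
        (by rw [hN2, blw_compl]; exact Finset.disjoint_sdiff)
      have h2 := Nat.lt_floor_add_one (g i (blw N q P) / q)
      have h3 := Nat.lt_floor_add_one (g i (blw N q (Finset.range N2 \ P)) / q)
      have h4 : (((l + 1) / q : ℕ) : ℝ) ≤ ((l + 1 : ℕ) : ℝ) / q := Nat.cast_div_le
      have h5 := div_le_div_of_nonneg_right h1 q0.le
      rw [add_div] at h5
      have h6 : (((l + 1) / q : ℕ) : ℝ) < ((⌊g i (blw N q P) / q⌋₊ +
          ⌊g i (blw N q (Finset.range N2 \ P)) / q⌋₊ + 2 : ℕ) : ℝ) := by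
        push_cast at h5 h4 ⊢
        linarith
      have h7 := Nat.cast_lt.1 h6
      omega
    · have h3 : (blw N q P).card + (blw N q (Finset.range N2 \ P)).card = N := by
        rw [hN2, blw_compl, add_comm, Finset.card_sdiff_add_card_eq_card
          (show blw N q P ⊆ Finset.range N from Finset.filter_subset _ _), Finset.card_range]
      by_cases h4 : n ≤ (blw N q P).card
      · obtain ⟨i, hi, h⟩ := zero P h1 h2 h4
        exact ⟨i, hi, Or.inl h⟩
      · obtain ⟨i, hi, h⟩ := zero (Finset.range N2 \ P) Finset.sdiff_subset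
          (by rw [chg_compl]; exact h2) (by omega)
        exact ⟨i, hi, Or.inr h⟩

theorem num1 {s Φ r y : ℝ} (y0 : 0 ≤ y) (r1 : 1 ≤ r) (s2 : s ^ 2 ≤ Φ * (2 + y))
    (b1 : Φ ≤ 2 ^ 21 * r ^ 2) : s ≤ 2048 * r * (2 + y) := by
  refine le_of_sq_le_sq ?_ (by positivity)
  have b2 : Φ * (2 + y) ≤ 2 ^ 21 * r ^ 2 * (2 + y) :=
    mul_le_mul_of_nonneg_right b1 (by linarith)
  have b3 : 2 ^ 21 * r ^ 2 * (2 + y) ≤ 2 ^ 21 * r ^ 2 * ((2 + y) * (2 + y)) :=
    mul_le_mul_of_nonneg_left (by nlinarith) (by positivity)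
  have b4 : 0 ≤ r ^ 2 * ((2 + y) * (2 + y)) := by positivity
  nlinarith

theorem num2 {s t r y q a : ℝ} (y0 : 0 ≤ y) (r1 : 1 ≤ r) (s0 : 0 < s) (t0 : 0 < t) (q0 : 0 < q)
    (s3 : s ≤ 2048 * r * (2 + y)) (q3 : t ≤ 2 * (q * a)) (a2 : a ≤ 503 * r) :
    y * (t * s) ≤ 2 ^ 21 * r ^ 2 * (2 + y) ^ 2 * q := by
  have c1 : t ≤ 1006 * r * q := by nlinarith
  have c2 : t * s ≤ (1006 * r * q) * (2048 * r * (2 + y)) :=
    mul_le_mul c1 s3 s0.le (by positivity)
  have c3 : y * (t * s) ≤ (2 + y) * ((1006 * r * q) * (2048 * r * (2 + y))) :=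
    mul_le_mul (by linarith) c2 (by positivity) (by linarith)
  have c4 : 0 ≤ r ^ 2 * (2 + y) ^ 2 * q := by positivity
  nlinarith

theorem num3 {x M y : ℝ} (y0 : 0 ≤ y) (M4 : 1 ≤ M) (n2 : x ≤ 2 ^ 21 * M * (2 + y) ^ 2 + 1) :
    3 * (x / M + 1) ≤ (2 + y) ^ 26 := by
  have b1 : x / M ≤ 2 ^ 21 * (2 + y) ^ 2 + 1 := by
    rw [div_le_iff₀ (by linarith)]
    nlinarith
  have b2 : (2 : ℝ) ^ 24 ≤ (2 + y) ^ 24 := pow_le_pow_left₀ (by norm_num) (by linarith) 24
  have b3 : (1 : ℝ) ≤ (2 + y) ^ 2 := by nlinarith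
  have b4 : (2 + y) ^ 26 = (2 + y) ^ 24 * (2 + y) ^ 2 := by ring
  have b5 : 2 ^ 24 * (2 + y) ^ 2 ≤ (2 + y) ^ 24 * (2 + y) ^ 2 :=
    mul_le_mul_of_nonneg_right b2 (by positivity)
  rw [b4]
  generalize (2 + y) ^ 24 * (2 + y) ^ 2 = u at b5 ⊢
  generalize (2 + y) ^ 2 = v at b1 b3 b5 ⊢
  linarith

theorem klow_of (hK : KLStmt) : KLowStmt := by
  refine ⟨2 ^ 21, by norm_num, fun m n k l hl h1 h2 => ?_⟩
  have hone : (1 : ℝ) ≤ hm m n k l := by exact_mod_cast one_le_hm h1 h2
  have m1 : (1 : ℝ) ≤ m := by exact_mod_cast h1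
  have L0 := Real.log_nonneg m1
  set t : ℝ := l + 1 with ht
  have t0 : 0 < t := by rw [ht]; positivity
  set s : ℝ := min t (Real.sqrt (1 + Real.log m)) with hs
  have s0 : 0 < s := lt_min t0 (Real.sqrt_pos.2 (by linarith))
  have sl : s ≤ t := min_le_left _ _
  have sr : s ≤ Real.sqrt (1 + Real.log m) := min_le_right _ _
  clear_value s t
  set y : ℝ := (2 * n + k) / (t * s) with hy
  have y0 : 0 ≤ y := by rw [hy]; positivity
  clear_value y
  have lg0 : 0 < Real.log (2 + y) := Real.log_pos (by linarith)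
  have lg1 : Real.log (2 + y) ≤ 2 + y := by
    have := Real.log_le_sub_one_of_pos (show 0 < 2 + y by linarith)
    linarith
  set Φ : ℝ := min (t ^ 2) (1 + Real.log m / Real.log (2 + y)) with hΦ
  have f1 : Φ ≤ t ^ 2 := min_le_left _ _
  have f2 : Φ ≤ 1 + Real.log m / Real.log (2 + y) := min_le_right _ _
  clear_value Φ
  by_cases hs21 : Φ ≤ 2 ^ 21
  · linarith
  push Not at hs21
  set M : ℕ := ⌊Φ / 2 ^ 20⌋₊ with hM
  have M1 : (M : ℝ) ≤ Φ / 2 ^ 20 := Nat.floor_le (by positivity)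
  have M2 : Φ / 2 ^ 20 < M + 1 := Nat.lt_floor_add_one _
  have M3 : 1 ≤ M := by
    rw [hM, Nat.one_le_floor_iff, le_div_iff₀ (by norm_num)]
    linarith
  clear_value M
  have M4 : (1 : ℝ) ≤ M := by exact_mod_cast M3
  rw [le_div_iff₀ (by norm_num)] at M1
  rw [div_lt_iff₀ (by norm_num)] at M2
  set r : ℝ := Real.sqrt M with hr
  have r2 : r ^ 2 = M := Real.sq_sqrt (by positivity)
  have r1 : 1 ≤ r := Real.one_le_sqrt.2 M4
  clear_value r
  set a : ℕ := ⌈500 * r⌉₊ + 2 with ha
  have a1 : 500 * r + 2 ≤ a := by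
    have := Nat.le_ceil (500 * r)
    rw [ha]; push_cast; linarith
  have a2 : (a : ℝ) ≤ 503 * r := by
    have := Nat.ceil_lt_add_one (show 0 ≤ 500 * r by positivity)
    rw [ha]; push_cast; linarith
  have t1 : 1024 * r ≤ t := by
    refine le_of_sq_le_sq ?_ t0.le
    have : (1024 * r) ^ 2 = M * 2 ^ 20 := by rw [mul_pow, r2]; ring
    linarith
  have a3 : a ≤ l + 1 := by
    have : (a : ℝ) ≤ ((l + 1 : ℕ) : ℝ) := by push_cast; linarith
    exact_mod_cast this
  have a0 : 0 < a := by omega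
  clear_value a
  set q : ℕ := (l + 1) / a with hq
  have q1 : 1 ≤ q := (Nat.one_le_div_iff a0).2 a3
  have q2 : a ≤ (l + 1) / q := by
    rw [Nat.le_div_iff_mul_le q1, mul_comm]
    exact Nat.div_mul_le_self _ _
  have q3 : t ≤ 2 * (q * a) := by
    have h3 : l + 1 < q * a + a := Nat.lt_div_mul_add a0
    have h4 : a ≤ q * a := Nat.le_mul_of_pos_left a q1
    have h5 : l + 1 ≤ 2 * (q * a) := by omega
    rw [ht]; exact_mod_cast h5
  clear_value q
  have q0 : (0 : ℝ) < q := by exact_mod_cast q1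
  have key := hK m n k l M q hl M3 q1 ?_ (Or.inl ?_) h2
  · have : (M : ℝ) + 1 ≤ hm m n k l := by exact_mod_cast key
    linarith
  · have h3 : 500 * r + 1 ≤ (((l + 1) / q - 1 : ℕ) : ℝ) := by
      have h4 : a ≤ ((l + 1) / q - 1) + 1 := by omega
      have h5 : (a : ℝ) ≤ (((l + 1) / q - 1 : ℕ) : ℝ) + 1 := by exact_mod_cast h4
      linarith
    have h4 : 250000 * (M : ℝ) < (((l + 1) / q - 1 : ℕ) : ℝ) ^ 2 := by
      have h5 := pow_le_pow_left₀ (by positivity) h3 2
      have e : (500 * r + 1) ^ 2 = 250000 * M + 1000 * r + 1 := by rw [← r2]; ring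
      linarith
    exact_mod_cast h4
  · have s2 : s ^ 2 ≤ Φ * (2 + y) := by
      rcases min_choice (t ^ 2) (1 + Real.log m / Real.log (2 + y)) with h | h
      · rw [hΦ, h]
        have : s ^ 2 ≤ t ^ 2 := pow_le_pow_left₀ s0.le sl 2
        have e : t ^ 2 * (2 + y) = 2 * t ^ 2 + t ^ 2 * y := by ring
        linarith [sq_nonneg t, mul_nonneg (sq_nonneg t) y0]
      · rw [hΦ, h]
        have b1 : s ^ 2 ≤ 1 + Real.log m := by
          have := pow_le_pow_left₀ s0.le sr 2
          rwa [Real.sq_sqrt (by linarith)] at this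
        have b2 : Real.log m ≤ Real.log m / Real.log (2 + y) * (2 + y) := by
          rw [div_mul_eq_mul_div, le_div_iff₀ lg0]
          exact mul_le_mul_of_nonneg_left lg1 L0
        rw [add_mul]
        linarith
    have s3 : s ≤ 2048 * r * (2 + y) := num1 y0 r1 s2 (by rw [r2]; linarith)
    have n1 : (2 * n + k : ℝ) = y * (t * s) := by rw [hy]; field_simp
    have n2 : (((2 * n + k) / q + 1 : ℕ) : ℝ) ≤ 2 ^ 21 * M * (2 + y) ^ 2 + 1 := by
      have b1 : (((2 * n + k) / q : ℕ) : ℝ) ≤ ((2 * n + k : ℕ) : ℝ) / q := Nat.cast_div_le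
      have b2 : ((2 * n + k : ℕ) : ℝ) / q ≤ 2 ^ 21 * M * (2 + y) ^ 2 := by
        rw [div_le_iff₀ q0]
        push_cast
        rw [n1, ← r2]
        exact num2 y0 r1 s0 t0 q0 s3 q3 a2
      push_cast at b1 b2 ⊢
      linarith
    have n3 := num3 y0 M4 n2
    have n4 : (26 * M + 1) * Real.log (2 + y) ≤ Real.log m := by
      rw [← le_div_iff₀ lg0]
      linarith
    have n5 : (2 + y) ^ (26 * M + 1) ≤ (m : ℝ) := by
      rw [← Real.log_le_log_iff (by positivity) (by linarith), Real.log_pow]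
      push_cast
      exact n4
    calc 2 * (3 * ((((2 * n + k) / q + 1 : ℕ) : ℝ) / M + 1)) ^ M
        ≤ (2 + y) * ((2 + y) ^ 26) ^ M :=
          mul_le_mul (by linarith) (pow_le_pow_left₀ (by positivity) n3 M) (by positivity)
            (by linarith)
      _ = (2 + y) ^ (26 * M + 1) := by rw [← pow_mul]; ring
      _ ≤ m := n5

end Pool.Agent.DI
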