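import Pool.Agent.Lib.MP_d46fce_co.DI.St3

/-!
The final form of the alteration bound from its closed form and joins.
-/

namespace Pool.Agent.DI

open Pool.Agent.Lib.MP_d46fce_co

theorem km_of : KCStmt → KJStmt → KMStmt := by
  rintro ⟨C, hC, kc⟩ kj
  refine ⟨40 + 18 * C, by positivity, fun m n k l T Λ hl h1 h2 hT hΛ => ?_⟩
  have hone : (1 : ℝ) ≤ hm m n k l := by exact_mod_cast one_le_hm h1 h2
  have n1 : (1 : ℝ) ≤ n := by exact_mod_cast (show 1 ≤ n by omega)
  have m1 : (1 : ℝ) ≤ m := by exact_mod_cast h1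
  have k0 : (0 : ℝ) ≤ k := by positivity
  have l0 : (0 : ℝ) ≤ l := by positivity
  have l1 : (l : ℝ) + 1 ≤ n := by exact_mod_cast hl
  have lg2 := log_two_ge
  have lD : Real.log 2 ≤ Real.log (2 * (l + 1)) := Real.log_le_log (by norm_num) (by linarith)
  have a1 := lam_lower hl h1 h2
  rw [← hΛ] at a1
  have hCh : 0 ≤ C * hm m n k l := by positivity
  rw [add_mul, mul_assoc]
  have a2 := fun x => kc m n k l x hl h1 h2
  rw [← hT] at a2
  set D := Real.log (2 * (l + 1)) with hD
  have D0 : 0 < D := by linarith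
  set f : ℝ := (2 * n + k) / n with hf
  have f0 : 0 < f := by positivity
  have f1 : f * n = 2 * n + k := by rw [hf]; field_simp
  set ℓ := Real.log (2 + n / (k + l + 1)) with hℓ
  have ℓ0 : Real.log 2 ≤ ℓ := Real.log_le_log (by norm_num)
    (by rw [le_add_iff_nonneg_right]; positivity)
  have ℓ1 : 0 < ℓ := by linarith
  rcases le_total (Λ / ℓ) (k + l + 1) with hX | hX
  · rw [min_eq_right (by linarith)] at a1
    linarith [min_le_right (T / D) (1 + Λ / ℓ)]
  rcases le_or_gt k n with hk | hk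
  · have hk' : (k : ℝ) ≤ n := by exact_mod_cast hk
    have b1 := flog_le_three m1 f0 (by rw [hf, div_le_iff₀ (by linarith)]; linarith)
    rw [← hΛ] at b1
    have b2 : Λ / ℓ ≤ 3 * (Real.log m / ℓ) + 3 := by
      rw [← mul_div_assoc, div_add' _ _ _ ℓ1.ne']
      exact div_le_div_of_nonneg_right (by linarith) ℓ1.le
    have b3 : 0 ≤ Real.log m / ℓ := div_nonneg (Real.log_nonneg m1) ℓ1.le
    have b4 := a2 _ (min_le_left _ (1 + Real.log m / ℓ)) (Or.inl (min_le_right _ _))
    rcases min_choice (T / D) (1 + Real.log m / ℓ) with h | h <;> rw [h] at b4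
    · linarith [min_le_left (T / D) (1 + Λ / ℓ)]
    · linarith [min_le_right (T / D) (1 + Λ / ℓ)]
  have hk' : (n : ℝ) + 1 ≤ k := by exact_mod_cast hk
  rw [le_div_iff₀ ℓ1] at hX
  have b1 : 0.69 * (k + l + 1) ≤ Λ := by
    linarith [mul_le_mul_of_nonneg_left (lg2.trans ℓ0) (show (0 : ℝ) ≤ k + l + 1 by positivity)]
  have b2 : Λ ≤ m := by
    have := Real.log_le_sub_one_of_pos (show 0 < 1 + m / f by positivity)
    rw [hΛ]
    refine (mul_le_mul_of_nonneg_left this f0.le).trans (le_of_eq ?_)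
    field_simp; ring
  obtain ⟨j, hj⟩ : ∃ j, j = (2 * n + k) / (2 * n + n) := ⟨_, rfl⟩
  have j1 : 1 ≤ j := hj ▸ (Nat.le_div_iff_mul_le (by omega)).2 (by omega)
  have j2 : j * (2 * n + n) ≤ 2 * n + k := hj ▸ Nat.div_mul_le_self _ _
  have j3 : 2 * n + k < (j + 1) * (2 * n + n) := by
    rw [hj, mul_comm (_ + 1)]
    exact Nat.lt_mul_div_succ _ (by omega)
  have j1' : (1 : ℝ) ≤ j := by exact_mod_cast j1
  have j2' : (j : ℝ) * (2 * n + n) ≤ 2 * n + k := by exact_mod_cast j2
  have j3' : (2 * n + k : ℝ) < (j + 1) * (2 * n + n) := by exact_mod_cast j3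
  have j0 : (n : ℝ) ≤ j * n := le_mul_of_one_le_left (by linarith) j1'
  have j4 : (2 * n + k : ℝ) ≤ 6 * j * n := by linarith
  have j5 : f ≤ 6 * j := by rw [hf, div_le_iff₀ (by linarith)]; exact j4
  have j6 : j ≤ m := by
    have c1 : (j : ℝ) * 3 * n ≤ (2 + k) * n := by linarith [le_mul_of_one_le_right k0 n1]
    have c2 : (j : ℝ) * 3 ≤ 2 + k := le_of_mul_le_mul_right c1 (by linarith)
    have c3 : (j : ℝ) ≤ m := by linarith
    exact_mod_cast c3
  obtain ⟨p, hp⟩ : ∃ p, p = min (m / j) ((2 * n + n).choose n) := ⟨_, rfl⟩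
  have p1 : 1 ≤ p := hp ▸ le_min ((Nat.le_div_iff_mul_le (by omega)).2 (by omega))
    (Nat.choose_pos (by omega))
  have p2 : p ≤ (2 * n + n).choose n := hp ▸ min_le_right _ _
  have p3 : j * p ≤ m := (Nat.mul_le_mul_left j (hp ▸ min_le_left _ _)).trans (Nat.mul_div_le _ _)
  have c1 : (j : ℝ) * hm p n n l ≤ hm m n k l := by
    exact_mod_cast kj m p n k n l j (by omega) j2 p3 h2 p2
  have c2 : (j : ℝ) * (C * hm p n n l) ≤ C * hm m n k l := by
    rw [mul_left_comm]
    exact mul_le_mul_of_nonneg_left c1 hC.le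
  have c3 := fun x => kc p n n l x hl p1 p2
  rw [← hD] at c3
  have c4 : (l + 1) * (n + l + 1) / D ≤ C * hm p n n l →
      min (T / D) (1 + Λ / ℓ) ≤ 40 * hm m n k l + 18 * (C * hm m n k l) := fun h => by
    have d1 : T / D ≤ 6 * (j * ((l + 1) * (n + l + 1) / D)) := by
      rw [← mul_div_assoc, ← mul_div_assoc, hT]
      refine div_le_div_of_nonneg_right ?_ D0.le
      have : (k : ℝ) + l + 1 ≤ 6 * (j * (n + l + 1)) := by
        linarith [mul_nonneg (show (0 : ℝ) ≤ j by positivity) l0]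
      linarith [mul_le_mul_of_nonneg_left this (show (0 : ℝ) ≤ l + 1 by positivity)]
    have d2 := mul_le_mul_of_nonneg_left h (show (0 : ℝ) ≤ j by positivity)
    linarith [min_le_left (T / D) (1 + Λ / ℓ)]
  rcases min_choice (m / j) ((2 * n + n).choose n) with h | h
  swap
  · exact c4 (c3 _ le_rfl (Or.inr (hp.trans h)))
  have p1' : (1 : ℝ) ≤ p := by exact_mod_cast p1
  have p4 : (m : ℝ) ≤ j * (p + 1) := by
    rw [hp, h]
    exact_mod_cast (Nat.lt_mul_div_succ m (by omega : 0 < j)).le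
  set q := Real.log (2 + n / (n + l + 1)) with hq
  have q0 : Real.log 2 ≤ q := Real.log_le_log (by norm_num)
    (by rw [le_add_iff_nonneg_right]; positivity)
  have q1 : q ≤ 2 := by
    have e1 := Real.log_le_sub_one_of_pos (show (0 : ℝ) < 2 + n / (n + l + 1) by positivity)
    have e2 : (n : ℝ) / (n + l + 1) ≤ 1 := by rw [div_le_one (by linarith)]; linarith
    linarith
  have c5 := c3 _ (min_le_left _ (1 + Real.log p / q)) (Or.inl (min_le_right _ _))
  rcases min_choice ((l + 1) * (n + l + 1) / D) (1 + Real.log p / q) with g | g <;> rw [g] at c5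
  · exact c4 c5
  have d0 : 0 ≤ Real.log p := Real.log_nonneg p1'
  have d1 : Real.log p / 2 ≤ Real.log p / q := div_le_div_of_nonneg_left d0 (by linarith) q1
  have d2 := flog_mono (m := m) (by linarith) f0 j5
  rw [← hΛ] at d2
  have d3 : Real.log (1 + m / (6 * j)) ≤ Real.log 2 + Real.log p := by
    rw [← Real.log_mul (by norm_num) (by linarith)]
    refine Real.log_le_log (by positivity) ?_
    have : (m : ℝ) / (6 * j) ≤ (p + 1) / 6 := by
      rw [div_le_div_iff₀ (by linarith) (by norm_num)]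
      linarith
    linarith
  have d4 : Real.log 2 ≤ 1 := by linarith [Real.log_two_lt_d9]
  have d5 : Real.log (1 + m / (6 * j)) ≤ 2 * (C * hm p n n l) := by linarith
  have d6 := mul_le_mul_of_nonneg_left d5 (show (0 : ℝ) ≤ 6 * j by positivity)
  have d7 : Λ / ℓ ≤ 18 * (C * hm m n k l) := by
    rw [div_le_iff₀ ℓ1]
    have := mul_le_mul_of_nonneg_left (lg2.trans ℓ0) hCh
    linarith
  linarith [min_le_right (T / D) (1 + Λ / ℓ)]

end Pool.Agent.DI
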