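import Pool.Agent.Lib.MP_d46fce_co.DI.St2

/-! The upper bound for `h_m(n; k, l)` at the scale `n / (u √(log m))`: few far-apart classes are
mixed by random integer weights into two colours. -/

set_option autoImplicit false

namespace Pool.Agent.DI

open Finset Pool.Agent.Lib.MP_d46fce_co

namespace KU

theorem chain_ind {m n k l : ℕ} (h1 : 1 ≤ m) (h : 120000 * (k + l + 1) ≤ 2 * n + k)
    (hx : 13000000 * (k + l + 1 : ℝ) ^ 2 * Real.log (2 * m) ≤ (2 * n + k) ^ 2)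
    (W : Finset (Vtx n k)) (hW : W.card ≤ m) : ∃ I ⊆ W,
      (∀ u ∈ I, ∀ v ∈ I, ¬ (genKneser n k l).Adj u v) ∧ Real.exp (-99) * W.card ≤ I.card := by
  have hN : ((2 * n + k : ℕ) : ℝ) = 2 * n + k := by push_cast; ring
  set N : ℝ := 2 * n + k with hN'
  set u : ℝ := k + l + 1 with hu
  have l1 : (0 : ℝ) ≤ l := by positivity
  have k0 : (0 : ℝ) ≤ k := by positivity
  have u2 : 1 ≤ u := by linarith
  have h' : 120000 * u ≤ N := by rw [hu, hN']; exact_mod_cast h
  have N0 : 0 < N := by linarith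
  have m1 : (1 : ℝ) ≤ m := by exact_mod_cast h1
  have lg0 : 0 < Real.log (2 * m) := Real.log_pos (by linarith)
  set J := ⌊N / (101376 * u)⌋₊ with hJ
  have j1 : (J : ℝ) ≤ N / (101376 * u) := Nat.floor_le (by positivity)
  have j2 : N / (101376 * u) < J + 1 := Nat.lt_floor_add_one _
  have j3 : 1 ≤ J := Nat.le_floor (by
    rw [Nat.cast_one, le_div_iff₀ (by positivity)]; linarith)
  have j4 : (1 : ℝ) ≤ J := by exact_mod_cast j3
  have j5 : 256 * J * (4 * u) * 99 ≤ N := by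
    rw [le_div_iff₀ (by positivity)] at j1; linarith
  have j6 : N ≤ 202752 * u * J := by
    rw [div_lt_iff₀ (by positivity)] at j2; nlinarith
  have j7 : 0 < 256 * J * (4 * u) := by positivity
  have θ2 : Real.sqrt (1 * (2 * n + k : ℕ)) ^ 2 = N := by
    rw [hN, one_mul]; exact Real.sq_sqrt (by positivity)
  refine chain (genKneser n k l) chi abs_chi (4 * u) (by positivity)
    (fun A B hAB => (chi_adj A B hAB).trans (by linarith)) W (Real.sqrt (1 * (2 * n + k : ℕ)))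
    _ J j3 (Real.exp_pos _) (Real.sqrt_pos.2 (by rw [hN]; positivity))
    (fun v _ => by
      simpa only [mul_one] using anti_signs _ (abs_chi v) 1 le_rfl (by rw [hN]; linarith)) ?_ ?_ ?_
  · rw [θ2]; nlinarith
  · rw [θ2, ← Real.exp_add, Real.one_le_exp_iff, ← sub_eq_neg_add, sub_nonneg, le_div_iff₀ j7]
    nlinarith
  · rw [θ2]
    have a1 : Real.log (2 * W.card) ≤ Real.log (2 * m) := by
      rcases Nat.eq_zero_or_pos W.card with h0 | h0
      · rw [h0]; simpa using lg0.le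
      · have : (0 : ℝ) < W.card := by exact_mod_cast h0
        exact Real.log_le_log (by positivity) (by
          have : (W.card : ℝ) ≤ m := by exact_mod_cast hW
          linarith)
    have a3 := mul_le_mul_of_nonneg_left j6 N0.le
    refine lt_of_mul_lt_mul_left (a := 202752 * u) ?_ (by positivity)
    have a5 : 0 < u ^ 2 * Real.log (2 * m) := by positivity
    have a6 := mul_le_mul_of_nonneg_left a1 (show 0 ≤ u ^ 2 by positivity)
    nlinarith

theorem greedy2 {V : Type} [DecidableEq V] (G : SimpleGraph V) (m : ℕ) (ε : ℝ) (h0 : 0 ≤ ε)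
    (h : ∀ W : Finset V, W.card ≤ m → ∃ R ⊆ W, (R.card : ℝ) ≤ W.card * ε ∧ ∃ b : V → Fin 2,
      ∀ u ∈ W \ R, ∀ v ∈ W \ R, G.Adj u v → b u ≠ b v) (s : ℕ) :
    ∀ W : Finset V, W.card ≤ m → ∃ R ⊆ W, (R.card : ℝ) ≤ W.card * ε ^ s ∧
      ∃ c : V → ℕ, (∀ v ∈ W \ R, c v < 2 * s) ∧
        ∀ u ∈ W \ R, ∀ v ∈ W \ R, G.Adj u v → c u ≠ c v := by
  induction s with
  | zero => exact fun W _ => ⟨W, le_rfl, by simp, fun _ => 0, by simp, by simp⟩
  | succ s ih =>
    intro W hW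
    obtain ⟨I, i1, i2, b, i3⟩ := h W hW
    obtain ⟨R, r1, r2, c, c1, c2⟩ := ih I ((card_le_card i1).trans hW)
    have m1 : ∀ v ∈ W \ R, v ∈ I → v ∈ I \ R := fun v hv h => mem_sdiff.2 ⟨h, (mem_sdiff.1 hv).2⟩
    have m2 : ∀ v ∈ W \ R, v ∉ I → v ∈ W \ I := fun v hv h => mem_sdiff.2 ⟨(mem_sdiff.1 hv).1, h⟩
    refine ⟨R, r1.trans i1, r2.trans ?_, fun v => if v ∈ I then c v else 2 * s + b v,
      fun v hv => ?_, fun u hu v hv huv => ?_⟩
    · rw [pow_succ', ← mul_assoc]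
      exact mul_le_mul_of_nonneg_right i2 (pow_nonneg h0 s)
    · dsimp only
      split_ifs with h
      · have := c1 v (m1 v hv h); omega
      · omega
    · dsimp only
      split_ifs with h1 h2 h2
      · exact c2 u (m1 u hu h1) v (m1 v hv h2) huv
      · have := c1 u (m1 u hu h1); omega
      · have := c1 v (m1 v hv h2); omega
      · have := i3 u (m2 u hu h1) v (m2 v hv h2) huv
        omega

theorem few {z R : ℕ} {D c : ℤ} (D0 : 0 < D) :
    (univ.filter fun t : Fin z => |(t : ℕ) * D + c| ≤ R * D).card ≤ 2 * R + 1 := by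
  set S := univ.filter fun t : Fin z => |(t : ℕ) * D + c| ≤ R * D
  rcases S.eq_empty_or_nonempty with e | e
  · simp [e]
  obtain ⟨a, ha, h⟩ := exists_min_image S (fun t => (t : ℕ)) e
  refine (card_le_card_of_injOn (s := S) (t := Icc (a : ℕ) (a + 2 * R)) Fin.val (fun t ht => ?_)
    Fin.val_injective.injOn).trans (by simp; omega)
  have b1 := abs_le.1 (mem_filter.1 ha).2
  have b2 := abs_le.1 (mem_filter.1 ht).2
  have : ((t : ℕ) : ℤ) ≤ (a : ℕ) + 2 * R := le_of_mul_le_mul_right (by linarith) D0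
  exact mem_coe.2 (mem_Icc.2 ⟨h t ht, by omega⟩)

theorem line {z R : ℕ} {D : ℤ} (D0 : 0 < D) (φ : Fin R → ℤ) (i : Fin R) (hi : φ i = D) :
    (univ.filter fun γ : Fin R → Fin z => |∑ j, (γ j : ℕ) * φ j| ≤ R * D).card * z ≤
      Fintype.card (Fin R → Fin z) * (2 * R + 1) := by
  have inv : Function.Involutive fun x : (Fin R → Fin z) × Fin z =>
      (Function.update x.1 i x.2, x.1 i) := fun x => by simp
  have e := Equiv.sum_comp inv.toPerm
    fun x => if |∑ j, (x.1 j : ℕ) * φ j| ≤ R * D then 1 else 0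
  rw [Fintype.sum_prod_type, Fintype.sum_prod_type] at e
  simp only [sum_const, card_univ, Fintype.card_fin, smul_eq_mul, ← mul_sum, ← card_filter] at e
  rw [mul_comm, ← e, ← card_univ, ← smul_eq_mul _ (2 * R + 1)]
  refine sum_le_card_nsmul _ _ _ fun γ _ => le_of_eq_of_le ?_
    (few (z := z) (c := ∑ j ∈ univ.erase i, (γ j : ℕ) * φ j) D0)
  refine congrArg card (filter_congr fun t _ => ?_)
  rw [← add_sum_erase _ _ (mem_univ i), sum_congr rfl (g := fun j => ((γ j : ℕ) : ℤ) * φ j)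
    fun j hj => by simp [ne_of_mem_erase hj]]
  simp [hi]

theorem mix {V : Type} [DecidableEq V] {z R : ℕ} {D : ℤ} (D0 : 0 < D) (z0 : 0 < z) (S : Finset V)
    (φ : Fin R → V → ℤ) (h : ∀ A ∈ S, ∃ i, φ i A = D) : ∃ γ : Fin R → Fin z,
      (S.filter fun A => |∑ j, (γ j : ℕ) * φ j A| ≤ R * D).card * z ≤ S.card * (2 * R + 1) := by
  have : Nonempty (Fin z) := ⟨⟨0, z0⟩⟩
  obtain ⟨γ, -, e⟩ := exists_le_of_sum_le (s := univ) (g := fun _ => S.card * (2 * R + 1))
    (f := fun γ : Fin R → Fin z => (S.filter fun A => |∑ j, (γ j : ℕ) * φ j A| ≤ R * D).card * z)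
    univ_nonempty (by
      simp only [card_filter, sum_mul]
      rw [sum_comm, sum_const, card_univ, smul_eq_mul, mul_left_comm, ← smul_eq_mul S.card]
      refine sum_le_card_nsmul _ _ _ fun A hA => ?_
      obtain ⟨i, hi⟩ := h A hA
      simpa only [card_filter, sum_mul] using line (z := z) D0 (fun j => φ j A) i hi)
  exact ⟨γ, e⟩

variable {n k : ℕ}

/-- the least intersection of `X` with a member of the family, cut off at `D` -/
def dm (D : ℕ) (S : Finset (Vtx n k)) (X : Finset (Fin (2 * n + k))) : ℕ :=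
  S.fold min D fun F => (F.1 ∩ X).card

theorem dm_le {D a : ℕ} {S : Finset (Vtx n k)} {X Y Z : Finset (Fin (2 * n + k))}
    (h : X ⊆ Y ∪ Z) (hZ : Z.card ≤ a) : dm D S X ≤ dm D S Y + a := by
  rcases (fold_min_le (dm D S Y)).1 le_rfl with e | ⟨F, hF, e⟩
  · exact (fold_min_le _).2 (.inl (by omega))
  · refine (fold_min_le _).2 (.inr ⟨F, hF, ?_⟩)
    have : F.1 ∩ X ⊆ F.1 ∩ Y ∪ Z := fun x hx => by
      have := h (mem_inter.1 hx).2
      simp only [mem_union, mem_inter] at *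
      tauto
    have := (card_le_card this).trans (card_union_le _ _)
    omega

theorem dm_adj {D l : ℕ} (S : Finset (Vtx n k)) {A B : Vtx n k} (h : (A.1 ∩ B.1).card ≤ l) :
    dm D S A.1 ≤ dm D S B.1ᶜ + (k + l) ∧ dm D S B.1ᶜ ≤ dm D S A.1 + (k + l) := by
  have h1 := card_union_add_card_inter A.1 B.1
  have h2 := card_add_card_compl (A.1 ∪ B.1)
  rw [A.2, B.2] at h1
  rw [Fintype.card_fin] at h2
  refine ⟨dm_le (Z := A.1 ∩ B.1) (fun x hx => ?_) (by omega),
    dm_le (Z := (A.1 ∪ B.1)ᶜ) (fun x hx => ?_) (by omega)⟩ <;>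
  simp only [mem_union, mem_inter, mem_compl] at * <;> tauto

theorem round {m l L z : ℕ} (R : ℕ) {p : ℝ} (hp : p ≤ 1) (z0 : 0 < z)
    (hL : L + 1 = z * (k + l + 1)) (hn : L < n)
    (h : ∀ W : Finset (Vtx n k), W.card ≤ m → ∃ I ⊆ W,
      (∀ u ∈ I, ∀ v ∈ I, ¬ (genKneser n k L).Adj u v) ∧ p * W.card ≤ I.card)
    (W : Finset (Vtx n k)) (hW : W.card ≤ m) :
    ∃ Q ⊆ W, (Q.card : ℝ) ≤ W.card * ((1 - p) ^ R + (2 * R + 1) / z) ∧ ∃ b : Vtx n k → Fin 2,
      ∀ u ∈ W \ Q, ∀ v ∈ W \ Q, (genKneser n k l).Adj u v → b u ≠ b v := by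
  obtain ⟨Q, q1, q2, c, c1, c2⟩ := greedy_aux _ m p hp h R W hW
  let S : Fin R → Finset (Vtx n k) := fun i => (W \ Q).filter fun A => c A = i
  let φ : Fin R → Vtx n k → ℤ := fun i A => dm (L + 1) (S i) A.1 - dm (L + 1) (S i) A.1ᶜ
  obtain ⟨γ, hγ⟩ := mix (D := (L + 1 : ℕ)) (by omega) z0 (W \ Q) φ fun A hA => by
    refine ⟨⟨c A, c1 A hA⟩, ?_⟩
    have a1 : dm (L + 1) (S ⟨c A, c1 A hA⟩) A.1 ≤ L + 1 := (fold_min_le _).2 (.inl le_rfl)
    have a2 : L + 1 ≤ dm (L + 1) (S ⟨c A, c1 A hA⟩) A.1 :=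
      (le_fold_min _).2 ⟨le_rfl, fun F hF => by
        obtain ⟨f1, f2⟩ := mem_filter.1 hF
        by_cases e : F = A
        · rw [e, inter_self, A.2]
          exact hn
        · by_contra! e'
          exact c2 F f1 A hA ⟨e, by omega⟩ f2⟩
    have a3 : dm (L + 1) (S ⟨c A, c1 A hA⟩) A.1ᶜ ≤ 0 :=
      (fold_min_le _).2 (.inr ⟨A, mem_filter.2 ⟨hA, rfl⟩, by simp⟩)
    simp only [φ]
    omega
  set B := (W \ Q).filter fun A => |∑ j, (γ j : ℕ) * φ j A| ≤ R * ((L + 1 : ℕ) : ℤ)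
  refine ⟨Q ∪ B, union_subset q1 ((filter_subset _ _).trans sdiff_subset), ?_,
    fun A => if 0 < ∑ j, (γ j : ℕ) * φ j A then 1 else 0, fun u hu v hv e => ?_⟩
  · have b1 : ((Q ∪ B).card : ℝ) ≤ Q.card + B.card := by exact_mod_cast card_union_le _ _
    have b2 : (B.card : ℝ) * z ≤ W.card * (2 * R + 1) := by
      exact_mod_cast hγ.trans (Nat.mul_le_mul_right _ (card_le_card sdiff_subset))
    rw [← le_div_iff₀ (by positivity), mul_div_assoc] at b2
    linarith
  · have o : ∀ A ∈ W \ (Q ∪ B), R * ((L + 1 : ℕ) : ℤ) < |∑ j, (γ j : ℕ) * φ j A| := fun A hA => by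
      by_contra! h
      simp only [mem_sdiff, mem_union, not_or] at hA
      exact hA.2.2 (mem_filter.2 ⟨mem_sdiff.2 ⟨hA.1, hA.2.1⟩, h⟩)
    have b : |∑ j, (γ j : ℕ) * φ j u + ∑ j, (γ j : ℕ) * φ j v| ≤ R * (2 * ((L + 1 : ℕ) : ℤ)) := by
      rw [← sum_add_distrib]
      refine (abs_sum_le_sum_abs _ _).trans ((sum_le_card_nsmul _ _ _ fun j _ => ?_).trans_eq
        (by rw [card_univ, Fintype.card_fin, nsmul_eq_mul]))
      have d1 := dm_adj (D := L + 1) (S j) e.2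
      have d2 := dm_adj (D := L + 1) (S j) e.symm.2
      have d3 : |φ j u + φ j v| ≤ 2 * (k + l + 1) := by
        simp only [φ]
        exact abs_le.2 ⟨by omega, by omega⟩
      have d4 : ((γ j : ℕ) : ℤ) ≤ z := by exact_mod_cast (γ j).2.le
      rw [← mul_add, abs_mul, Nat.abs_cast, hL]
      refine (mul_le_mul d4 d3 (abs_nonneg _) (by positivity)).trans_eq ?_
      push_cast
      ring
    have o1 := lt_abs.1 (o u hu)
    have o2 := lt_abs.1 (o v hv)
    have o3 : 0 ≤ R * ((L + 1 : ℕ) : ℤ) := by positivity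
    rw [abs_le, mul_left_comm] at b
    dsimp only
    split_ifs <;> first | decide | omega

end KU

open KU in
theorem ku_thm : KUStmt := by
  obtain ⟨K, hK⟩ : ∃ K, K = Real.exp 99 := ⟨_, rfl⟩
  have K1 : 100 ≤ K := by linarith [Real.add_one_le_exp 99]
  refine ⟨8, 120000 * ((8 * K + 4) ^ 4 + 1), by norm_num,
    fun m n k l Λ y hl h1 _ hΛ hy y0 => ?_⟩
  have m1 : (1 : ℝ) ≤ m := by exact_mod_cast h1
  have Λ0 : 0 < Λ := (Real.log_pos (by linarith)).trans_le hΛ
  obtain ⟨σ, hσ⟩ : ∃ σ, σ = Real.sqrt (1 + Λ) := ⟨_, rfl⟩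
  have s1 : 1 ≤ σ := hσ ▸ Real.one_le_sqrt.2 (by linarith)
  have s2 : σ ^ 2 = 1 + Λ := hσ ▸ Real.sq_sqrt (by linarith)
  rw [← hσ, eq_div_iff (by positivity)] at hy
  have Z0 : 0 < (8 * K + 4) ^ 4 := by positivity
  obtain ⟨z, hz⟩ : ∃ z, z = ⌊y / 120000⌋₊ := ⟨_, rfl⟩
  have z1 : (z : ℝ) ≤ y / 120000 := hz ▸ Nat.floor_le (by linarith)
  have z2 : y / 120000 < z + 1 := hz ▸ Nat.lt_floor_add_one _
  have z3 : (0 : ℝ) < z := by linarith
  have z0 : 0 < z := by exact_mod_cast z3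
  obtain ⟨w, w0, hw⟩ : ∃ w : ℝ, 0 ≤ w ∧ w ^ 4 = z := ⟨Real.sqrt (Real.sqrt z), Real.sqrt_nonneg _, by
    rw [show 4 = 2 * 2 from rfl, pow_mul, Real.sq_sqrt (Real.sqrt_nonneg _), Real.sq_sqrt z3.le]⟩
  have w1 : 8 * K + 4 ≤ w := le_of_pow_le_pow_left₀ four_ne_zero w0 (by linarith)
  have l0 : 0 < Real.log w := Real.log_pos (by linarith)
  obtain ⟨L, hL⟩ : ∃ L, L + 1 = z * (k + l + 1) :=
    ⟨z * (k + l + 1) - 1, Nat.sub_add_cancel (Nat.mul_pos z0 (by omega))⟩
  have a1 : 120000 * (k + L + 1 : ℝ) * σ ≤ 2 * n := by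
    have b1 : k + L + 1 ≤ 2 * (z * (k + l + 1)) := by
      have := Nat.le_mul_of_pos_left (k + l + 1) z0
      omega
    have b2 : (k + L + 1 : ℝ) ≤ 2 * (z * (k + l + 1)) := by exact_mod_cast b1
    have b3 := mul_le_mul_of_nonneg_right z1 (show (0 : ℝ) ≤ k + l + 1 by positivity)
    rw [← hy, ← mul_assoc, ← mul_assoc]
    exact mul_le_mul_of_nonneg_right (by linarith) (by linarith)
  have a2 : 120000 * (k + L + 1) ≤ 2 * n := by
    exact_mod_cast (le_mul_of_one_le_right (by positivity) s1).trans a1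
  have a3 : 13000000 * (k + L + 1 : ℝ) ^ 2 * Real.log (2 * m) ≤ (2 * n + k) ^ 2 := by
    have b1 : Real.log (2 * m) ≤ σ ^ 2 := by
      rw [Real.log_mul two_ne_zero (by linarith)]
      linarith [Real.log_two_lt_d9, Real.log_le_log (by linarith) (show (m : ℝ) ≤ 1 + m by linarith)]
    have b2 := pow_le_pow_left₀ (by positivity) (a1.trans (le_add_of_nonneg_right k.cast_nonneg)) 2
    have b3 := mul_le_mul_of_nonneg_left b1 (sq_nonneg (k + L + 1 : ℝ))
    have b4 : 0 ≤ (k + L + 1 : ℝ) ^ 2 * σ ^ 2 := by positivity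
    nlinarith
  obtain ⟨R, hR⟩ : ∃ R, R = ⌈K * (4 * Real.log w)⌉₊ := ⟨_, rfl⟩
  have r1 : K * (4 * Real.log w) ≤ R := hR ▸ Nat.le_ceil _
  have r2 : (R : ℝ) < K * (4 * Real.log w) + 1 := hR ▸ Nat.ceil_lt_add_one (by positivity)
  have p1 : Real.exp (-99) ≤ 1 := Real.exp_le_one_iff.2 (by norm_num)
  have e1 : (1 - Real.exp (-99)) ^ R ≤ 1 / z := by
    calc _ ≤ Real.exp (-Real.exp (-99)) ^ R :=
          pow_le_pow_left₀ (by linarith) (by linarith [Real.add_one_le_exp (-Real.exp (-99))]) R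
      _ = Real.exp (-(Real.exp (-99) * R)) := by rw [← Real.exp_nat_mul]; congr 1; ring
      _ ≤ Real.exp (-((4 : ℕ) * Real.log w)) := by
          refine Real.exp_le_exp.2 (neg_le_neg ?_)
          have := mul_le_mul_of_nonneg_left r1 (Real.exp_pos (-99)).le
          rwa [hK, ← mul_assoc, ← Real.exp_add, neg_add_cancel, Real.exp_zero, one_mul] at this
      _ = _ := by rw [Real.exp_neg, Real.exp_nat_mul, Real.exp_log (by linarith), hw, one_div]
  have e2 : (1 - Real.exp (-99)) ^ R + (2 * R + 1) / z ≤ Real.exp (-((2 : ℕ) * Real.log w)) := by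
    refine (add_le_add e1 le_rfl).trans ?_
    have b1 : Real.log w ≤ w := (Real.log_le_sub_one_of_pos (by linarith)).trans (by linarith)
    have b2 : 1 + (2 * (R : ℝ) + 1) ≤ w ^ 2 := by nlinarith
    rw [Real.exp_neg, Real.exp_nat_mul, Real.exp_log (by linarith), ← add_div, ← one_div,
      div_le_div_iff₀ z3 (pow_pos (by linarith) 2), ← hw]
    nlinarith [mul_le_mul_of_nonneg_right b2 (sq_nonneg w)]
  obtain ⟨s, hs⟩ : ∃ s, s = ⌈Λ / (2 * Real.log w)⌉₊ := ⟨_, rfl⟩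
  have t1 : Λ / (2 * Real.log w) ≤ s := hs ▸ Nat.le_ceil _
  have t2 : (s : ℝ) < Λ / (2 * Real.log w) + 1 := hs ▸ Nat.ceil_lt_add_one (by positivity)
  have key : hm m n k l ≤ 2 * s := hm_le fun W hW => by
    obtain ⟨Q, -, q2, c, c1, c2⟩ := greedy2 (genKneser n k l) m _ (Real.exp_pos _).le
      (fun W hW => by
        obtain ⟨Q, q1, q2, q3⟩ := round (l := l) R p1 z0 hL (by omega)
          (chain_ind h1 (by omega) a3) W hW
        exact ⟨Q, q1, q2.trans (mul_le_mul_of_nonneg_left e2 (by positivity)), q3⟩) s W hW.le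
    have b1 : Real.exp (-((2 : ℕ) * Real.log w)) ^ s ≤ (1 + (m : ℝ))⁻¹ := by
      rw [← Real.exp_nat_mul, ← Real.exp_log (show (0 : ℝ) < 1 + m by linarith), ← Real.exp_neg]
      rw [div_le_iff₀ (by positivity)] at t1
      exact Real.exp_le_exp.2 (by push_cast; linarith)
    have b2 : (Q.card : ℝ) < 1 := by
      rw [hW] at q2
      refine (q2.trans (mul_le_mul_of_nonneg_left b1 (by positivity))).trans_lt ?_
      rw [← div_eq_mul_inv, div_lt_one (by linarith)]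
      linarith
    obtain rfl : Q = ∅ := card_eq_zero.1 (Nat.lt_one_iff.1 (by exact_mod_cast b2))
    rw [sdiff_empty] at c1 c2
    exact ⟨c, c1, c2⟩
  have key' : (hm m n k l : ℝ) ≤ 2 * s := by exact_mod_cast key
  have g0 : 0 < Real.log (2 + y) := Real.log_pos (by linarith)
  have g1 : Real.log (2 + y) ≤ (8 : ℕ) * Real.log w := by
    rw [← Real.log_pow, show 8 = 4 * 2 from rfl, pow_mul, hw]
    have : (804 : ℝ) ^ 4 ≤ z := hw ▸ pow_le_pow_left₀ (by norm_num) (by linarith) 4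
    exact Real.log_le_log (by linarith) (by nlinarith)
  have g2 : Λ / (2 * Real.log w) ≤ 4 * (Λ / Real.log (2 + y)) := by
    rw [← mul_div_assoc, div_le_div_iff₀ (by positivity) g0]
    push_cast at g1
    nlinarith
  linarith

end Pool.Agent.DI
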