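import Mathlib

/-!
Operator norm tools: a Cauchy-Schwarz bound for sums and the gauge lemma for commutators with
Lipschitz functions on a bipartite graph.
-/

namespace Pool.Agent.DI

open Matrix
open scoped Matrix.Norms.L2Operator

variable {V : Type} [Fintype V] [DecidableEq V]

theorem mv_le (X : Matrix V V ℝ) (f : V → ℝ) :
    ∑ c, (X *ᵥ f) c ^ 2 ≤ ‖X‖ ^ 2 * ∑ c, f c ^ 2 := by
  have h := l2_opNorm_mulVec X (WithLp.toLp 2 f)
  have h2 := pow_le_pow_left₀ (norm_nonneg _) h 2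
  rw [mul_pow, EuclideanSpace.norm_sq_eq, EuclideanSpace.norm_sq_eq] at h2
  simpa using h2

theorem norm_le_of (X : Matrix V V ℝ) (C : ℝ) (hC : 0 ≤ C)
    (h : ∀ f : V → ℝ, ∑ c, (X *ᵥ f) c ^ 2 ≤ C ^ 2 * ∑ c, f c ^ 2) : ‖X‖ ≤ C := by
  rw [← l2_opNorm_toEuclideanCLM]
  refine ContinuousLinearMap.opNorm_le_bound _ hC fun x => ?_
  refine (sq_le_sq₀ (by positivity) (by positivity)).mp ?_
  rw [mul_pow, EuclideanSpace.norm_sq_eq, EuclideanSpace.norm_sq_eq]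
  simpa using h x

theorem dg_le (a : V → ℝ) (C : ℝ) (hC : 0 ≤ C) (h : ∀ c, |a c| ≤ C) :
    ‖(diagonal a : Matrix V V ℝ)‖ ≤ C := by
  rw [l2_opNorm_diagonal]
  exact (pi_norm_le_iff_of_nonneg hC).2 h

theorem cs {I : Type} [Fintype I] (a b : I → V → ℝ) (Y : I → Matrix V V ℝ) (α β y : ℝ)
    (hα : 0 < α) (hβ : 0 ≤ β) (hy : 0 ≤ y) (ha : ∀ c, ∑ m, a m c ^ 2 ≤ α ^ 2)
    (hb : ∀ c, ∑ m, b m c ^ 2 ≤ β ^ 2) (hY : ∀ m, ‖Y m‖ ≤ y) :
    ‖∑ m, diagonal (a m) * Y m * diagonal (b m)‖ ≤ α * y * β := by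
  refine norm_le_of _ _ (by positivity) fun f => ?_
  set u : I → V → ℝ := fun m => Y m *ᵥ (fun c => b m c * f c) with hu
  have e : ∀ c, ((∑ m, diagonal (a m) * Y m * diagonal (b m)) *ᵥ f) c = ∑ m, a m c * u m c := by
    intro c
    rw [Matrix.sum_mulVec, Finset.sum_apply]
    refine Finset.sum_congr rfl fun m _ => ?_
    rw [← mulVec_mulVec, ← mulVec_mulVec, mulVec_diagonal]
    congr 2
    ext c'
    rw [mulVec_diagonal]
  have h1 : ∀ c, (∑ m, a m c * u m c) ^ 2 ≤ α ^ 2 * ∑ m, u m c ^ 2 := fun c =>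
    (Finset.sum_mul_sq_le_sq_mul_sq _ _ _).trans
      (mul_le_mul_of_nonneg_right (ha c) (Finset.sum_nonneg fun _ _ => sq_nonneg _))
  have h2 : ∀ m, ∑ c, u m c ^ 2 ≤ y ^ 2 * ∑ c, (b m c * f c) ^ 2 := fun m =>
    (mv_le _ _).trans (mul_le_mul_of_nonneg_right
      (pow_le_pow_left₀ (norm_nonneg _) (hY m) 2) (Finset.sum_nonneg fun _ _ => sq_nonneg _))
  have h3 : ∑ m, ∑ c, (b m c * f c) ^ 2 ≤ β ^ 2 * ∑ c, f c ^ 2 := by
    rw [Finset.sum_comm, Finset.mul_sum]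
    refine Finset.sum_le_sum fun c _ => ?_
    simp only [mul_pow]
    rw [← Finset.sum_mul]
    exact mul_le_mul_of_nonneg_right (hb c) (sq_nonneg _)
  calc ∑ c, ((∑ m, diagonal (a m) * Y m * diagonal (b m)) *ᵥ f) c ^ 2
      ≤ ∑ c, α ^ 2 * ∑ m, u m c ^ 2 := Finset.sum_le_sum fun c _ => by rw [e]; exact h1 c
    _ = α ^ 2 * ∑ m, ∑ c, u m c ^ 2 := by rw [← Finset.mul_sum, Finset.sum_comm]
    _ ≤ α ^ 2 * ∑ m, y ^ 2 * ∑ c, (b m c * f c) ^ 2 :=
        mul_le_mul_of_nonneg_left (Finset.sum_le_sum fun m _ => h2 m) (sq_nonneg _)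
    _ = α ^ 2 * (y ^ 2 * ∑ m, ∑ c, (b m c * f c) ^ 2) := by rw [← Finset.mul_sum]
    _ ≤ α ^ 2 * (y ^ 2 * (β ^ 2 * ∑ c, f c ^ 2)) := by gcongr
    _ = (α * y * β) ^ 2 * ∑ c, f c ^ 2 := by ring

/-- commutator with a multiplication operator -/
def com (g : V → ℝ) (X : Matrix V V ℝ) : Matrix V V ℝ := diagonal g * X - X * diagonal g

theorem com_apply (g : V → ℝ) (X : Matrix V V ℝ) (c c' : V) :
    com g X c c' = (g c - g c') * X c c' := by
  simp only [com, Matrix.sub_apply, diagonal_mul, mul_diagonal]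
  ring

theorem gauge_one (g : V → ℤ) (X : Matrix V V ℝ)
    (h : ∀ c c', X c c' ≠ 0 → g c = g c' + 1 ∨ g c' = g c + 1) :
    ‖com (fun c => (g c : ℝ)) X‖ ≤ ‖X‖ := by
  set z : V → ℤ := fun c => if g c % 4 ≤ 1 then 1 else -1 with hz
  set y : V → ℤ := fun c => if g c % 2 = 0 then -z c else z c with hy
  have e : com (fun c => (g c : ℝ)) X =
      diagonal (fun c => (y c : ℝ)) * X * diagonal (fun c => (z c : ℝ)) := by
    ext c c'
    rw [com_apply, mul_diagonal, diagonal_mul]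
    by_cases h0 : X c c' = 0
    · simp [h0]
    · have : g c - g c' = y c * z c' := by
        simp only [hy, hz]
        rcases h c c' h0 with h1 | h1 <;> split_ifs <;> omega
      have h2 : (g c : ℝ) - g c' = y c * z c' := by exact_mod_cast this
      rw [h2]; ring
  have hz1 : ∀ c, |(z c : ℝ)| ≤ 1 := fun c => by
    simp only [hz]; split_ifs <;> simp
  have hy1 : ∀ c, |(y c : ℝ)| ≤ 1 := fun c => by
    have := hz1 c
    simp only [hy]; split_ifs <;> simpa using this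
  rw [e]
  calc _ ≤ ‖(diagonal (fun c => (y c : ℝ)) : Matrix V V ℝ)‖ * ‖X‖ *
        ‖(diagonal (fun c => (z c : ℝ)) : Matrix V V ℝ)‖ :=
        (norm_mul_le _ _).trans (mul_le_mul_of_nonneg_right (norm_mul_le _ _) (norm_nonneg _))
    _ ≤ 1 * ‖X‖ * 1 := by
        gcongr
        · exact dg_le _ 1 zero_le_one hy1
        · exact dg_le _ 1 zero_le_one hz1
    _ = ‖X‖ := by ring

theorem gauge (b g : V → ℕ) (X : Matrix V V ℝ)
    (h : ∀ c c', X c c' ≠ 0 → (b c + b c') % 2 = 1 ∧ g c ≤ g c' + 1 ∧ g c' ≤ g c + 1) :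
    ‖com (fun c => (g c : ℝ)) X‖ ≤ ‖X‖ := by
  have h1 := gauge_one (fun c => (g c : ℤ) + ((g c + b c) % 2 : ℕ)) X fun c c' h0 => by
    have := h c c' h0
    omega
  have h2 := gauge_one (fun c => (g c : ℤ) - ((g c + b c) % 2 : ℕ)) X fun c c' h0 => by
    have := h c c' h0
    omega
  have e : com (fun c => (g c : ℝ)) X = (1 / 2 : ℝ) •
      (com (fun c => (((g c : ℤ) + ((g c + b c) % 2 : ℕ) : ℤ) : ℝ)) X +
        com (fun c => (((g c : ℤ) - ((g c + b c) % 2 : ℕ) : ℤ) : ℝ)) X) := by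
    ext c c'
    simp only [com_apply, Matrix.smul_apply, Matrix.add_apply, smul_eq_mul, Int.cast_add,
      Int.cast_sub, Int.cast_natCast]
    ring
  rw [e, norm_smul]
  have := norm_add_le (com (fun c => (((g c : ℤ) + ((g c + b c) % 2 : ℕ) : ℤ) : ℝ)) X)
    (com (fun c => (((g c : ℤ) - ((g c + b c) % 2 : ℕ) : ℤ) : ℝ)) X)
  rw [Real.norm_eq_abs, abs_of_pos (by norm_num : (0 : ℝ) < 1 / 2)]
  linarith

theorem norm_tr (X : Matrix V V ℝ) : ‖Xᵀ * X‖ = ‖X‖ * ‖X‖ := by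
  have := l2_opNorm_conjTranspose_mul_self X
  rwa [conjTranspose_eq_transpose_of_trivial] at this

theorem norm_one_le : ‖(1 : Matrix V V ℝ)‖ ≤ 1 := by
  rw [← diagonal_one]
  exact dg_le _ 1 zero_le_one fun _ => by simp

end Pool.Agent.DI
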