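import Mathlib

set_option autoImplicit false

namespace Pool.Agent.DI

open Matrix

theorem eig_near {V : Type*} [Fintype V] [DecidableEq V] (Y : Matrix V V ℂ) (β : ℝ)
    (h : ∀ i j, ‖(Y * Y - Y) i j‖ ≤ β) (μ : ℂ) (hμ : μ ∈ Y.charpoly.roots) :
    ‖μ * μ - μ‖ ≤ Fintype.card V * β := by
  have h0 : Y.charpoly.eval μ = 0 := (Polynomial.mem_roots'.1 hμ).2
  rw [Matrix.eval_charpoly] at h0
  obtain ⟨v, hv, hv0⟩ := Matrix.exists_mulVec_eq_zero_iff.2 h0
  have hY : Y *ᵥ v = μ • v := by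
    rw [Matrix.sub_mulVec] at hv0
    have : (Matrix.scalar V μ) *ᵥ v = μ • v := by
      ext i; simp [Matrix.mulVec_diagonal]
    rw [this] at hv0
    exact (sub_eq_zero.1 hv0).symm
  have hYY : (Y * Y - Y) *ᵥ v = (μ * μ - μ) • v := by
    rw [Matrix.sub_mulVec, ← Matrix.mulVec_mulVec, hY, Matrix.mulVec_smul, hY, smul_smul, sub_smul]
  have hne : Nonempty V := by
    by_contra hn
    apply hv
    ext i
    exact absurd ⟨i⟩ hn
  obtain ⟨i, -, hi⟩ := Finset.exists_max_image Finset.univ (fun i => ‖v i‖) Finset.univ_nonempty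
  have hpos : 0 < ‖v i‖ := by
    rcases (norm_nonneg (v i)).lt_or_eq with h1 | h1
    · exact h1
    · exfalso
      apply hv
      ext j
      have := hi j (Finset.mem_univ j)
      rw [← h1] at this
      exact norm_eq_zero.1 (le_antisymm this (norm_nonneg _))
  have h1 : ‖μ * μ - μ‖ * ‖v i‖ ≤ (Fintype.card V * β) * ‖v i‖ := by
    have e : (μ * μ - μ) * v i = ∑ j, (Y * Y - Y) i j * v j := by
      have := congrFun hYY i
      simp only [Matrix.mulVec, dotProduct, Pi.smul_apply, smul_eq_mul] at this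
      exact this.symm
    rw [← norm_mul, e]
    calc ‖∑ j, (Y * Y - Y) i j * v j‖ ≤ ∑ j, ‖(Y * Y - Y) i j * v j‖ := norm_sum_le _ _
      _ ≤ ∑ _j : V, β * ‖v i‖ := by
          refine Finset.sum_le_sum fun j _ => ?_
          rw [norm_mul]
          exact mul_le_mul (h i j) (hi j (Finset.mem_univ j)) (norm_nonneg _)
            ((norm_nonneg _).trans (h i j))
      _ = (Fintype.card V * β) * ‖v i‖ := by
          rw [Finset.sum_const, Finset.card_univ, nsmul_eq_mul]; ring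
  exact le_of_mul_le_mul_right h1 hpos

theorem near_zero_one (μ : ℂ) (δ : ℝ) (h : ‖μ * μ - μ‖ ≤ δ) :
    ∃ z : ℤ, ‖μ - z‖ ≤ 2 * δ := by
  have e : ‖μ * μ - μ‖ = ‖μ‖ * ‖μ - 1‖ := by rw [← norm_mul]; congr 1; ring
  have t : (1 : ℝ) ≤ ‖μ‖ + ‖μ - 1‖ := by
    have := norm_sub_le μ (μ - 1)
    simpa using this
  rw [e] at h
  have a := norm_nonneg μ
  have b := norm_nonneg (μ - 1)
  rcases le_total ‖μ‖ ‖μ - 1‖ with h1 | h1
  · refine ⟨0, ?_⟩
    simp only [Int.cast_zero, sub_zero]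
    nlinarith
  · refine ⟨1, ?_⟩
    simp only [Int.cast_one]
    nlinarith

theorem sum_near (s : Multiset ℂ) (δ : ℝ) (h : ∀ μ ∈ s, ∃ z : ℤ, ‖μ - z‖ ≤ δ) :
    ∃ z : ℤ, ‖s.sum - z‖ ≤ s.card * δ := by
  induction s using Multiset.induction_on with
  | empty => exact ⟨0, by simp⟩
  | cons a s ih =>
    obtain ⟨z, hz⟩ := ih fun μ hμ => h μ (Multiset.mem_cons_of_mem hμ)
    obtain ⟨y, hy⟩ := h a (Multiset.mem_cons_self a s)
    refine ⟨y + z, ?_⟩
    have e : (a ::ₘ s).sum - ((y + z : ℤ) : ℂ) = (a - y) + (s.sum - z) := by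
      rw [Multiset.sum_cons]; push_cast; ring
    rw [e, Multiset.card_cons]
    have := norm_add_le (a - y) (s.sum - z)
    push_cast
    linarith

/-- The trace of an almost idempotent real matrix is close to an integer. -/
theorem trace_near_int {V : Type*} [Fintype V] [DecidableEq V] (X : Matrix V V ℝ) (β : ℝ)
    (hβ : 0 ≤ β) (h : ∀ i j, |(X * X - X) i j| ≤ β) :
    ∃ z : ℤ, |X.trace - z| ≤ 2 * (Fintype.card V : ℝ) ^ 2 * β := by
  set Y : Matrix V V ℂ := X.map (Complex.ofRealHom) with hY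
  have hY2 : ∀ i j, ‖(Y * Y - Y) i j‖ ≤ β := by
    intro i j
    have e : (Y * Y - Y) i j = (((X * X - X) i j : ℝ) : ℂ) := by
      simp [hY, Matrix.mul_apply]
    rw [e, Complex.norm_real, Real.norm_eq_abs]
    exact h i j
  obtain ⟨z, hz⟩ := sum_near Y.charpoly.roots (2 * (Fintype.card V * β))
    fun μ hμ => near_zero_one μ _ (eig_near Y β hY2 μ hμ)
  refine ⟨z, ?_⟩
  rw [← Matrix.trace_eq_sum_roots_charpoly] at hz
  have e : Y.trace - z = ((X.trace - z : ℝ) : ℂ) := by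
    simp [hY, Matrix.trace]
  rw [e, Complex.norm_real, Real.norm_eq_abs] at hz
  have hc : (Y.charpoly.roots.card : ℝ) ≤ Fintype.card V := by
    have := Polynomial.card_roots' Y.charpoly
    rw [Matrix.charpoly_natDegree_eq_dim] at this
    exact_mod_cast this
  have h0 : (0 : ℝ) ≤ 2 * (Fintype.card V * β) := by positivity
  calc |X.trace - z| ≤ _ := hz
    _ ≤ Fintype.card V * (2 * (Fintype.card V * β)) := mul_le_mul_of_nonneg_right hc h0
    _ = _ := by ring

end Pool.Agent.DI
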