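import Mathlib
import Pool.Agent.Lib.MP_d46fce_co.DI.Trace

set_option autoImplicit false

namespace Pool.Agent.DI

open Matrix
open scoped Matrix.Norms.L2Operator

section Norm

variable {V : Type*} [Fintype V] [DecidableEq V]

theorem opn_le (M : Matrix V V ℝ) (C : ℝ) (hC : 0 ≤ C)
    (h : ∀ f : V → ℝ, ∑ c, (M *ᵥ f) c ^ 2 ≤ C ^ 2 * ∑ c, f c ^ 2) : ‖M‖ ≤ C := by
  rw [← Matrix.l2_opNorm_toEuclideanCLM]
  refine ContinuousLinearMap.opNorm_le_bound _ hC fun x => ?_
  refine le_of_sq_le_sq ?_ (by positivity)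
  rw [mul_pow, EuclideanSpace.real_norm_sq_eq, EuclideanSpace.real_norm_sq_eq]
  have := h x.ofLp
  simpa [Matrix.ofLp_toEuclideanCLM] using this

theorem entry_le (M : Matrix V V ℝ) (i j : V) : |M i j| ≤ ‖M‖ := by
  have h := Matrix.l2_opNorm_mulVec M (EuclideanSpace.single j (1 : ℝ))
  rw [PiLp.norm_single, norm_one, mul_one] at h
  refine le_trans ?_ h
  have h2 := PiLp.norm_apply_le
    ((EuclideanSpace.equiv V ℝ).symm (M *ᵥ (EuclideanSpace.single j (1 : ℝ)).ofLp)) i
  simpa using h2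

theorem diag_le (v : V → ℝ) (h : ∀ c, |v c| ≤ 1) : ‖(diagonal v : Matrix V V ℝ)‖ ≤ 1 := by
  rw [Matrix.l2_opNorm_diagonal]
  exact (pi_norm_le_iff_of_nonneg zero_le_one).2 h

end Norm

section Graded

variable {V : Type*} [Fintype V] [DecidableEq V]

/-- Range at most `r`, parity degree `b`, and invariance under `ν` deep inside the zone `Z`. -/
def Gd (ρ : V → V → ℕ) (par : V → Bool) (ν : Equiv.Perm V) (Z : V → Prop)
    (M : Matrix V V ℝ) (r : ℕ) (b : Bool) : Prop :=
  (∀ c c', M c c' ≠ 0 → ρ c c' ≤ r ∧ par c = xor b (par c')) ∧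
    ∀ c c', (∀ y, ρ y c' ≤ r → Z y) → M (ν c) (ν c') = M c c'

variable {ρ : V → V → ℕ} {par : V → Bool} {ν : Equiv.Perm V} {Z : V → Prop}

omit [Fintype V] [DecidableEq V] in
theorem Gd.mono {M : Matrix V V ℝ} {r s : ℕ} {b : Bool} (h : Gd ρ par ν Z M r b) (hrs : r ≤ s) :
    Gd ρ par ν Z M s b :=
  ⟨fun c c' hc => ⟨(h.1 c c' hc).1.trans hrs, (h.1 c c' hc).2⟩,
    fun c c' hz => h.2 c c' fun y hy => hz y (hy.trans hrs)⟩

omit [Fintype V] [DecidableEq V] in
theorem Gd.zero (r : ℕ) (b : Bool) : Gd ρ par ν Z 0 r b :=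
  ⟨fun _ _ hc => absurd rfl hc, fun _ _ _ => rfl⟩

omit [Fintype V] in
theorem Gd.one (h0 : ∀ c, ρ c c = 0) : Gd ρ par ν Z 1 0 false := by
  refine ⟨fun c c' hc => ?_, fun c c' _ => ?_⟩
  · have : c = c' := by
      by_contra hn
      exact hc (Matrix.one_apply_ne hn)
    subst this
    simp [h0]
  · simp [Matrix.one_apply]

omit [Fintype V] [DecidableEq V] in
theorem Gd.add {M N : Matrix V V ℝ} {r : ℕ} {b : Bool} (h : Gd ρ par ν Z M r b)
    (h' : Gd ρ par ν Z N r b) : Gd ρ par ν Z (M + N) r b := by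
  refine ⟨fun c c' hc => ?_, fun c c' hz => ?_⟩
  · by_cases h1 : M c c' = 0
    · refine h'.1 c c' fun h2 => hc ?_
      rw [Matrix.add_apply, h1, h2, add_zero]
    · exact h.1 c c' h1
  · rw [Matrix.add_apply, Matrix.add_apply, h.2 c c' hz, h'.2 c c' hz]

omit [Fintype V] [DecidableEq V] in
theorem Gd.sub {M N : Matrix V V ℝ} {r : ℕ} {b : Bool} (h : Gd ρ par ν Z M r b)
    (h' : Gd ρ par ν Z N r b) : Gd ρ par ν Z (M - N) r b := by
  refine ⟨fun c c' hc => ?_, fun c c' hz => ?_⟩
  · by_cases h1 : M c c' = 0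
    · refine h'.1 c c' fun h2 => hc ?_
      rw [Matrix.sub_apply, h1, h2, sub_zero]
    · exact h.1 c c' h1
  · rw [Matrix.sub_apply, Matrix.sub_apply, h.2 c c' hz, h'.2 c c' hz]

omit [DecidableEq V] in
theorem Gd.mul (htri : ∀ x y z, ρ x z ≤ ρ x y + ρ y z) {M N : Matrix V V ℝ} {r s : ℕ}
    {b b' : Bool} (h : Gd ρ par ν Z M r b) (h' : Gd ρ par ν Z N s b') :
    Gd ρ par ν Z (M * N) (r + s) (xor b b') := by
  refine ⟨fun c c' hc => ?_, fun c c' hz => ?_⟩
  · rw [Matrix.mul_apply] at hc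
    obtain ⟨y, -, hy⟩ := Finset.exists_ne_zero_of_sum_ne_zero hc
    have h1 := h.1 c y (left_ne_zero_of_mul hy)
    have h2 := h'.1 y c' (right_ne_zero_of_mul hy)
    refine ⟨(htri c y c').trans (add_le_add h1.1 h2.1), ?_⟩
    rw [h1.2, h2.2, Bool.xor_assoc]
  · rw [Matrix.mul_apply, Matrix.mul_apply, ← Equiv.sum_comp ν]
    refine Finset.sum_congr rfl fun y _ => ?_
    rw [h'.2 y c' fun x hx => hz x (hx.trans (Nat.le_add_left s r))]
    by_cases h2 : N y c' = 0
    · rw [h2, mul_zero, mul_zero]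
    · rw [h.2 c y fun x hx => hz x ((htri x y c').trans (add_le_add hx (h'.1 y c' h2).1))]

theorem Gd.pow (h0 : ∀ c, ρ c c = 0) (htri : ∀ x y z, ρ x z ≤ ρ x y + ρ y z)
    {M : Matrix V V ℝ} {r : ℕ} (h : Gd ρ par ν Z M r false) (j : ℕ) :
    Gd ρ par ν Z (M ^ j) (j * r) false := by
  induction j with
  | zero => simpa using Gd.one h0
  | succ j ih =>
    have := Gd.mul htri ih h
    rw [pow_succ, Nat.succ_mul]
    simpa using this

theorem Gd.geom (h0 : ∀ c, ρ c c = 0) (htri : ∀ x y z, ρ x z ≤ ρ x y + ρ y z)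
    {M : Matrix V V ℝ} {r : ℕ} (h : Gd ρ par ν Z M r false) (n : ℕ) :
    Gd ρ par ν Z (∑ j ∈ Finset.range n, M ^ j) ((n - 1) * r) false := by
  induction n with
  | zero => simpa using Gd.zero 0 false
  | succ n ih =>
    rw [Finset.sum_range_succ, Nat.add_sub_cancel]
    exact (ih.mono (Nat.mul_le_mul_right r (Nat.sub_le n 1))).add (h.pow h0 htri n)

/-- Projection to the even, `ν`-invariant part. -/
noncomputable def evn (par : V → Bool) (ν : Equiv.Perm V) (M : Matrix V V ℝ) : Matrix V V ℝ :=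
  Matrix.of fun c c' => if par c = false then (M c c' + M (ν c) c') / 2 else 0

omit [DecidableEq V] in
theorem evn_mul (hν : ∀ c, ν (ν c) = c) (hp : ∀ c, par (ν c) = par c) (M : Matrix V V ℝ)
    (h1 : ∀ c c', M c c' ≠ 0 → par c = par c') (h2 : ∀ c c', M (ν c) (ν c') = M c c') :
    evn par ν M * evn par ν M = evn par ν (M * M) := by
  ext c c'
  simp only [evn, Matrix.mul_apply, Matrix.of_apply]
  by_cases hc : par c = false
  · simp only [hc, if_true]
    have e1 : ∀ y, (M c y + M (ν c) y) / 2 *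
        (if par y = false then (M y c' + M (ν y) c') / 2 else 0) =
        ((M c y + M (ν c) y) * M y c' + (M c y + M (ν c) y) * M (ν y) c') / 4 := by
      intro y
      by_cases hy : par y = false
      · rw [if_pos hy]; ring
      · have a1 : M c y = 0 := by
          by_contra hn
          exact hy ((h1 c y hn).symm.trans hc)
        have a2 : M (ν c) y = 0 := by
          by_contra hn
          exact hy ((h1 _ y hn).symm.trans ((hp c).trans hc))
        rw [if_neg hy, a1, a2]; ring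
    have e2 : ∑ y, (M c y + M (ν c) y) * M (ν y) c' = ∑ y, (M c y + M (ν c) y) * M y c' := by
      rw [← Equiv.sum_comp ν]
      refine Finset.sum_congr rfl fun y _ => ?_
      have a1 : M c (ν y) = M (ν c) y := by
        have := h2 (ν c) y
        rwa [hν] at this
      rw [hν, h2, a1, add_comm]
    rw [Finset.sum_congr rfl fun y _ => e1 y, ← Finset.sum_div, Finset.sum_add_distrib, e2]
    simp only [add_mul, Finset.sum_add_distrib]
    ring
  · simp [hc]

end Graded

theorem idem_bound {R : Type*} [NormedRing R] (a p χ η : R) (h1 : a * p = 1 - η)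
    (hχ : χ * χ = χ) (na : ‖a‖ ≤ 2) (np : ‖p‖ ≤ 4) (nχ : ‖χ‖ ≤ 1) (nη : ‖η‖ ≤ 1) :
    ‖(η * χ + p * χ * a) * (η * χ + p * χ * a) - (η * χ + p * χ * a)‖ ≤ 26 * ‖η‖ := by
  have e0 : p * χ * a * (p * χ * a) = p * χ * a - p * χ * η * χ * a := by
    have : p * χ * a * (p * χ * a) = p * χ * (a * p) * χ * a := by noncomm_ring
    rw [this, h1]
    have : p * χ * (1 - η) * χ * a = p * (χ * χ) * a - p * χ * η * χ * a := by noncomm_ring
    rw [this, hχ]
  have e : (η * χ + p * χ * a) * (η * χ + p * χ * a) - (η * χ + p * χ * a) =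
      η * χ * (η * χ) + η * χ * (p * χ * a) + p * χ * a * (η * χ) - p * χ * η * χ * a
        - η * χ := by
    rw [add_mul, mul_add, mul_add, e0]; abel
  have g0 := norm_nonneg η
  have b1 : ‖η * χ‖ ≤ ‖η‖ := (norm_mul_le _ _).trans (by nlinarith [norm_nonneg χ])
  have b2 : ‖p * χ‖ ≤ 4 := (norm_mul_le _ _).trans (by nlinarith [norm_nonneg χ, norm_nonneg p])
  have b3 : ‖p * χ * a‖ ≤ 8 :=
    (norm_mul_le _ _).trans (by nlinarith [norm_nonneg (p * χ), norm_nonneg a])
  have b4 : ‖η * χ * (η * χ)‖ ≤ ‖η‖ :=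
    (norm_mul_le _ _).trans (by nlinarith [norm_nonneg (η * χ)])
  have b5 : ‖η * χ * (p * χ * a)‖ ≤ 8 * ‖η‖ :=
    (norm_mul_le _ _).trans (by nlinarith [norm_nonneg (η * χ), norm_nonneg (p * χ * a)])
  have b6 : ‖p * χ * a * (η * χ)‖ ≤ 8 * ‖η‖ :=
    (norm_mul_le _ _).trans (by nlinarith [norm_nonneg (η * χ), norm_nonneg (p * χ * a)])
  have b7 : ‖p * χ * η‖ ≤ 4 * ‖η‖ :=
    (norm_mul_le _ _).trans (by nlinarith [norm_nonneg (p * χ)])
  have b8 : ‖p * χ * η * χ‖ ≤ 4 * ‖η‖ :=
    (norm_mul_le _ _).trans (by nlinarith [norm_nonneg (p * χ * η), norm_nonneg χ])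
  have b9 : ‖p * χ * η * χ * a‖ ≤ 8 * ‖η‖ :=
    (norm_mul_le _ _).trans (by nlinarith [norm_nonneg (p * χ * η * χ), norm_nonneg a])
  rw [e]
  have c1 := norm_sub_le (η * χ * (η * χ) + η * χ * (p * χ * a) + p * χ * a * (η * χ)
    - p * χ * η * χ * a) (η * χ)
  have c2 := norm_sub_le (η * χ * (η * χ) + η * χ * (p * χ * a) + p * χ * a * (η * χ))
    (p * χ * η * χ * a)
  have c3 := norm_add_le (η * χ * (η * χ) + η * χ * (p * χ * a)) (p * χ * a * (η * χ))
  have c4 := norm_add_le (η * χ * (η * χ)) (η * χ * (p * χ * a))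
  linarith

theorem geom_bound {R : Type*} [NormedRing R] (E : R) (h1 : ‖(1 : R)‖ ≤ 1) (hE : ‖E‖ ≤ 1 / 2)
    (n : ℕ) : ‖E ^ n‖ ≤ (1 / 2) ^ n ∧ ‖∑ j ∈ Finset.range n, E ^ j‖ ≤ 2 - 2 * (1 / 2) ^ n := by
  induction n with
  | zero => simpa using h1
  | succ n ih =>
    constructor
    · rw [pow_succ, pow_succ]
      exact (norm_mul_le _ _).trans (mul_le_mul ih.1 hE (norm_nonneg _) (by positivity))
    · rw [Finset.sum_range_succ, pow_succ]
      have := norm_add_le (∑ j ∈ Finset.range n, E ^ j) (E ^ n)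
      linarith [ih.1, ih.2]

theorem even_card {V : Type*} [DecidableEq V] (s : Finset V) (ν : V → V)
    (hν : ∀ c, ν (ν c) = c) (hs : ∀ c ∈ s, ν c ∈ s) (hf : ∀ c ∈ s, ν c ≠ c) : Even s.card := by
  have h : ∑ _c ∈ s, (1 : ZMod 2) = 0 :=
    Finset.sum_involution (fun c _ => ν c) (fun _ _ => by decide) (fun c hc _ => hf c hc)
      (fun c hc => hs c hc) (fun c _ => hν c)
  rw [Finset.sum_const, nsmul_eq_mul, mul_one] at h
  exact (ZMod.natCast_eq_zero_iff_even).1 h

/-- Parity of the index: a gapped odd local matrix cannot be `ν`-invariant near the boundary of a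
box that has exactly one fixed site. -/
theorem parity {V : Type*} [Fintype V] [DecidableEq V] (a : Matrix V V ℝ) (par : V → Bool)
    (ν : Equiv.Perm V) (B Z D : V → Prop) [DecidablePred B] (ρ : V → V → ℕ) (n : ℕ) (c0 : V)
    (h0 : ∀ c, ρ c c = 0) (htri : ∀ x y z, ρ x z ≤ ρ x y + ρ y z)
    (hiso : ∀ x y, ρ (ν x) (ν y) = ρ x y) (hν : ∀ c, ν (ν c) = c)
    (hp : ∀ c, par (ν c) = par c) (hB : ∀ c, B (ν c) ↔ B c)
    (ha : ∀ c c', a c c' ≠ 0 → ρ c c' ≤ 1 ∧ par c ≠ par c')
    (hinv : ∀ c c', Z c → Z c' → a (ν c) (ν c') = a c c')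
    (hD : ∀ c c', a c c' ≠ 0 → ¬ (B c ↔ B c') → D c')
    (hZ : ∀ c c', D c' → ρ c c' ≤ 2 * n → Z c)
    (hfar : ∀ c, D c → 2 * n < ρ (ν c) c)
    (hc0 : B c0 ∧ par c0 = false ∧ ν c0 = c0) (hfix : ∀ c, B c → ν c = c → c = c0)
    (na : ‖a‖ ≤ 2) (nE : ‖1 - a * a‖ ≤ 1 / 2)
    (hn : 200 * Fintype.card V ^ 2 < 2 ^ n) : False := by
  set E : Matrix V V ℝ := 1 - a * a with hE
  set S : Matrix V V ℝ := ∑ j ∈ Finset.range n, E ^ j with hS
  set η : Matrix V V ℝ := E ^ n with hη
  set p : Matrix V V ℝ := a * S with hpp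
  set χ : Matrix V V ℝ := diagonal fun c => if B c then (1 : ℝ) else 0 with hχ
  have n1 : ‖(1 : Matrix V V ℝ)‖ ≤ 1 := by
    rw [← Matrix.diagonal_one]; exact diag_le _ fun c => by simp
  have nχ : ‖χ‖ ≤ 1 := diag_le _ fun c => by split_ifs <;> simp
  obtain ⟨nη, nS⟩ := geom_bound E n1 nE n
  have q0 : (0 : ℝ) < (1 / 2) ^ n := by positivity
  have q1 : ((1 : ℝ) / 2) ^ n ≤ 1 := pow_le_one₀ (by norm_num) (by norm_num)
  have np : ‖p‖ ≤ 4 := (norm_mul_le _ _).trans (by nlinarith [norm_nonneg a, norm_nonneg S])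
  have hap : a * p = 1 - η := by
    have : a * a = 1 - E := by rw [hE]; abel
    rw [hpp, ← mul_assoc, this, hS, mul_neg_geom_sum]
  have hpa : p * a = 1 - η := by
    have c1 : Commute a E := (Commute.one_right a).sub_right ((Commute.refl a).mul_right (Commute.refl a))
    have c2 : Commute a S := Commute.sum_right _ _ _ fun j _ => c1.pow_right j
    rw [← hap, hpp, mul_assoc, ← c2.eq]
  have hχχ : χ * χ = χ := by
    rw [hχ, Matrix.diagonal_mul_diagonal]
    congr 1; ext c; split_ifs <;> simp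
  have ga : Gd ρ par ν Z a 1 true := by
    refine ⟨fun c c' hc => ⟨(ha c c' hc).1, ?_⟩, fun c c' hz => ?_⟩
    · have := (ha c c' hc).2
      revert this
      cases par c <;> cases par c' <;> simp
    · by_cases hc : ρ c c' ≤ 1
      · exact hinv c c' (hz c hc) (hz c' (by rw [h0]; exact zero_le_one))
      · have a1 : a c c' = 0 := by
          by_contra hn; exact hc (ha c c' hn).1
        have a2 : a (ν c) (ν c') = 0 := by
          by_contra hn; exact hc (hiso c c' ▸ (ha _ _ hn).1)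
        rw [a1, a2]
  have gE : Gd ρ par ν Z E 2 false := by
    have := Gd.mul htri ga ga
    exact ((Gd.one h0).mono (Nat.zero_le 2)).sub (by simpa using this)
  have gp : Gd ρ par ν Z p (1 + (n - 1) * 2) true := by
    have := Gd.mul htri ga (gE.geom h0 htri n)
    simpa using this
  have eC : ∀ c c', (a * χ - χ * a) c c' =
      a c c' * ((if B c' then (1 : ℝ) else 0) - if B c then (1 : ℝ) else 0) := by
    intro c c'
    rw [Matrix.sub_apply, hχ, Matrix.mul_diagonal, Matrix.diagonal_mul]; ring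
  have gC : Gd ρ par ν Z (a * χ - χ * a) 1 true := by
    refine ⟨fun c c' hc => ?_, fun c c' hz => ?_⟩
    · rw [eC] at hc
      exact ga.1 c c' (left_ne_zero_of_mul hc)
    · rw [eC, eC, ga.2 c c' hz]
      simp only [hB]
  set K : Matrix V V ℝ := p * (a * χ - χ * a) with hK
  have hn1 : 1 ≤ n := by
    have : 0 < Fintype.card V := Fintype.card_pos_iff.2 ⟨c0⟩
    rcases Nat.eq_zero_or_pos n with h | h
    · subst h
      nlinarith
    · exact h
  have gK : Gd ρ par ν Z K (2 * n) false := by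
    have := Gd.mul htri gp gC
    exact (show Gd ρ par ν Z K (1 + (n - 1) * 2 + 1) false by simpa using this).mono (by omega)
  have KD : ∀ c c', K c c' ≠ 0 → D c' := by
    intro c c' hc
    rw [hK, Matrix.mul_apply] at hc
    obtain ⟨y, -, hy⟩ := Finset.exists_ne_zero_of_sum_ne_zero hc
    have h2 := right_ne_zero_of_mul hy
    rw [eC] at h2
    refine hD y c' (left_ne_zero_of_mul h2) fun hb => right_ne_zero_of_mul h2 ?_
    simp only [hb, sub_self]
  have Kinv : ∀ c c', K (ν c) (ν c') = K c c' := by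
    intro c c'
    by_cases d1 : D c'
    · exact gK.2 c c' fun y hy => hZ y c' d1 hy
    by_cases d2 : D (ν c')
    · have := gK.2 (ν c) (ν c') fun y hy => hZ y _ d2 hy
      rw [hν, hν] at this
      exact this.symm
    have a1 : K c c' = 0 := by
      by_contra hn; exact d1 (KD _ _ hn)
    have a2 : K (ν c) (ν c') = 0 := by
      by_contra hn; exact d2 (KD _ _ hn)
    rw [a1, a2]
  have Kfar : ∀ c, K (ν c) c = 0 := by
    intro c
    by_contra hn
    exact absurd (gK.1 _ _ hn).1 (not_le.2 (hfar c (KD _ _ hn)))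
  set P : Matrix V V ℝ := η * χ + p * χ * a with hP
  have hPK : P = χ - K := by
    have : η = 1 - p * a := by rw [hpa]; abel
    rw [hP, hK, this]; noncomm_ring
  have eχ : ∀ c c', χ c c' = if c = c' ∧ B c then (1 : ℝ) else 0 := by
    intro c c'
    rw [hχ, Matrix.diagonal_apply]
    by_cases h1 : c = c' <;> simp [h1]
  have P1 : ∀ c c', P c c' ≠ 0 → par c = par c' := by
    intro c c' hc
    by_cases h1 : c = c'
    · rw [h1]
    · rw [hPK, Matrix.sub_apply, eχ, if_neg fun h => h1 h.1, zero_sub, neg_ne_zero] at hc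
      simpa using (gK.1 c c' hc).2
  have P2 : ∀ c c', P (ν c) (ν c') = P c c' := by
    intro c c'
    rw [hPK, Matrix.sub_apply, Matrix.sub_apply, Kinv, eχ, eχ]
    simp only [hB, EmbeddingLike.apply_eq_iff_eq]
  have nP : ‖P * P - P‖ ≤ 26 * (1 / 2) ^ n :=
    (idem_bound a p χ η hap hχχ na np nχ (nη.trans q1)).trans (by linarith)
  obtain ⟨z, hz⟩ := trace_near_int (evn par ν P) (26 * (1 / 2) ^ n) (by positivity) (by
    intro i j
    rw [evn_mul hν hp P P1 P2]
    have b1 := (entry_le (P * P - P) i j).trans nP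
    have b2 := (entry_le (P * P - P) (ν i) j).trans nP
    rw [Matrix.sub_apply] at b1 b2 ⊢
    simp only [evn, Matrix.of_apply]
    split_ifs
    · rw [abs_le] at b1 b2 ⊢
      constructor <;> linarith [b1.1, b1.2, b2.1, b2.2]
    · rw [sub_zero, abs_zero]; positivity)
  have t1 : ∑ c, (if par c = false then P (ν c) c else 0) = 1 := by
    rw [Finset.sum_eq_single c0]
    · rw [if_pos hc0.2.1, hPK, Matrix.sub_apply, Kfar, eχ, hc0.2.2]
      simp [hc0.1]
    · intro c _ hc
      rw [hPK, Matrix.sub_apply, Kfar, eχ, if_neg (show ¬ (ν c = c ∧ B (ν c)) from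
        fun h => hc (hfix c ((hB c).1 h.2) h.1))]
      simp
    · intro h; exact absurd (Finset.mem_univ _) h
  have t2 : ∑ c, (if par c = false then (p * χ * a) c c else 0) =
      ∑ y, if B y ∧ par y = true then (a * p) y y else 0 := by
    have e1 : ∀ c, (if par c = false then (p * χ * a) c c else 0) =
        ∑ y, if B y ∧ par y = true then a y c * p c y else 0 := by
      intro c
      rw [Matrix.mul_apply]
      split_ifs with hc
      · refine Finset.sum_congr rfl fun y _ => ?_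
        rw [hχ, Matrix.mul_diagonal]
        by_cases hy : a y c = 0
        · simp [hy]
        · have : par y = true := by
            have := (ha y c hy).2
            rw [hc] at this
            simpa using this
          by_cases hb : B y <;> simp [hb, this, mul_comm]
      · symm
        refine Finset.sum_eq_zero fun y _ => ?_
        split_ifs with hy
        · have : a y c = 0 := by
            by_contra hn
            apply (ha y c hn).2
            rw [hy.2]
            simpa using hc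
          rw [this, zero_mul]
        · rfl
    rw [Finset.sum_congr rfl fun c _ => e1 c, Finset.sum_comm]
    refine Finset.sum_congr rfl fun y _ => ?_
    split_ifs
    · rw [Matrix.mul_apply]
    · simp
  obtain ⟨m, hm⟩ := even_card (Finset.univ.filter fun y => B y ∧ par y = true) ν hν
    (fun c hc => by
      simp only [Finset.mem_filter, Finset.mem_univ, true_and] at hc ⊢
      rw [hB, hp]; exact hc)
    (fun c hc h => by
      simp only [Finset.mem_filter, Finset.mem_univ, true_and] at hc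
      have := hfix c hc.1 h
      rw [this, hc0.2.1] at hc
      exact absurd hc.2 (by simp))
  have t3 : ∑ y, (if B y ∧ par y = true then (1 : ℝ) else 0) = 2 * m := by
    rw [Finset.sum_boole, hm]; push_cast; ring
  set err : ℝ := ∑ c, ((if par c = false then (η * χ) c c else 0) -
    if B c ∧ par c = true then η c c else 0) with herr
  have t4 : |err| ≤ Fintype.card V * (1 / 2) ^ n := by
    refine (Finset.abs_sum_le_sum_abs _ _).trans ?_
    refine (Finset.sum_le_card_nsmul _ _ ((1 / 2) ^ n) fun c _ => ?_).trans ?_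
    · have b1 := (entry_le η c c).trans nη
      rw [hχ, Matrix.mul_diagonal]
      by_cases hb : B c <;> cases hc : par c <;> simp [hb] <;> simpa using b1
    · rw [Finset.card_univ, nsmul_eq_mul]
  have t5 : (evn par ν P).trace = (2 * m + err + 1) / 2 := by
    have e1 : ∀ c, evn par ν P c c = ((if par c = false then (η * χ) c c else 0) +
        (if par c = false then (p * χ * a) c c else 0) +
        if par c = false then P (ν c) c else 0) / 2 := by
      intro c
      simp only [evn, Matrix.of_apply]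
      split_ifs
      · rw [show P c c = (η * χ) c c + (p * χ * a) c c from by rw [hP, Matrix.add_apply]]
      · simp
    have e2 : ∀ y, (if B y ∧ par y = true then (a * p) y y else 0) =
        (if B y ∧ par y = true then (1 : ℝ) else 0) - if B y ∧ par y = true then η y y else 0 := by
      intro y
      rw [hap, Matrix.sub_apply, Matrix.one_apply_eq]
      split_ifs <;> simp
    simp only [Matrix.trace, Matrix.diag]
    rw [Finset.sum_congr rfl fun c _ => e1 c, ← Finset.sum_div, Finset.sum_add_distrib,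
      Finset.sum_add_distrib, t1, t2, Finset.sum_congr rfl fun y _ => e2 y,
      Finset.sum_sub_distrib, t3, herr, Finset.sum_sub_distrib]
    ring
  have hN : (1 : ℝ) ≤ Fintype.card V := by
    have : 0 < Fintype.card V := Fintype.card_pos_iff.2 ⟨c0⟩
    exact_mod_cast this
  have hsm : 200 * (Fintype.card V : ℝ) ^ 2 * (1 / 2) ^ n < 1 := by
    have h1 : 200 * (Fintype.card V : ℝ) ^ 2 < 2 ^ n := by exact_mod_cast hn
    rw [one_div, inv_pow, ← div_eq_mul_inv, div_lt_one (by positivity)]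
    exact h1
  rw [t5, abs_le] at hz
  rw [abs_le] at t4
  have b1 : (Fintype.card V : ℝ) * (1 / 2) ^ n ≤ (Fintype.card V : ℝ) ^ 2 * (1 / 2) ^ n :=
    mul_le_mul_of_nonneg_right (by nlinarith) q0.le
  have l1 : (z : ℝ) - m < 1 := by nlinarith [hz.1, hz.2, t4.1, t4.2]
  have l2 : (0 : ℝ) < z - m := by nlinarith [hz.1, hz.2, t4.1, t4.2]
  have l3 : z - m < 1 := by exact_mod_cast l1
  have l4 : 0 < z - m := by exact_mod_cast l2
  omega

end Pool.Agent.DI
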