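import Mathlib
import Pool.Agent.Lib.MP_d46fce_co.DI.St
import Pool.Agent.Lib.MP_d46fce_co.DI.Parity

set_option autoImplicit false

namespace Pool.Agent.DI

theorem par_thm : ParStmt := by
  intro V _ _ _ ρ Γ A r n hneg hadd h0 hΓ hΓn hΓ0 hA hinv hfar hfix nE nA hn
  have hsub : ∀ x y : V, ρ x ≤ ρ (x - y) + ρ y := by
    intro x y
    have := hadd (x - y) y
    rwa [sub_add_cancel] at this
  have hsub' : ∀ x y : V, ρ y ≤ ρ (x - y) + ρ x := by
    intro x y
    have := hsub y x
    rwa [← neg_sub x y, hneg] at this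
  refine parity A (fun c => decide (Γ c = -1)) (Equiv.neg V) (fun c => ρ c ≤ r)
    (fun c => r ≤ ρ c + (2 * n + 2) ∧ ρ c ≤ r + (2 * n + 2)) (fun c => r ≤ ρ c ∧ ρ c ≤ r + 1)
    (fun x y => ρ (x - y)) n 0 (fun c => by rw [sub_self, h0]) (fun x y z => ?_) (fun x y => ?_)
    (fun c => neg_neg c) (fun c => ?_) (fun c => ?_) (fun c c' hc => ⟨(hA c c' hc).2, ?_⟩)
    (fun c c' _ hc' => hinv c c' hc'.1 hc'.2) (fun c c' hc hb => ?_) (fun c c' hd hc => ?_)
    (fun c hd => ?_) ⟨by rw [h0]; exact Nat.zero_le r, ?_, neg_zero⟩ (fun c hc h => ?_) nA nE ?_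
  · have := hadd (x - y) (y - z)
    rwa [sub_add_sub_cancel] at this
  · rw [Equiv.neg_apply, ← hneg (x - y)]
    congr 1; abel
  · simp only [Equiv.neg_apply, hΓn]
  · simp only [Equiv.neg_apply, hneg]
  · have h1 := (hA c c' hc).1
    rcases hΓ c with h | h
    · rw [h1, h]; norm_num
    · rw [h1, h]; norm_num
  · have h1 := (hA c c' hc).2
    have h2 := hsub c c'
    have h3 := hsub' c c'
    omega
  · have h2 := hsub c c'
    have h3 := hsub' c c'
    omega
  · have h1 := hfar c (by omega) (by omega)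
    have e : (Equiv.neg V) c - c = -(c + c) := by rw [Equiv.neg_apply]; abel
    rw [e, hneg]
    omega
  · rw [hΓ0]; norm_num
  · refine hfix c hc ?_
    rw [Equiv.neg_apply] at h
    nth_rewrite 1 [← h]
    exact neg_add_cancel c
  · exact_mod_cast hn

end Pool.Agent.DI
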