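import Pool.Agent.Lib.MP_d46fce_co.All
import Pool.Agent.Lib.MP_d46fce_co.DI.St

/-!
Statements of the Kneser side of the log-free estimates.
-/

namespace Pool.Agent.DI

open Pool.Agent.Lib.MP_d46fce_co

/-- lower bound by blown-up sets with few jumps -/
def KLStmt : Prop :=
  ∀ m n k l M q : ℕ, l < n → 1 ≤ M → 1 ≤ q → 250000 * M < ((l + 1) / q - 1) ^ 2 →
    (2 * (3 * ((((2 * n + k) / q + 1 : ℕ) : ℝ) / M + 1)) ^ M ≤ m ∨ m = (2 * n + k).choose n) →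
    m ≤ (2 * n + k).choose n → M + 1 ≤ hm m n k l

/-- closed form of the lower bound -/
def KLowStmt : Prop :=
  ∃ C : ℝ, 0 < C ∧ ∀ m n k l : ℕ, l < n → 1 ≤ m → m ≤ (2 * n + k).choose n →
    min ((l + 1 : ℝ) ^ 2) (1 + Real.log m / Real.log (2 + (2 * n + k) /
      ((l + 1) * min (l + 1 : ℝ) (Real.sqrt (1 + Real.log m))))) ≤ C * hm m n k l

/-- upper bound at the scale `n / (u √(log m))` -/
def KUStmt : Prop :=
  ∃ C y₀ : ℝ, 0 < C ∧ ∀ (m n k l : ℕ) (Λ y : ℝ), l < n → 1 ≤ m → m ≤ (2 * n + k).choose n →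
    Real.log (1 + m) ≤ Λ → y = n / ((k + l + 1) * Real.sqrt (1 + Λ)) → y₀ ≤ y →
    (hm m n k l : ℝ) ≤ C * (1 + Λ / Real.log (2 + y))

end Pool.Agent.DI
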