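import Pool.Agent.Lib.MP_d46fce_co.DI.St

/-! The lattice Dirac operator on the torus: gap and parity give the thick Tucker lemma. -/

set_option autoImplicit false

namespace Pool.Agent.DI

open Finset Matrix
open scoped Matrix.Norms.L2Operator

namespace Thick

section Mono

variable {V : Type} [Fintype V] [DecidableEq V] {π π' : V → V} {σ σ' : V → ℝ}

/-- a signed permutation matrix -/
def T (π : V → V) (σ : V → ℝ) : Matrix V V ℝ := of fun c c' => if c' = π c then σ c else 0

theorem T_mul (X : Matrix V V ℝ) (c c' : V) : (T π σ * X) c c' = σ c * X (π c) c' := by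
  simp [T, mul_apply]

omit [Fintype V] in
theorem T_ne {c c' : V} (h : T π σ c c' ≠ 0) : c' = π c := by
  by_contra e
  exact h (if_neg e)

omit [Fintype V] in
theorem T_tr (h1 : ∀ c, π (π c) = c) (h2 : ∀ c, σ (π c) = σ c) : (T π σ)ᵀ = T π σ := by
  ext c c'
  simp only [T, transpose_apply, of_apply]
  by_cases e : c' = π c
  · simp [e, h1, h2]
  · rw [if_neg e, if_neg]
    rintro rfl
    exact e (h1 _).symm

theorem T_sq (h1 : ∀ c, π (π c) = c) (h2 : ∀ c, σ (π c) = σ c) (h3 : ∀ c, σ c * σ c = 1) :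
    T π σ * T π σ = 1 := by
  ext c c'
  rw [T_mul, one_apply]
  simp only [T, of_apply, h1, h2]
  by_cases e : c = c'
  · simp [e, h3]
  · simp [e, Ne.symm e]

theorem T_anti (h1 : ∀ c, π (π' c) = π' (π c)) (h2 : ∀ c, σ c * σ' (π c) = -(σ' c * σ (π' c))) :
    T π σ * T π' σ' = -(T π' σ' * T π σ) := by
  ext c c'
  rw [Matrix.neg_apply, T_mul, T_mul]
  simp only [T, of_apply, h1]
  split_ifs
  · exact h2 c
  · simp

end Mono

variable {d r : ℕ}

/-- parity on the circle -/
def par (r : ℕ) : ZMod (4 * r + 4) →+* ZMod 2 := ZMod.castHom ⟨2 * r + 2, by ring⟩ _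

/-- the sign of a parity -/
def sg (x : ZMod 2) : ℝ := if x = 0 then 1 else -1

theorem sg_add (x : ZMod 2) : sg (x + 1) = -sg x := by
  have : x = 0 ∨ x = 1 := by revert x; decide
  have e : (1 + 1 : ZMod 2) = 0 := by decide
  rcases this with rfl | rfl <;> simp [sg, e]

theorem sg_or (x : ZMod 2) : sg x = 1 ∨ sg x = -1 := by
  unfold sg
  split_ifs <;> simp

theorem par_neg (y : ZMod (4 * r + 4)) : par r (-y) = par r y := by
  rw [map_neg, ZMod.neg_eq_self_mod_two]

/-- the direction of the step -/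
def u (s : Bool) (y : ZMod (4 * r + 4)) : ZMod (4 * r + 4) :=
  if par r y = if s then 1 else 0 then 1 else -1

theorem u_or (s : Bool) (y : ZMod (4 * r + 4)) : u s y = 1 ∨ u s y = -1 := by
  unfold u
  split_ifs <;> simp

theorem par_u (s : Bool) (y : ZMod (4 * r + 4)) : par r (u s y) = 1 := by
  rcases u_or s y with e | e <;> simp only [e, par_neg, map_one]

theorem u_u (s : Bool) (y : ZMod (4 * r + 4)) : u s (y + u s y) = -u s y := by
  have : ∀ a b : ZMod 2, a + 1 = b ↔ ¬ a = b := by decide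
  rw [u, map_add, par_u, u]
  simp only [this, ite_not]
  split_ifs <;> simp

theorem u_neg (s : Bool) (y : ZMod (4 * r + 4)) : u (!s) (-y) = -u s y := by
  have : ∀ a : ZMod 2, a = 0 ↔ ¬ a = 1 := by decide
  rw [u, par_neg, u]
  cases s <;> by_cases e : par r y = 1 <;> simp [this, e]

/-- the matchings of the torus -/
def τ (k : Fin d) (s : Bool) (c : Tor d r) : Tor d r := c + Pi.single k (u s (c k))

/-- sums of parities over a set of coordinates -/
def Q (S : Finset (Fin d)) (c : Tor d r) : ZMod 2 := ∑ i ∈ S, par r (c i)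

theorem Q_τ (S : Finset (Fin d)) (k : Fin d) (s : Bool) (c : Tor d r) :
    Q S (τ k s c) = Q S c + if k ∈ S then 1 else 0 := by
  simp only [Q, τ, Pi.add_apply, map_add, sum_add_distrib, Pi.single_apply, apply_ite (par r),
    par_u, map_zero, sum_ite_eq']

theorem Q_neg (S : Finset (Fin d)) (c : Tor d r) : Q S (-c) = Q S c := by
  simp only [Q, Pi.neg_apply, par_neg]

theorem τ_τ (k : Fin d) (s : Bool) (c : Tor d r) : τ k s (τ k s c) = c := by
  simp only [τ, Pi.add_apply, Pi.single_eq_same, u_u, Pi.single_neg, add_neg_cancel_right]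

theorem τ_comm {k k' : Fin d} (h : k ≠ k') (s s' : Bool) (c : Tor d r) :
    τ k s (τ k' s' c) = τ k' s' (τ k s c) := by
  simp only [τ, Pi.add_apply, Pi.single_eq_of_ne h, Pi.single_eq_of_ne h.symm, add_zero]
  abel

theorem τ_neg (k : Fin d) (s : Bool) (c : Tor d r) : τ k (!s) (-c) = -τ k s c := by
  simp only [τ, Pi.neg_apply, u_neg, Pi.single_neg, neg_add]

theorem va (a b : ZMod (4 * r + 4)) : (a + b).val = a.val + b.val ∨
    (a + b).val + (4 * r + 4) = a.val + b.val := by
  rcases lt_or_ge (a.val + b.val) (4 * r + 4) with h | h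
  · exact .inl (ZMod.val_add_of_lt h)
  · exact .inr (ZMod.val_add_val_of_le h).symm

theorem ab_add (a b : ZMod (4 * r + 4)) : ab (a + b) ≤ ab a + ab b := by
  have := va a b
  have := ZMod.val_lt a
  have := ZMod.val_lt b
  have := ZMod.val_lt (a + b)
  unfold ab
  omega

theorem ab_neg (a : ZMod (4 * r + 4)) : ab (-a) = ab a := by
  have := va a (-a)
  have := ZMod.val_lt a
  have := ZMod.val_lt (-a)
  rw [add_neg_cancel, ZMod.val_zero] at *
  unfold ab
  omega

theorem ab_zero : ab (0 : ZMod (4 * r + 4)) = 0 := by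
  simp [ab]

theorem ab_u (s : Bool) (y : ZMod (4 * r + 4)) : ab (u s y) ≤ 1 := by
  have : ab (1 : ZMod (4 * r + 4)) ≤ 1 := (min_le_left _ _).trans (by
    rw [ZMod.val_one_eq_one_mod]
    exact Nat.mod_le _ _)
  rcases u_or s y with e | e <;> simpa only [e, ab_neg] using this

theorem big (d N : ℕ) : ∃ n : ℕ, 200 * (((4 * (N + 4 * n + 4) + 4) ^ d : ℕ) : ℝ) ^ 2 < 2 ^ n := by
  have h := (tendsto_pow_const_div_const_pow_of_one_lt (2 * d) (one_lt_two (α := ℝ))).eventually_lt_const
    (show (0 : ℝ) < 1 / (200 * 20 ^ (2 * d)) by positivity)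
  obtain ⟨n, h1, h2⟩ := (h.and (Filter.eventually_ge_atTop (N + 5))).exists
  refine ⟨n, lt_of_le_of_lt ?_ (show (200 * 20 ^ (2 * d) : ℝ) * n ^ (2 * d) < 2 ^ n from ?_)⟩
  · have : ((4 * (N + 4 * n + 4) + 4 : ℕ) : ℝ) ≤ 20 * n := by exact_mod_cast (by omega)
    rw [mul_assoc, ← mul_pow, Nat.cast_pow, ← pow_mul, mul_comm d]
    gcongr
  · rw [div_lt_div_iff₀ (by positivity) (by positivity)] at h1
    linarith

end Thick

open Thick in
theorem thick_of (hG : GapStmt) (hP : ParStmt) : ThickStmt := by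
  intro d N t
  obtain ⟨n, hn⟩ := big d N
  obtain ⟨r, hr⟩ : ∃ r, r = N + 4 * n + 4 := ⟨_, rfl⟩
  rw [← hr] at hn
  refine ⟨r, fun g lip hi cov sym => ?_⟩
  by_contra! h
  let X : Fin d → Bool → Matrix (Tor d r) (Tor d r) ℝ := fun k s =>
    T (τ k s) fun c => sg (Q (Iio k) c)
  have s1 : ∀ (k : Fin d) s (c : Tor d r), sg (Q (Iio k) (τ k s c)) = sg (Q (Iio k) c) :=
    fun k s c => by simp [Q_τ]
  obtain ⟨v, hv, hA⟩ := hG (Tor d r) (Fin d) X (fun c => (Q univ c).val) g t
    (fun k s => T_tr (τ_τ k s) (s1 k s))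
    (fun k s => T_sq (τ_τ k s) (s1 k s) fun c => by
      rcases sg_or (Q (Iio k) c) with e | e <;> simp [e])
    (fun k k' s s' e => T_anti (τ_comm e s s') fun c => by
      rcases lt_or_gt_of_ne e with e | e <;> simp [Q_τ, e, e.not_gt, sg_add, mul_comm])
    (fun k s c c' e => by
      obtain rfl := T_ne e
      refine ⟨?_, fun k' s' => ?_⟩
      · have : ∀ x : ZMod 2, (x.val + (x + 1).val) % 2 = 1 := by decide
        simpa [Q_τ] using this _
      · rcases u_or s (c k) with e | e
        · rw [τ, e]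
          exact (lip k' s' c k).symm
        · have := lip k' s' (τ k s c) k
          rwa [show τ k s c + Pi.single k 1 = c by
            rw [τ, e, Pi.single_neg, neg_add_cancel_right]] at this)
    hi cov (by simpa using h.le) (Nat.pos_of_ne_zero fun e => by simp [e] at h)
  obtain ⟨A, eA⟩ : ∃ A : Matrix (Tor d r) (Tor d r) ℝ,
    A = ∑ k, ∑ s, X k s * diagonal (fun c => 40 / ((v c : ℝ) + g k s c)) := ⟨_, rfl⟩
  have eA' : ∀ c c', A c c' = ∑ k, ∑ s, X k s c c' * (40 / ((v c' : ℝ) + g k s c')) :=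
    fun c c' => by simp only [eA, Matrix.sum_apply, mul_diagonal]
  let ρ : Tor d r → ℕ := fun c => univ.sup fun j => ab (c j)
  have le : ∀ c j, ab (c j) ≤ ρ c := fun c j => le_sup (f := fun j => ab (c j)) (mem_univ j)
  have ex : ∀ c, r + 1 ≤ ρ c + (2 * n + 2) → ∃ j, ρ c ≤ ab (c j) := fun c e => by
    obtain ⟨j, -, e⟩ := (Finset.le_sup_iff (show ⊥ < ρ c from (by omega : 0 < ρ c))).1 le_rfl
    exact ⟨j, e⟩
  refine hP (Tor d r) ρ (fun c => sg (Q univ c)) A (r + 1) n (fun c => ?_) (fun a b => ?_) ?_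
    (fun c => sg_or _) (fun c => by rw [Q_neg]) (by simp [Q, sg]) (fun c c' e => ?_)
    (fun c c' a b => ?_) (fun c a b => ?_) (fun c a b => ?_) (hA A eA).1 (hA A eA).2 (by simpa using hn)
  · simp only [ρ, Pi.neg_apply, ab_neg]
  · exact Finset.sup_le fun j _ => (ab_add _ _).trans (add_le_add (le a j) (le b j))
  · simp [ρ, ab_zero]
  · rw [eA'] at e
    obtain ⟨k, -, e⟩ := exists_ne_zero_of_sum_ne_zero e
    obtain ⟨s, -, e⟩ := exists_ne_zero_of_sum_ne_zero e
    obtain rfl := T_ne (left_ne_zero_of_mul e)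
    refine ⟨by simp [Q_τ, sg_add], Finset.sup_le fun j _ => ?_⟩
    simp only [τ, sub_add_cancel_left, Pi.neg_apply, ab_neg, Pi.single_apply]
    split_ifs
    · exact ab_u _ _
    · exact ab_zero.trans_le zero_le_one
  · obtain ⟨j, e⟩ := ex c' a
    have := le c' j
    have sy := sym c' ⟨j, by unfold ht; omega⟩
    rw [eA', eA']
    refine sum_congr rfl fun k _ => ?_
    have : ∀ s, X k (!s) (-c) (-c') = X k s c c' := fun s => by
      simp only [X, T, of_apply, τ_neg, neg_inj, Q_neg]
    rw [Fintype.sum_bool, Fintype.sum_bool, hv c' _ sy, sy, sy, ← this true, ← this false, add_comm]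
    rfl
  · obtain ⟨j, e⟩ := ex c a
    have := le c j
    have := le (c + c) j
    have := va (c j) (c j)
    have := ZMod.val_lt (c j)
    have := ZMod.val_lt (c j + c j)
    simp only [ab, Pi.add_apply] at *
    omega
  · funext j
    have := le c j
    have := va (c j) (c j)
    have := ZMod.val_lt (c j)
    rw [show c j + c j = 0 from congrFun b j, ZMod.val_zero] at *
    simp only [ab] at *
    exact (ZMod.val_eq_zero _).1 (by omega)

end Pool.Agent.DI
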